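import Pool.Agent.Lib.SU2K.PolyDefs

/-!
# The second polynomial inequality

Numerically `FI + (v-1) GG ≥ 0.0985 * r⁴/4` (worst case at `v = 1`, where it is `polyI`).
`FI + (v-1) GG = r⁴/4 + x r² L + x² Q + C x³` with `C = (296/25) v²`; for large `r, v` the
coefficients `L`, `Q`, `C` are of order `r²`, `r³`... so there the inequality is far from sharp if
`L ≥ 0`; where `L < 0` use `x³ ≥ 2κr x² - κ²r² x` with a `κ` depending on `(r, v)` (e.g.
`κ = 1/4 · 1/v`-like, numerically check), or other elementary estimates.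
-/

noncomputable section

namespace Pool.Agent.SU2K

namespace PolyIIAux

/-- `(23/25) Q' - M²` -/
def P (v d : ℝ) : ℝ :=
  (23 / 25) * (92 / 25 * v ^ 3 + v ^ 2 * (34463 / 2500 - 56 / 25 * d)
    + v * (-(148 / 25) + 1487 / 1250 * d) - 201 / 100 * d ^ 2)
    - (-(56493 / 125000) + 731 / 200 * v + d * (v - 1) - d ^ 2 * (3 + v) / 8) ^ 2

theorem quad {a b c w : ℝ} (ha : 0 < a) (hc : 0 ≤ 4 * a * c - b ^ 2) :
    0 ≤ c + b * w + a * w ^ 2 := by
  have h1 : 0 ≤ (2 * a * w + b) ^ 2 + (4 * a * c - b ^ 2) := by positivity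
  have h2 : 4 * a * (c + b * w + a * w ^ 2) = (2 * a * w + b) ^ 2 + (4 * a * c - b ^ 2) := by ring
  by_contra hcon
  push Not at hcon
  have h3 : 4 * a * (c + b * w + a * w ^ 2) < 0 := mul_neg_of_pos_of_neg (by linarith) hcon
  linarith

/-- lower bounds for the coefficients give the quadratic inequality -/
theorem quad' {b c b' c' w : ℝ} (hw : 0 ≤ w) (hb : b' ≤ b) (hc : c' ≤ c)
    (h : 0 ≤ 4 * (2116 / 625) * c' - b' ^ 2) : 0 ≤ c + b * w + 2116 / 625 * w ^ 2 := by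
  have h1 := quad (a := 2116 / 625) (w := w) (by norm_num) h
  have h2 : b' * w ≤ b * w := mul_le_mul_of_nonneg_right hb hw
  linarith

theorem PA {w d : ℝ} (hw : 0 ≤ w) (hd : 0 ≤ d) (hd' : d ≤ 9 / 5) : 0 ≤ P (1 + w) d := by
  have hid : P (1 + w) d = (1414126019 / 3906250000 - 30199 / 31250 * d + 21154 / 15625 * d ^ 2
      - 1 / 4 * d ^ 4) + w * ((41630179 / 6250000 - 29479 / 3125 * d + 1113941 / 250000 * d ^ 2
        + d ^ 3 - 1 / 8 * d ^ 4)
      + (9480159 / 1000000 - 23427 / 2500 * d - 69 / 800 * d ^ 2 + 1 / 4 * d ^ 3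
        - 1 / 64 * d ^ 4) * w + 2116 / 625 * w ^ 2) := by
    unfold P
    ring
  rw [hid]
  have h0 : 0 ≤ 1414126019 / 3906250000 - 30199 / 31250 * d + 21154 / 15625 * d ^ 2
      - 1 / 4 * d ^ 4 := by
    nlinarith [sq_nonneg (d - 19 / 50), mul_nonneg hd (sub_nonneg.2 hd'),
      mul_nonneg (sq_nonneg d) (mul_nonneg hd (sub_nonneg.2 hd')), sq_nonneg (d ^ 2 - d / 2),
      mul_nonneg (sq_nonneg (d - 19 / 50)) (mul_nonneg hd (sub_nonneg.2 hd'))]
  have h1 : 0 ≤ (41630179 / 6250000 - 29479 / 3125 * d + 1113941 / 250000 * d ^ 2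
        + d ^ 3 - 1 / 8 * d ^ 4)
      + (9480159 / 1000000 - 23427 / 2500 * d - 69 / 800 * d ^ 2 + 1 / 4 * d ^ 3
        - 1 / 64 * d ^ 4) * w + 2116 / 625 * w ^ 2 := by
    have hd2 : 0 ≤ d ^ 2 := sq_nonneg d
    have hd3 : 0 ≤ d ^ 3 := by positivity
    have hd4 : d ^ 4 ≤ 9 / 5 * d ^ 3 := by
      have : 0 ≤ d ^ 3 * (9 / 5 - d) := mul_nonneg hd3 (sub_nonneg.2 hd')
      nlinarith
    rcases le_total d 1 with h | h
    · apply quad' hw (b' := 0) (c' := 0) _ _ (by norm_num)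
      · have hd22 : d ^ 2 ≤ d := by nlinarith
        nlinarith
      · nlinarith [sq_nonneg (d - 17 / 20)]
    · rcases le_total d (7 / 5) with h' | h'
      · apply quad' hw (b' := -(16 / 5)) (c' := 2) _ _ (by norm_num)
        · have e1 : d ^ 2 ≤ 7 / 5 * d := by nlinarith
          have e2 : 1 ≤ d ^ 3 := one_le_pow₀ h
          nlinarith
        · nlinarith [sq_nonneg (d - 1), sq_nonneg (d - 17 / 20)]
      · apply quad' hw (b' := -(32 / 5)) (c' := 4) _ _ (by norm_num)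
        · have e1 : d ^ 2 ≤ 9 / 5 * d := by nlinarith
          have e2 : 1 ≤ d ^ 3 := one_le_pow₀ h
          nlinarith
        · nlinarith [sq_nonneg (d - 7 / 5), sq_nonneg (d - 1)]
  have h2 := mul_nonneg hw h1
  linarith

theorem PB {w t : ℝ} (hw : 0 ≤ w) (ht : 0 ≤ t) (ht' : t ≤ 31 / 5) :
    0 ≤ P (25 / 81 * (9 / 5 + t) ^ 2 + w) (9 / 5 + t) := by
  have hid : P (25 / 81 * (9 / 5 + t) ^ 2 + w) (9 / 5 + t) =
      (1502528519 / 3906250000 + 21579257 / 2812500 * t + 62711759 / 10125000 * t ^ 2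
        + 6657823 / 4556250 * t ^ 3 + 1883302 / 1366875 * t ^ 4 + 168443 / 157464 * t ^ 5
        + 1933825 / 8503056 * t ^ 6 + 125 / 52488 * t ^ 7 - 625 / 419904 * t ^ 8)
      + w * ((43187 / 5000 - 468881 / 625000 * t - 6026243 / 6750000 * t ^ 2
        + 109313 / 24300 * t ^ 3 + 30455 / 17496 * t ^ 4 + 65 / 1296 * t ^ 5 - 25 / 2592 * t ^ 6)
      + (-(1593189 / 250000) + 55043 / 15000 * t + 2764 / 675 * t ^ 2 + 11 / 80 * t ^ 3
        - 1 / 64 * t ^ 4) * w + 2116 / 625 * w ^ 2) := by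
    unfold P
    ring
  rw [hid]
  have hp : ∀ n : ℕ, 0 ≤ t ^ n := fun n => pow_nonneg ht n
  have hs : ∀ n : ℕ, t ^ (n + 1) ≤ 31 / 5 * t ^ n := fun n => by
    rw [pow_succ, mul_comm]
    exact mul_le_mul_of_nonneg_right ht' (hp n)
  have h0 : 0 ≤ 1502528519 / 3906250000 + 21579257 / 2812500 * t + 62711759 / 10125000 * t ^ 2
        + 6657823 / 4556250 * t ^ 3 + 1883302 / 1366875 * t ^ 4 + 168443 / 157464 * t ^ 5
        + 1933825 / 8503056 * t ^ 6 + 125 / 52488 * t ^ 7 - 625 / 419904 * t ^ 8 := by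
    have h8 := hs 7
    have h7 := hs 6
    have := hp 2
    have := hp 3
    have := hp 4
    have := hp 5
    have := hp 6
    have := hp 7
    norm_num at h8 h7
    linarith
  have h1 : 0 ≤ (43187 / 5000 - 468881 / 625000 * t - 6026243 / 6750000 * t ^ 2
        + 109313 / 24300 * t ^ 3 + 30455 / 17496 * t ^ 4 + 65 / 1296 * t ^ 5 - 25 / 2592 * t ^ 6)
      + (-(1593189 / 250000) + 55043 / 15000 * t + 2764 / 675 * t ^ 2 + 11 / 80 * t ^ 3
        - 1 / 64 * t ^ 4) * w + 2116 / 625 * w ^ 2 := by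
    have h6 := hs 5
    have h5 := hs 4
    have h4 := hs 3
    have h3 := hs 2
    have e2 := hp 2
    have e3 := hp 3
    have e4 := hp 4
    have e5 := hp 5
    norm_num at h6 h5 h4 h3
    apply quad' hw (b' := -(32 / 5)) (c' := 4) _ _ (by norm_num)
    · linarith
    · have e6 : 0 ≤ 43187 / 5000 - 4 - 468881 / 625000 * t - 6026243 / 6750000 * t ^ 2
        + 109313 / 24300 * t ^ 3 := by
        nlinarith [mul_nonneg ht (sq_nonneg (t - 1 / 2)), mul_nonneg ht (sq_nonneg (t - 1 / 4)),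
          sq_nonneg (t - 1)]
      linarith
  have h2 := mul_nonneg hw h1
  linarith

theorem main {v d : ℝ} (hv : 1 ≤ v) (hd : 0 ≤ d) (h : d ^ 2 ≤ 81 / 25 * v) (hd' : d ≤ 8) :
    0 ≤ P v d := by
  rcases le_total d (9 / 5) with h1 | h1
  · have h2 := PA (w := v - 1) (sub_nonneg.2 hv) hd h1
    rwa [add_sub_cancel] at h2
  · have h2 := PB (w := v - 25 / 81 * d ^ 2) (t := d - 9 / 5) (by linarith) (by linarith)
      (by linarith)
    rwa [add_sub_cancel, add_sub_cancel] at h2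

end PolyIIAux

open PolyIIAux in
theorem polyII {r v x : ℝ} (hr : 1 ≤ r) (hv : 1 ≤ v) (hx : 0 ≤ x)
    (h : (v - r) ^ 2 ≤ (81 / 25) * v) (hvr : v ≤ r) :
    r ^ 4 / 50 ≤ FI r v x + (v - 1) * GG r v x := by
  obtain ⟨d, hd, rfl⟩ : ∃ d, 0 ≤ d ∧ r = v + d := ⟨r - v, by linarith, by ring⟩
  have hd2 : d ^ 2 ≤ 81 / 25 * v := by
    have : (v - (v + d)) ^ 2 = d ^ 2 := by ring
    linarith
  -- the quantities `-L'`, `Q'`
  obtain ⟨m, hm⟩ : ∃ m : ℝ, m = 35816 / 62500 + 201 / 200 + 13 / 8 * v - d ^ 2 / 2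
    + (v - 1) * (17 / 8 - 19 / 200 * v + d - d ^ 2 / 8) := ⟨_, rfl⟩
  obtain ⟨Q, hQ⟩ : ∃ Q : ℝ, Q = 92 / 25 * v ^ 3 + v ^ 2 * (34463 / 2500 - 56 / 25 * d)
    + v * (-(148 / 25) + 1487 / 1250 * d) - 201 / 100 * d ^ 2 := ⟨_, rfl⟩
  have hid : FI (v + d) v x + (v - 1) * GG (v + d) v x - (v + d) ^ 4 / 50 =
      23 / 100 * (v + d) ^ 4 - x * (v + d) ^ 2 * m + x ^ 2 * Q
        + x * (296 / 25) * (v * x - 11 / 50 * (v + d)) ^ 2 := by
    rw [hm, hQ]
    unfold FI GG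
    ring
  have hkey : 0 ≤ Q ∧ (m ≤ 0 ∨ m ^ 2 ≤ 23 / 25 * Q) := by
    rcases le_total d 8 with h8 | h8
    · have hP := main hv hd hd2 h8
      unfold P at hP
      rw [← hQ] at hP
      obtain ⟨M, hM⟩ : ∃ M : ℝ, M = -(56493 / 125000) + 731 / 200 * v + d * (v - 1)
        - d ^ 2 * (3 + v) / 8 := ⟨_, rfl⟩
      rw [← hM] at hP
      have hmM : m ≤ M := by
        have : M - m = 19 / 200 * (v - 1) ^ 2 := by
          rw [hM, hm]
          ring
        nlinarith [sq_nonneg (v - 1)]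
      refine ⟨by nlinarith [sq_nonneg M], ?_⟩
      rcases le_total m 0 with h1 | h1
      · exact Or.inl h1
      · right
        have h2 : m ^ 2 ≤ M ^ 2 := pow_le_pow_left₀ h1 hmM 2
        linarith
    · have hv19 : 19 ≤ v := by nlinarith
      have hdv : d ≤ 81 / 200 * v := by nlinarith
      have hQ2 : 16 * v ^ 2 ≤ 23 / 25 * Q := by
        have e1 : v ^ 2 * d ≤ v ^ 2 * (81 / 200 * v) := mul_le_mul_of_nonneg_left hdv (sq_nonneg v)
        have e2 : 0 ≤ v * d := mul_nonneg (by linarith) hd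
        have e3 : 19 * v ^ 2 ≤ v ^ 3 := by
          have : v ^ 3 = v * v ^ 2 := by ring
          rw [this]
          exact mul_le_mul_of_nonneg_right hv19 (sq_nonneg v)
        have e4 : 19 * v ≤ v ^ 2 := by nlinarith
        rw [hQ]
        nlinarith
      refine ⟨by nlinarith [sq_nonneg v], ?_⟩
      rcases le_total m 0 with h1 | h1
      · exact Or.inl h1
      · right
        have h2 : m ≤ 4 * v := by
          have e1 : 64 ≤ d ^ 2 := by nlinarith
          have e2 : d - d ^ 2 / 8 ≤ 0 := by nlinarith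
          have e3 : (v - 1) * (d - d ^ 2 / 8) ≤ 0 :=
            mul_nonpos_of_nonneg_of_nonpos (by linarith) e2
          rw [hm]
          nlinarith [sq_nonneg (v - 1)]
        have h3 : m ^ 2 ≤ (4 * v) ^ 2 := pow_le_pow_left₀ h1 h2 2
        nlinarith
  obtain ⟨hQ0, hm'⟩ := hkey
  have hr0 : 0 ≤ (v + d) ^ 2 := sq_nonneg _
  have hx3 : 0 ≤ x * (296 / 25) * (v * x - 11 / 50 * (v + d)) ^ 2 := by positivity
  have hmain : 0 ≤ 23 / 100 * (v + d) ^ 4 - x * (v + d) ^ 2 * m + x ^ 2 * Q := by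
    have e4 : (v + d) ^ 4 = ((v + d) ^ 2) ^ 2 := by ring
    rw [e4]
    rcases hm' with h1 | h1
    · have h2 : x * (v + d) ^ 2 * m ≤ 0 :=
        mul_nonpos_of_nonneg_of_nonpos (mul_nonneg hx hr0) h1
      have h3 : 0 ≤ x ^ 2 * Q := mul_nonneg (sq_nonneg x) hQ0
      have h4 : 0 ≤ 23 / 100 * ((v + d) ^ 2) ^ 2 := by positivity
      linarith
    · have h2 : x ^ 2 * m ^ 2 ≤ x ^ 2 * (23 / 25 * Q) :=
        mul_le_mul_of_nonneg_left h1 (sq_nonneg x)
      nlinarith [sq_nonneg (23 / 50 * (v + d) ^ 2 - x * m)]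
  linarith

end Pool.Agent.SU2K
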