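import Pool.Agent.Lib.SU2K.PolyDefs

/-!
# The third polynomial inequality

Put `t = r - 1`, `s = v - r`. Then `FI + (r-1) GG - r⁴/50 = (23/100) r⁴ - x r² M + x² Q + C x³` with
`C = (296/25) v r`. With `κ = 3/20` one has `C x³ = C x (x-κ)² + 2κ C x² - κ² C x`. Let
`Q' = Q + 2κ C`, `N = r M + (κ² 296/25) v`, `B = (2.63 + 3.655 t + 1.625 s) + 0.2664 (1 + s)`. Then `N ≤ r B` and
`B² ≤ (92/100) Q'` (all coefficients in `t, s` are nonnegative), so the quadratic polynomial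
`(23/100) r⁴ - x r N + x² Q'` is nonnegative for `x ≥ 0`.
-/

noncomputable section

namespace Pool.Agent.SU2K

namespace PolyIIIAux

theorem quad {r x N Q' : ℝ} (hr : 0 ≤ r) (hx : 0 ≤ x) (hQ : 0 ≤ Q')
    (h : N ≤ 0 ∨ N ^ 2 ≤ (92 / 100) * r ^ 2 * Q') :
    0 ≤ (23 / 100) * r ^ 4 - x * r * N + x ^ 2 * Q' := by
  have h3 : 0 ≤ (23 / 100) * r ^ 4 := by positivity
  have h2 : 0 ≤ x ^ 2 * Q' := by positivity
  rcases h with h | h
  · have h1 : 0 ≤ x * r * (-N) := mul_nonneg (mul_nonneg hx hr) (by linarith)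
    linarith
  · rcases hQ.eq_or_lt with h0 | h0
    · have h1 : N ^ 2 = 0 := by
        have h4 : N ^ 2 ≤ 0 := by rw [← h0] at h; linarith
        exact le_antisymm h4 (sq_nonneg N)
      have h5 : N = 0 := by simpa using h1
      rw [h5, ← h0]
      linarith
    · have h1 : 0 ≤ Q' * ((23 / 100) * r ^ 4 - x * r * N + x ^ 2 * Q') := by
        have e : Q' * ((23 / 100) * r ^ 4 - x * r * N + x ^ 2 * Q') =
            (Q' * x - r * N / 2) ^ 2 + (r ^ 2 / 4) * ((92 / 100) * r ^ 2 * Q' - N ^ 2) := by ring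
        rw [e]
        have h6 : 0 ≤ (92 / 100) * r ^ 2 * Q' - N ^ 2 := by linarith
        exact add_nonneg (sq_nonneg _) (mul_nonneg (by positivity) h6)
      exact nonneg_of_mul_nonneg_right h1 h0

theorem concl {r x N Q' C B : ℝ} (hr : 0 ≤ r) (hx : 0 ≤ x) (hC : 0 ≤ C) (h2 : N ≤ r * B)
    (h3 : B ^ 2 ≤ (92 / 100) * Q') :
    0 ≤ ((23 / 100) * r ^ 4 - x * r * N + x ^ 2 * Q') + C * x * (x - 3 / 20) ^ 2 := by
  have hQ0 : 0 ≤ Q' := by
    have := sq_nonneg B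
    linarith
  have h4 : N ≤ 0 ∨ N ^ 2 ≤ (92 / 100) * r ^ 2 * Q' := by
    rcases le_or_gt N 0 with h5 | h5
    · exact Or.inl h5
    · right
      calc N ^ 2 ≤ (r * B) ^ 2 := pow_le_pow_left₀ h5.le h2 2
        _ = r ^ 2 * B ^ 2 := by ring
        _ ≤ r ^ 2 * ((92 / 100) * Q') := mul_le_mul_of_nonneg_left h3 (by positivity)
        _ = (92 / 100) * r ^ 2 * Q' := by ring
  have h5 := quad hr hx hQ0 h4
  have h6 : 0 ≤ C * x * (x - 3 / 20) ^ 2 := mul_nonneg (mul_nonneg hC hx) (sq_nonneg _)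
  linarith

/-- the coefficient of `-x r` -/
def NN (t s : ℝ) : ℝ := (1 + t) * (201 / 200 + (1625 / 1000) * (1 + t + s) - s ^ 2 / 2 +
    t * (2125 / 1000 + (1 + t) - (1095 / 1000) * (1 + t + s) - s ^ 2 / 8)) +
    (2664 / 10000) * (1 + t + s)

/-- the leading coefficient -/
def CC (t s : ℝ) : ℝ := (296 / 25) * (1 + t + s) * (1 + t)

/-- the quadratic coefficient -/
def QQ (t s : ℝ) : ℝ := (15839 / 2500) + (8916 / 625) * s + (27839 / 1250) * t +
    (148 / 25) * s ^ 2 + (18616 / 625) * t * s + (49039 / 2500) * t ^ 2 + (148 / 25) * t * s ^ 2 +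
    (48 / 5) * t ^ 2 * s + (92 / 25) * t ^ 3 + (3 / 10) * CC t s

/-- the bound of `N / r` -/
def BB (t s : ℝ) : ℝ :=
  (2630 / 1000 + (3655 / 1000) * t + (1625 / 1000) * s) + (2664 / 10000) * (1 + s)

theorem e1 (t s x : ℝ) :
    FI (1 + t) (1 + t + s) x + (1 + t - 1) * GG (1 + t) (1 + t + s) x - (1 + t) ^ 4 / 50 =
      ((23 / 100) * (1 + t) ^ 4 - x * (1 + t) * NN t s + x ^ 2 * QQ t s) +
        CC t s * x * (x - 3 / 20) ^ 2 := by
  unfold FI GG NN QQ CC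
  ring

theorem e2 (t s : ℝ) : (1 + t) * BB t s - NN t s =
    (1 + t) * (s ^ 2 / 2 + (95 / 1000) * t ^ 2 + (1095 / 1000) * t * s + t * s ^ 2 / 8) +
      (2664 / 10000) * (t * s) := by
  unfold BB NN
  ring

theorem e3 (t s : ℝ) : (92 / 100) * QQ t s - BB t s ^ 2 =
    (4421619 / 6250000) + (33973063 / 6250000) * s +
        (2341 / 400) * t + (46725151 / 25000000) * s ^ 2 + (8422229 / 500000) * t * s +
        (7955167 / 1000000) * t ^ 2 + (3404 / 625) * t * s ^ 2 + (1104 / 125) * t ^ 2 * s +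
        (2116 / 625) * t ^ 3 := by
  unfold QQ CC BB
  ring

end PolyIIIAux

open PolyIIIAux

theorem polyIII {r v x : ℝ} (hr : 1 ≤ r) (hv : 1 ≤ v) (hx : 0 ≤ x)
    (h : (v - r) ^ 2 ≤ (81 / 25) * v) (hvr : r ≤ v) :
    r ^ 4 / 50 ≤ FI r v x + (r - 1) * GG r v x := by
  obtain ⟨t, rfl⟩ : ∃ t, r = 1 + t := ⟨r - 1, by ring⟩
  obtain ⟨s, rfl⟩ : ∃ s, v = 1 + t + s := ⟨v - (1 + t), by ring⟩
  have ht : 0 ≤ t := by linarith
  have hs : 0 ≤ s := by linarith
  have hC0 : 0 ≤ CC t s := by unfold CC; positivity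
  have h2 : NN t s ≤ (1 + t) * BB t s := by
    have h3 : 0 ≤ (1 + t) * BB t s - NN t s := by rw [e2]; positivity
    linarith
  have h3 : BB t s ^ 2 ≤ (92 / 100) * QQ t s := by
    have h4 : 0 ≤ (92 / 100) * QQ t s - BB t s ^ 2 := by rw [e3]; positivity
    linarith
  have h5 := concl (by linarith : (0 : ℝ) ≤ 1 + t) hx hC0 h2 h3
  have h6 := e1 t s x
  linarith

end Pool.Agent.SU2K
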