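import Pool.Agent.Lib.SU2K.PolyI
import Pool.Agent.Lib.SU2K.PolyII
import Pool.Agent.Lib.SU2K.PolyIII

/-!
# The real inequality

Proof sketch.  `S = c1 + c2`, `D = c1 c2 = r²` (`r = √D ≥ 1`), `w = (v-c1)(c2-v) = -v² + S v - D ≥ 0`,
`k0 = ((1+S)/2)² - (S + D) = (S-1)²/4 - D`.  The left side is
`PD := D²/4 + x D [-(201/200)(a+v) + ½(2v - w + (a-1)(3v + a - S)) - (a-1) w/8]
  + x² [-(201/100) D + a v ((148/25)(a+v) - k0)] + (296/25) x³ a v`
(expand `w` and compare).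
1. `PD` is decreasing in `S` (for `S ≥ 1`, everything else fixed: `w` increases, `-(a-1)S/2`
   decreases, `k0` increases), and `S ≤ 81/25 + 2r`, so replace `S` by `81/25 + 2r`; then
   `w` becomes `w₁ = (81/25) v - (v-r)²` (so `w₁ ≥ w ≥ 0`) and `k0` becomes `784/625 + (56/25) r`.
2. Put `δ = a - 1 ≥ 0`; the result is `FI r v x + δ (GG r v x + δ(½ x r² + (148/25) x² v))
   ≥ FI + δ GG`.
3. `δ ≤ min (v-1) (r-1)` (`a ≤ c1 ≤ v` and `a² ≤ c1² ≤ c1 c2 = r²`); `FI + δ GG` is affine in `δ`,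
   so it is at least the minimum of its values at `δ = 0` (`polyI`) and at `δ = min (v-1) (r-1)`
   (`polyII` if `v ≤ r`, `polyIII` if `r ≤ v`).
-/

noncomputable section

namespace Pool.Agent.SU2K

theorem comb {a v c1 c2 x : ℝ} (ha : 1 ≤ a) (hac : a ≤ c1) (hcv : c1 ≤ v) (hvc : v ≤ c2)
    (hx : 0 ≤ x) (hS : c1 + c2 ≤ 81 / 25 + 2 * √(c1 * c2)) :
    (c1 * c2) ^ 2 / 50 ≤ (c1 * c2) ^ 2 / 4
      + x * (c1 * c2) * (-(201 / 200) * (a + v)
        + (2 * v - (v - c1) * (c2 - v) + (a - 1) * (3 * v + a - (c1 + c2))) / 2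
        - (a - 1) * ((v - c1) * (c2 - v)) / 8)
      + x ^ 2 * (-(201 / 100) * (c1 * c2)
        + a * v * ((148 / 25) * (a + v) - ((1 + c1 + c2) ^ 2 / 4 - (c1 + c2 + c1 * c2))))
      + (296 / 25) * x ^ 3 * (a * v) := by
  have hc1 : 1 ≤ c1 := le_trans ha hac
  have hv : 1 ≤ v := le_trans hc1 hcv
  have hc2 : 1 ≤ c2 := le_trans hv hvc
  have hD1 : 1 ≤ c1 * c2 := one_le_mul_of_one_le_of_one_le hc1 hc2
  set r : ℝ := √(c1 * c2) with hrdef
  have hr2 : r ^ 2 = c1 * c2 := Real.sq_sqrt (by linarith)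
  have hr0 : 0 ≤ r := Real.sqrt_nonneg _
  have hr1 : 1 ≤ r := by
    by_contra hh
    push Not at hh
    have h1 : r ^ 2 < 1 := by
      have := mul_lt_mul'' hh hh hr0 hr0
      rw [sq]
      linarith
    linarith
  have har : a ≤ r := by
    have h1 : a ^ 2 ≤ r ^ 2 := by
      rw [hr2, sq]
      exact mul_le_mul hac (by linarith) (by linarith) (by linarith)
    exact le_of_sq_le_sq h1 hr0
  obtain ⟨S, hSdef⟩ : ∃ S, S = c1 + c2 := ⟨_, rfl⟩
  have hw0 : 0 ≤ (v - c1) * (c2 - v) := mul_nonneg (by linarith) (by linarith)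
  have hw : (v - c1) * (c2 - v) = -v ^ 2 + S * v - r ^ 2 := by
    rw [hr2, hSdef]; ring
  have hSle : S ≤ 81 / 25 + 2 * r := by rw [hSdef]; exact hS
  have hS1 : 1 ≤ S := by rw [hSdef]; linarith
  have hw1 : -v ^ 2 + S * v - r ^ 2 ≤ (81 / 25) * v - (v - r) ^ 2 := by
    have h1 := mul_le_mul_of_nonneg_right hSle (by linarith : (0 : ℝ) ≤ v)
    have h2 : (v - r) ^ 2 = v ^ 2 - 2 * r * v + r ^ 2 := by ring
    linarith
  have hreg : (v - r) ^ 2 ≤ (81 / 25) * v := by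
    rw [hw] at hw0
    linarith
  -- the first step
  have e1 : x * r ^ 2 * (-(201 / 200) * (a + v)
        + (2 * v - ((81 / 25) * v - (v - r) ^ 2) + (a - 1) * (3 * v + a - (81 / 25 + 2 * r))) / 2
        - (a - 1) * ((81 / 25) * v - (v - r) ^ 2) / 8)
      ≤ x * r ^ 2 * (-(201 / 200) * (a + v)
        + (2 * v - (-v ^ 2 + S * v - r ^ 2) + (a - 1) * (3 * v + a - S)) / 2
        - (a - 1) * (-v ^ 2 + S * v - r ^ 2) / 8) := by
    apply mul_le_mul_of_nonneg_left _ (by positivity)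
    have ha0 : 0 ≤ a - 1 := by linarith
    have t1 := mul_le_mul_of_nonneg_left hSle ha0
    have t2 := mul_le_mul_of_nonneg_left hw1 ha0
    linarith
  have e2 : x ^ 2 * (-(201 / 100) * r ^ 2
        + a * v * ((148 / 25) * (a + v) - (784 / 625 + (56 / 25) * r)))
      ≤ x ^ 2 * (-(201 / 100) * r ^ 2
        + a * v * ((148 / 25) * (a + v) - ((1 + S) ^ 2 / 4 - (S + r ^ 2)))) := by
    apply mul_le_mul_of_nonneg_left _ (by positivity)
    have hav : 0 ≤ a * v := mul_nonneg (by linarith) (by linarith)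
    have hk : (1 + S) ^ 2 / 4 - (S + r ^ 2) ≤ 784 / 625 + (56 / 25) * r := by
      have h1 : (S - 1) ^ 2 ≤ (56 / 25 + 2 * r) ^ 2 :=
        pow_le_pow_left₀ (by linarith) (by linarith) 2
      have h2 : (S - 1) ^ 2 = S ^ 2 - 2 * S + 1 := by ring
      have h3 : (1 + S) ^ 2 = S ^ 2 + 2 * S + 1 := by ring
      have h4 : (56 / 25 + 2 * r) ^ 2 = (56 / 25) ^ 2 + 2 * (56 / 25) * 2 * r + 4 * r ^ 2 := by ring
      linarith
    have := mul_le_mul_of_nonneg_left hk hav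
    linarith
  -- the second step
  have e3 : r ^ 4 / 4
      + x * r ^ 2 * (-(201 / 200) * (a + v)
        + (2 * v - ((81 / 25) * v - (v - r) ^ 2) + (a - 1) * (3 * v + a - (81 / 25 + 2 * r))) / 2
        - (a - 1) * ((81 / 25) * v - (v - r) ^ 2) / 8)
      + x ^ 2 * (-(201 / 100) * r ^ 2
        + a * v * ((148 / 25) * (a + v) - (784 / 625 + (56 / 25) * r)))
      + (296 / 25) * x ^ 3 * (a * v)
      = FI r v x + (a - 1) * GG r v x
        + (a - 1) ^ 2 * (x * r ^ 2 / 2 + (148 / 25) * x ^ 2 * v) := by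
    unfold FI GG
    ring
  have e4 : r ^ 4 / 50 ≤ FI r v x + (a - 1) * GG r v x := by
    have hI := polyI hr1 hv hx hreg
    have ha0 : 0 ≤ a - 1 := by linarith
    rcases le_total 0 (GG r v x) with hG | hG
    · have := mul_nonneg ha0 hG
      linarith
    · rcases le_total v r with hvr | hvr
      · have hII := polyII hr1 hv hx hreg hvr
        have : (v - 1) * GG r v x ≤ (a - 1) * GG r v x :=
          mul_le_mul_of_nonpos_right (by linarith) hG
        linarith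
      · have hIII := polyIII hr1 hv hx hreg hvr
        have : (r - 1) * GG r v x ≤ (a - 1) * GG r v x :=
          mul_le_mul_of_nonpos_right (by linarith) hG
        linarith
  have e5 : 0 ≤ (a - 1) ^ 2 * (x * r ^ 2 / 2 + (148 / 25) * x ^ 2 * v) := by positivity
  have e6 : (c1 * c2) ^ 2 = r ^ 4 := by rw [← hr2]; ring
  have e7 : (1 + c1 + c2) = 1 + S := by rw [hSdef]; ring
  rw [e6, e7, hw, ← hr2, ← hSdef]
  linarith

end Pool.Agent.SU2K
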