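import Pool.Agent.Lib.SU2K.Ell
import Pool.Agent.Lib.SU2K.Comb

/-!
# The criterion for `c₁ + c₂ ≤ 81/25 c₀ + 2 √(c₁ c₂)`

Proof sketch (`c 0 = 1`; write `D = c 1 * c 2`, `u = uu P = 2 P.m`, `T = TT P = (a+v)/2`, `h = h3 P`,
`a v u = D`).  Take `t = 501/1000`, `κ = 0`, `b = 1/16` in `Good2`, `x = p/16`.
Since `t² ≤ 201/800` and `1 - t² ≥ 37/50 + 4/500`,
and `P.Gm/(4 P.m + p/8) ≤ P.Gm/(4 P.m)` (`P.Gm ≥ 0`), the right side of the criterion is at least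
`E₀ + x² · 16 · (4/500)` with
`E₀ = P.m P.q + P.Dm/2 - P.Gm/(4 P.m) + x (P.q + P.K) - (201/50) x P.m + 16·(37/50) x²`
(`p·t² m = 16 x t² m ≤ 16·(201/800) x m`, `b(1-t²)p² = 16 (1-t²) x²`).
`pt_identity`:
`(T+x) E₀ ≥ Φ₀ + H² A - 2 x H h`, `A = a v + 4xT + 3x²` (`D/u = a v`),
`Φ₀ = u D/4 + x D/2 + ½ x u (E₂ - 2σ(a+v) + (a+v)²) + x²(E₂ - σ²) - (T+x) x (201/50) u/2
   + 16·(37/50) x² (T+x)`, `E₂ = c1 + c2 + D`, `2σ = 1 + c1 + c2`.
Then `H² A - 2xHh ≥ -x² h²/A` and, by `ell`, with `w = (v-c1)(c2-v)`,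
`4 a v h² = (a-1)(c1-a)(c2-a)(v-1) w ≤ (a-1) D (a+v) w` (`(c1-a)(c2-a) ≤ c1 c2 = D`,
`v - 1 ≤ a + v`), and `A ≥ 4xT = 2x(a+v)`, so `x² h² a v / A ≤ x (a-1) D w / 8` (for `x = 0` trivial;
`A ≥ a v > 0`).  Multiplying by `a v = D/u`:
`(a v)(T+x) E₀ · D ≥ D · [the right side of comb]/1 ...`: precisely
`(a v) Φ₀ = D Ψ` and `D (D Ψ - x (a-1) D w/8) = D · (right side of comb)`, i.e.
`(a v)(T+x) E₀ ≥ right side of comb ≥ D²/50`... (check: `(a v) Φ₀ - x (a-1) D w/8` equals the right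
side of `comb`, using `a v u = D`; e.g. `a v u D/4 = D²/4`.)
Hence `E₀ ≥ D²/(50 a v (T+x)) ≥ 1/(50 (c 2 + x))` (`a v ≤ D`, `D ≥ 1`, `T ≤ c 2`).
So the right side of the criterion is `≥ 1/(50(c2 + x)) + (16/125) x² ≥ ε (1 + p²)` for
`ε = min (1/(100 (c2+1))) ...` small (distinguish `x ≤ 1` and `x ≥ 1`), and `ε ≤ P.m` holds if
`ε ≤ 1/2`.
-/

noncomputable section

namespace Pool.Agent.SU2K

open Pool.Agent.SU2H

namespace GoodRatioAux

theorem step1 {a v c1 c2 x h A H : ℝ} (ha : 1 ≤ a) (hac : a ≤ c1) (hcv : c1 ≤ v) (hvc : v ≤ c2)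
    (hx : 0 ≤ x) (hA : A = a * v + 2 * x * (a + v) + 3 * x ^ 2)
    (h4 : 4 * (a * v) * h ^ 2 =
      (a - 1) * (c1 - a) * (c2 - a) * ((v - 1) * (v - c1) * (c2 - v))) :
    -(x * (a - 1) * (c1 * c2) * ((v - c1) * (c2 - v)) / 8) ≤
      (a * v) * (H ^ 2 * A - 2 * x * H * h) := by
  have hv : 1 ≤ v := by linarith
  have hc1 : 1 ≤ c1 := by linarith
  have hc2 : 1 ≤ c2 := by linarith
  have hav : 0 < a * v := by positivity
  have hA0 : 0 < A := by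
    rw [hA]
    positivity
  have hW : 0 ≤ (v - c1) * (c2 - v) := mul_nonneg (by linarith) (by linarith)
  have hD : 0 ≤ c1 * c2 := by positivity
  have e1 : (c1 - a) * (c2 - a) ≤ c1 * c2 :=
    mul_le_mul (by linarith) (by linarith) (by linarith) (by linarith)
  have e2 : (c1 - a) * (c2 - a) * (v - 1) ≤ c1 * c2 * (a + v) :=
    mul_le_mul e1 (by linarith) (by linarith) hD
  have e3 : (a - 1) * ((v - c1) * (c2 - v)) * ((c1 - a) * (c2 - a) * (v - 1)) ≤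
      (a - 1) * ((v - c1) * (c2 - v)) * (c1 * c2 * (a + v)) :=
    mul_le_mul_of_nonneg_left e2 (mul_nonneg (by linarith) hW)
  have k1 : (a * v) * h ^ 2 ≤ (a - 1) * (c1 * c2) * (a + v) * ((v - c1) * (c2 - v)) / 4 := by
    linarith
  have k2 : x ^ 2 * ((a * v) * h ^ 2) ≤
      x * (a - 1) * (c1 * c2) * ((v - c1) * (c2 - v)) / 8 * A := by
    have f1 := mul_le_mul_of_nonneg_left k1 (sq_nonneg x)
    have f2 : 0 ≤ x * (a - 1) * (c1 * c2) * ((v - c1) * (c2 - v)) / 8 := by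
      have : 0 ≤ a - 1 := by linarith
      positivity
    have f3 : 2 * x * (a + v) ≤ A := by
      rw [hA]
      nlinarith [sq_nonneg x]
    have f4 := mul_le_mul_of_nonneg_left f3 f2
    linarith
  have k3 : -(x * (a - 1) * (c1 * c2) * ((v - c1) * (c2 - v)) / 8) * A ≤
      (a * v) * (H ^ 2 * A - 2 * x * H * h) * A := by
    have g1 : 0 ≤ (a * v) * (H * A - x * h) ^ 2 := by positivity
    linarith
  exact le_of_mul_le_mul_right k3 hA0

theorem step2 {a v c1 c2 x u T h H Q s1 s2 : ℝ} (ha : 1 ≤ a) (hac : a ≤ c1) (hcv : c1 ≤ v)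
    (hvc : v ≤ c2) (hx : 0 ≤ x) (hS : c1 + c2 ≤ 81 / 25 + 2 * √(c1 * c2)) (hu : 1 ≤ u)
    (hT : T = (a + v) / 2) (hau : a * v * u = c1 * c2)
    (h4 : 4 * (a * v) * h ^ 2 =
      (a - 1) * (c1 - a) * (c2 - a) * ((v - 1) * (v - c1) * (c2 - v)))
    (hid : (T + x) * Q = s1 ^ 2 + s2 ^ 2
      + (u * (1 * c1 * c2) / 4 + x * (1 * c1 * c2) / 2
        + x * u / 2 * ((1 * c1 + 1 * c2 + c1 * c2)
          - 2 * ((1 + c1 + c2) / 2) * (2 * T) + (2 * T) ^ 2)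
        + x ^ 2 * ((1 * c1 + 1 * c2 + c1 * c2) - ((1 + c1 + c2) / 2) ^ 2))
      + H ^ 2 * (1 * c1 * c2 / u + 4 * x * T + 3 * x ^ 2) - 2 * x * H * h) :
    1 / 50 ≤ (c2 + x) * (Q - 201 / 50 * x * (u / 2) + 296 / 25 * x ^ 2) := by
  have hu0 : 0 < u := by linarith
  have hv : 1 ≤ v := by linarith
  have hc1 : 1 ≤ c1 := by linarith
  have hc2 : 1 ≤ c2 := by linarith
  have hav : 0 < a * v := by positivity
  have hdu : 1 * c1 * c2 / u = a * v := by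
    rw [div_eq_iff hu0.ne']
    linarith
  have k1 := step1 (H := H) ha hac hcv hvc hx rfl h4
  have k2 := comb ha hac hcv hvc hx hS
  rw [hdu] at hid
  subst hT
  obtain ⟨E, hE⟩ : ∃ E : ℝ, E = Q - 201 / 50 * x * (u / 2) + 296 / 25 * x ^ 2 := ⟨_, rfl⟩
  rw [← hE]
  have hQ : Q = E + 201 / 50 * x * (u / 2) - 296 / 25 * x ^ 2 := by rw [hE]; ring
  subst hQ
  have g1 : 0 ≤ (a * v) * (s1 ^ 2 + s2 ^ 2) := by positivity
  have k3 : (c1 * c2) ^ 2 / 50 ≤ (a * v) * (((a + v) / 2 + x) * E) := by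
    have hau' : c1 * c2 = a * v * u := hau.symm
    have e1 : (a * v) * (((a + v) / 2 + x) * E) =
      (a * v) * (((a + v) / 2 + x) * (E + 201 / 50 * x * (u / 2) - 296 / 25 * x ^ 2))
      - (201 / 100) * x * (a * v * u) * ((a + v) / 2 + x)
      + (296 / 25) * x ^ 2 * (a * v) * ((a + v) / 2 + x) := by ring
    rw [e1, hid, hau]
    have e2 : (a * v) * (u * (1 * c1 * c2) / 4) = (c1 * c2) ^ 2 / 4 := by
      linear_combination (c1 * c2) / 4 * hau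
    have e3 : (a * v) * (x * u / 2 * ((1 * c1 + 1 * c2 + c1 * c2)
          - 2 * ((1 + c1 + c2) / 2) * (2 * ((a + v) / 2)) + (2 * ((a + v) / 2)) ^ 2)) =
        x * (c1 * c2) / 2 * ((1 * c1 + 1 * c2 + c1 * c2)
          - 2 * ((1 + c1 + c2) / 2) * (2 * ((a + v) / 2)) + (2 * ((a + v) / 2)) ^ 2) := by
      linear_combination x / 2 * ((1 * c1 + 1 * c2 + c1 * c2)
          - 2 * ((1 + c1 + c2) / 2) * (2 * ((a + v) / 2)) + (2 * ((a + v) / 2)) ^ 2) * hau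
    linarith
  -- positivity of `E`
  have hD : 1 ≤ c1 * c2 := by nlinarith
  have hD2 : 0 < (c1 * c2) ^ 2 / 50 := by positivity
  have hTx : 0 < (a + v) / 2 + x := by positivity
  have hE0 : 0 ≤ E := by
    by_contra hneg
    push Not at hneg
    have : (a * v) * (((a + v) / 2 + x) * E) ≤ 0 :=
      mul_nonpos_of_nonneg_of_nonpos hav.le
        (mul_nonpos_of_nonneg_of_nonpos hTx.le hneg.le)
    linarith
  have hTE : 0 ≤ ((a + v) / 2 + x) * E := mul_nonneg hTx.le hE0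
  have hle : a * v ≤ c1 * c2 := by
    rw [← hau]
    nlinarith
  have k4 : (c1 * c2) ^ 2 / 50 ≤ (c1 * c2) * (((a + v) / 2 + x) * E) :=
    k3.trans (mul_le_mul_of_nonneg_right hle hTE)
  have k5 : (c1 * c2) / 50 ≤ ((a + v) / 2 + x) * E := by
    have hD0 : 0 < c1 * c2 := by linarith
    refine le_of_mul_le_mul_left ?_ hD0
    linarith
  have k6 : ((a + v) / 2 + x) * E ≤ (c2 + x) * E :=
    mul_le_mul_of_nonneg_right (by linarith) hE0
  linarith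

theorem step3 {C x E : ℝ} (hC : 1 ≤ C) (hx : 0 ≤ x) (hE : 1 / 50 ≤ (C + x) * E) :
    1 / (2000 * (C + 1)) * (1 + (16 * x) ^ 2) ≤ E + 16 / 125 * x ^ 2 := by
  have hE0 : 0 < E := by
    by_contra hneg
    push Not at hneg
    have : (C + x) * E ≤ 0 := mul_nonpos_of_nonneg_of_nonpos (by linarith) hneg
    linarith
  have hε : 1 / (2000 * (C + 1)) ≤ 1 / 4000 :=
    one_div_le_one_div_of_le (by norm_num) (by linarith)
  rcases le_total x 1 with h1 | h1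
  · have h2 : 1 / (2000 * (C + 1)) ≤ E := by
      rw [div_le_iff₀ (by linarith)]
      nlinarith
    nlinarith [sq_nonneg x]
  · have h2 : 1 ≤ x ^ 2 := by nlinarith
    nlinarith [sq_nonneg x]

end GoodRatioAux

open GoodRatioAux

theorem good2_ratio {c : Fin 3 → ℝ} (H : ℝ) (h0 : c 0 = 1) (h1 : 1 ≤ c 1) (h2 : c 1 ≤ c 2)
    (hS : c 1 + c 2 ≤ 81 / 25 + 2 * √(c 1 * c 2)) : Good2 c H := by
  refine ⟨501 / 1000, 0, 1 / 16, 1 / (2000 * (c 2 + 1)), by norm_num, by norm_num, by norm_num,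
    by have : 0 < c 2 + 1 := by linarith
       positivity, fun P => ?_⟩
  obtain ⟨a, v, ha, hac, hcv, hvc, hT, hau, hu1, huc, h4⟩ := ell P h0 h1 h2
  have hm : P.m = uu P / 2 := rfl
  have hε : 1 / (2000 * (c 2 + 1)) ≤ 1 / 4000 :=
    one_div_le_one_div_of_le (by norm_num) (by linarith)
  refine ⟨by linarith, fun p hp => ?_⟩
  have hx : 0 ≤ p / 16 := by positivity
  obtain ⟨s1, s2, hid⟩ := pt_identity P (by linarith) (p / 16)
  rw [h0] at hid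
  have k1 := step2 ha hac hcv hvc hx hS hu1 hT hau h4 hid
  have k2 := step3 (by linarith) hx k1
  have hm0 : 0 < 4 * P.m := by linarith
  have hG : 0 ≤ P.Gm := by
    unfold PtData.Gm
    positivity
  have k3 : P.Gm / (4 * (P.m + 0) + 2 * (1 / 16) * p) ≤ P.Gm / (4 * P.m) :=
    div_le_div_of_nonneg_left hG hm0 (by linarith)
  have e1 : 16 * (p / 16) = p := by ring
  rw [e1] at k2
  refine k2.trans ?_
  have k4 : 0 ≤ p * (uu P) := mul_nonneg hp (by linarith)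
  rw [hm] at k3 ⊢
  nlinarith [sq_nonneg p]

end Pool.Agent.SU2K
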