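import Pool.Agent.Lib.SU2K.Defs

/-!
# Scaling

Proof sketch.  From `P : PtData (a c) (a H)` one gets `P' : PtData c H` with the same frame and
`B'ᵢⱼ = Bᵢⱼ / a`; then `P.m = a P'.m`, `P.q = a² P'.q`, `P.K = a² P'.K`, `P.Dm = a³ P'.Dm`,
`P.Gm = a⁴ P'.Gm`.  From `(t, κ, b, ε)` for `c, H` take `(t, aκ, b/a, ε')`, and `p = a² p'`:
the right side of the criterion scales like `a³`, and
`a³ ε (1 + p'²) = a³ ε (1 + p²/a⁴) ≥ ε' (1 + p²)` for `ε' = ε min(a, a³, 1/a)` (which is also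
`≤ a ε`).
-/

noncomputable section

namespace Pool.Agent.SU2K

open Pool.Agent.SU2H

namespace ScaleAux

theorem cq_smul (c : Fin 3 → ℝ) (a : ℝ) (x y : Fin 3 → ℝ) :
    cq (fun i => a * c i) x y = a * cq c x y := by
  simp only [cq, Fin.sum_univ_three]
  ring

/-- the scaled data -/
def scl {c : Fin 3 → ℝ} {H a : ℝ} (ha : 0 < a) (P : PtData (fun i => a * c i) (a * H)) : PtData c H where
  e1 := P.e1
  e2 := P.e2
  n := P.n
  B11 := P.B11 / a
  B12 := P.B12 / a
  B21 := P.B21 / a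
  B22 := P.B22 / a
  o11 := P.o11
  o22 := P.o22
  o33 := P.o33
  o12 := P.o12
  o13 := P.o13
  o23 := P.o23
  tr := by
    have h := P.tr
    field_simp
    linarith
  skew := by
    have h := P.skew
    rw [cq_smul] at h
    field_simp
    linarith

variable {c : Fin 3 → ℝ} {H a : ℝ} (ha : 0 < a) (P : PtData (fun i => a * c i) (a * H))

theorem m_eq : P.m = a * (scl ha P).m := by
  unfold PtData.m
  rw [cq_smul]
  show a * cq c P.n P.n / 2 = a * (cq c P.n P.n / 2)
  ring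

theorem q_eq : P.q = a ^ 2 * (scl ha P).q := by
  unfold PtData.q
  simp only [cq_smul, scl]
  field_simp

theorem K_eq : P.K = a ^ 2 * (scl ha P).K := by
  unfold PtData.K
  simp only [cq_smul, scl]
  field_simp

theorem Gm_eq : P.Gm = a ^ 4 * (scl ha P).Gm := by
  unfold PtData.Gm
  simp only [cq_smul, scl]
  field_simp

theorem Dm_eq : P.Dm = a ^ 3 * (scl ha P).Dm := by
  unfold PtData.Dm
  simp only [cq_smul, scl]
  field_simp

end ScaleAux

open ScaleAux in
theorem good2_smul {c : Fin 3 → ℝ} {H a : ℝ} (ha : 0 < a) (h : Good2 c H) :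
    Good2 (fun i => a * c i) (a * H) := by
  obtain ⟨t, κ, b, ε, ht, ht1, hb, hε, h⟩ := h
  refine ⟨t, a * κ, b / a, ε * min a (min (a ^ 3) (1 / a)), ht, ht1, by positivity, by positivity, fun P => ?_⟩
  obtain ⟨h1, h2⟩ := h (scl ha P)
  have e1 : ε * min a (min (a ^ 3) (1 / a)) ≤ ε * a := mul_le_mul_of_nonneg_left (min_le_left _ _) hε.le
  have e2 : ε * min a (min (a ^ 3) (1 / a)) ≤ ε * a ^ 3 :=
    mul_le_mul_of_nonneg_left ((min_le_right _ _).trans (min_le_left _ _)) hε.le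
  have e3 : ε * min a (min (a ^ 3) (1 / a)) ≤ ε * (1 / a) :=
    mul_le_mul_of_nonneg_left ((min_le_right _ _).trans (min_le_right _ _)) hε.le
  rw [m_eq ha P, q_eq ha P, K_eq ha P, Gm_eq ha P, Dm_eq ha P]
  set m := (scl ha P).m
  set q := (scl ha P).q
  set K := (scl ha P).K
  set G := (scl ha P).Gm
  set Δ := (scl ha P).Dm
  refine ⟨?_, fun p hp => ?_⟩
  · nlinarith [mul_le_mul_of_nonneg_left h1 ha.le]
  · have h3 := h2 (p / a ^ 2) (by positivity)
    have h4 := mul_le_mul_of_nonneg_left h3 (show 0 ≤ a ^ 3 by positivity)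
    have hD : 0 < 4 * (m + κ) + 2 * b * (p / a ^ 2) := by
      have : 0 ≤ 2 * b * (p / a ^ 2) := by positivity
      linarith
    have h5 : a ^ 4 * G / (4 * (a * m + a * κ) + 2 * (b / a) * p) =
        a ^ 3 * (G / (4 * (m + κ) + 2 * b * (p / a ^ 2))) := by
      have h6 : 4 * (a * m + a * κ) + 2 * (b / a) * p = a * (4 * (m + κ) + 2 * b * (p / a ^ 2)) := by
        field_simp
      rw [h6]
      field_simp
    rw [h5]
    have h7 : ε * min a (min (a ^ 3) (1 / a)) * (1 + p ^ 2) ≤ a ^ 3 * (ε * (1 + (p / a ^ 2) ^ 2)) := by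
      have h8 : a ^ 3 * (ε * (1 + (p / a ^ 2) ^ 2)) = ε * a ^ 3 + ε * (1 / a) * p ^ 2 := by
        field_simp
      rw [h8]
      nlinarith [mul_le_mul_of_nonneg_right e3 (sq_nonneg p)]
    refine h7.trans (h4.trans (le_of_eq ?_))
    set X := G / (4 * (m + κ) + 2 * b * (p / a ^ 2))
    field_simp

end Pool.Agent.SU2K
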