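import Pool.Agent.Lib.SU2K.DiscHyp
import Pool.Agent.Lib.SU2K.Scale
import Pool.Agent.Lib.SU2K.GoodRatio
import Pool.Agent.Lib.SU2H.OpenSet

/-!
# The axis ratio theorem

Proof sketch.  `c = sc ℓ`, `c i / c 0 = ℓ i² / ℓ 0²`.  `c = a • c'` with `a = c 0`, `c' 0 = 1`,
`c' i = (ℓ i/ℓ 0)²`; `√(c' 1 c' 2) = ℓ 1 ℓ 2/ℓ 0²`, and
`c' 1 + c' 2 - 2 √(c' 1 c' 2) = ((ℓ 2 - ℓ 1)/ℓ 0)² ≤ (9/5)²`.  Use `good2_ratio` (with `H / a`),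
`good2_smul`, `noStable_of_good2`.
-/

noncomputable section

namespace Pool.Agent.SU2K

open Pool.Agent.SU2H

theorem noStable_axis {ℓ : Fin 3 → ℝ} (hℓ : ∀ i, 0 < ℓ i) (h01 : ℓ 0 ≤ ℓ 1) (h12 : ℓ 1 ≤ ℓ 2)
    (h : ℓ 2 ≤ ℓ 1 + 9 / 5 * ℓ 0) (H : ℝ) : NoStable ℓ H := by
  have h0 : 0 < ℓ 0 := hℓ 0
  have h1 : 0 < ℓ 1 := hℓ 1
  have h2 : 0 < ℓ 2 := hℓ 2
  obtain ⟨c, hc⟩ : ∃ c : Fin 3 → ℝ, c = fun i => (ℓ i / ℓ 0) ^ 2 := ⟨_, rfl⟩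
  obtain ⟨a, ha⟩ : ∃ a : ℝ, a = sc ℓ 0 := ⟨_, rfl⟩
  have ha0 : 0 < a := by
    rw [ha]
    unfold sc
    positivity
  obtain ⟨r, hr⟩ : ∃ r : ℝ, r = ℓ 1 / ℓ 0 := ⟨_, rfl⟩
  obtain ⟨q, hq⟩ : ∃ q : ℝ, q = ℓ 2 / ℓ 0 := ⟨_, rfl⟩
  have hr1 : 1 ≤ r := by
    rw [hr, le_div_iff₀ h0, one_mul]
    exact h01
  have hrq : r ≤ q := by
    rw [hr, hq]
    exact div_le_div_of_nonneg_right h12 h0.le
  have hqr : q ≤ r + 9 / 5 := by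
    rw [hr, hq, div_add' _ _ _ h0.ne']
    exact div_le_div_of_nonneg_right h h0.le
  have c0 : c 0 = 1 := by
    rw [hc]
    show (ℓ 0 / ℓ 0) ^ 2 = 1
    rw [div_self h0.ne', one_pow]
  have c1 : c 1 = r ^ 2 := by rw [hc, hr]
  have c2 : c 2 = q ^ 2 := by rw [hc, hq]
  have hG : Good2 c (H / a) := by
    apply good2_ratio (H / a) c0
    · rw [c1]
      nlinarith
    · rw [c1, c2]
      nlinarith
    · rw [c1, c2]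
      have e : √(r ^ 2 * q ^ 2) = r * q := by
        rw [← mul_pow]
        exact Real.sqrt_sq (by nlinarith)
      rw [e]
      nlinarith
  have hS := good2_smul ha0 hG
  have e1 : (fun i => a * c i) = sc ℓ := by
    funext i
    rw [ha, hc]
    unfold sc
    field_simp
  have e2 : a * (H / a) = H := by
    field_simp
  rw [e1, e2] at hS
  exact noStable_of_good2 hℓ hS

end Pool.Agent.SU2K
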