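import Pool.Agent.Lib.SU2H.Main

/-! # Definitions for the second pointwise criterion -/

noncomputable section

namespace Pool.Agent.SU2K

open Pool.Agent.SU2H

/-- `1 - |z|²` -/
def yy (z : ℂ) : ℝ := 1 - ‖z‖ ^ 2

/-- the squared gradient -/
def gr2 (f : ℂ → ℝ) (z : ℂ) : ℝ := (fderiv ℝ f z 1) ^ 2 + (fderiv ℝ f z Complex.I) ^ 2

/-- the quotient of the hyperbolic metric of the disc and of the metric `lm |dz|²` -/
def pp (lm : ℂ → ℝ) (z : ℂ) : ℝ := 4 / (yy z ^ 2 * lm z)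

/-- The second pointwise criterion. -/
def Good2 (c : Fin 3 → ℝ) (H : ℝ) : Prop :=
  ∃ t κ b ε : ℝ, 1 / 2 < t ∧ t < 1 ∧ 0 < b ∧ 0 < ε ∧ ∀ P : PtData c H, ε ≤ P.m + κ ∧
    ∀ p : ℝ, 0 ≤ p → ε * (1 + p ^ 2) ≤ (P.m + κ) * P.q + P.Dm / 2
      - P.Gm / (4 * (P.m + κ) + 2 * b * p)
      + p * (b * (P.q + P.K) - t ^ 2 * (P.m + κ)) + b * (1 - t ^ 2) * p ^ 2

end Pool.Agent.SU2K
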