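import Pool.Agent.Lib.SU2K.IntYY

/-!
# The second integral estimate

Everything is on the unit disc `D`, `y = yy = 1 - |z|²`, `p = pp lm = 4 / (y² lm)`.
Proof sketch.  Put `V = ½∇N - N∇v` and `F = y^(2t) V` (`C¹` on `D`, where `0 < y ≤ 1`).  Since
`|∇y|² = 4|z|² = 4(1-y)`,
`div F = y^(2t) (Θ + |V|²/N + 2t V·∇y/y) = y^(2t) (Θ - t² N |∇y|²/y² + |W|²)` with
`W = V/√N + t √N ∇y/y` and `Θ = ½ lap N - N (lap v + |∇v|²) - |∇N|²/(4N)`; by hypothesis
`Θ - 4t²(1-y) N/y² ≥ ε lm (1+p²)`.  (To avoid square roots: `|V|²/N + 2t V·∇y/y + t² N|∇y|²/y² =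
|V + t N ∇y / y|²/N`.)  For the cut-off `η` of `exists_cutoff` with `w = √lm`, radius `R`
(`|∂_a η| ≤ w/R`), `DiscPDEAux.ibp` (with `F₁`, `F₂`) gives
`∫ η² div F = -∫ 2 η F·∇η = -∫ 2 η y^(2t) V·∇η`, and with `V = (V + tN∇y/y) - tN∇y/y`:
`-2 η V·∇η ≤ η² |V + tN∇y/y|²/N + N |∇η|² + 2 t η N ∇y·∇η/y`.  Hence
`ε ∫ η² y^(2t) lm (1+p²) ≤ ∫ y^(2t) N |∇η|² + 2t ∫ η y^(2t-1) N ∇y·∇η`.
Now `N ≤ B(1+p)`, `|∇η|² ≤ 2 lm/R²` on `D` (and `∇η = 0` a.e. outside the compact support of `η`,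
or: only compare the integrands on `tsupport η ⊆ ball 0 r'` with `r' < 1`), `lm p = 4/y²`, so the
first term is `≤ (2B/R²)(C + 4I)`, `I = ∫_D y^(2t-2) < ∞` (`integrableOn_yy_rpow`).
In the second term `|∇y·∇η| ≤ 4 w/R`, `η y^(2t-1) w p = (η y^t w p) y^(t-1)
≤ ½ (η² y^(2t) lm p² + y^(2t-2))` and `η y^(2t-1) w ≤ ½ (η² y^(2t) lm + y^(2t-2))`, so the second
term is `≤ (8tB/R) (½ ∫ η² y^(2t) lm (1+p²) + I)`; for `R` large it is absorbed.  So
`(ε/2) ∫ η² y^(2t) lm ≤ (2B/R²)(C+4I) + (8tB/R) I → 0` as `R → ∞`, while the left side is bounded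
below by a positive constant (on the ball given by `exists_cutoff`, `η ≥ 1 - M/R ≥ 1/2`).
(See `Pool.Agent.SU2H.disc_nonexist` for an argument of exactly this kind in Lean.)
-/

noncomputable section

namespace Pool.Agent.SU2K.HypPDEAux

/-- the quadratic form part -/
theorem sqpart {N η u1 u2 l1 l2 : ℝ} (hN : 0 < N) :
    -(N * (l1 ^ 2 + l2 ^ 2)) ≤ η ^ 2 * ((u1 ^ 2 + u2 ^ 2) / N) + 2 * η * (u1 * l1 + u2 * l2) := by
  have e : η ^ 2 * ((u1 ^ 2 + u2 ^ 2) / N) + 2 * η * (u1 * l1 + u2 * l2) + N * (l1 ^ 2 + l2 ^ 2)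
      = ((η * u1 + N * l1) ^ 2 + (η * u2 + N * l2) ^ 2) / N := by
    field_simp
    ring
  have h : 0 ≤ ((η * u1 + N * l1) ^ 2 + (η * u2 + N * l2) ^ 2) / N := by positivity
  linarith

/-- rewriting the divergence -/
theorem rewr {t Y N n1 n2 v1 v2 y1 y2 n11 n22 v11 v22 : ℝ} (hY : 0 < Y) (hN : 0 < N)
    (hy : y1 ^ 2 + y2 ^ 2 = 4 * (1 - Y)) :
    (2 * t / Y * y1 * (n1 / 2 - N * v1) + (n11 / 2 - (n1 * v1 + N * v11))) +
      (2 * t / Y * y2 * (n2 / 2 - N * v2) + (n22 / 2 - (n2 * v2 + N * v22))) =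
    ((n11 + n22) / 2 - N * ((v11 + v22) + (v1 ^ 2 + v2 ^ 2)) - (n1 ^ 2 + n2 ^ 2) / (4 * N)
      - 4 * t ^ 2 * (1 - Y) * N / Y ^ 2) +
      ((n1 / 2 - N * v1 + t * N * y1 / Y) ^ 2 + (n2 / 2 - N * v2 + t * N * y2 / Y) ^ 2) / N := by
  have e : 4 * t ^ 2 * (1 - Y) * N / Y ^ 2 = t ^ 2 * (y1 ^ 2 + y2 ^ 2) * N / Y ^ 2 := by
    rw [hy]; ring
  rw [e]
  field_simp
  ring

theorem dotle {Y y1 y2 l1 l2 c : ℝ} (hY : 0 < Y) (hy : y1 ^ 2 + y2 ^ 2 = 4 * (1 - Y))
    (hl1 : |l1| ≤ c) (hl2 : |l2| ≤ c) : y1 * l1 + y2 * l2 ≤ 4 * c := by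
  have hy1 : |y1| ≤ 2 := by
    refine abs_le_of_sq_le_sq ?_ (by norm_num)
    linarith [sq_nonneg y2]
  have hy2 : |y2| ≤ 2 := by
    refine abs_le_of_sq_le_sq ?_ (by norm_num)
    linarith [sq_nonneg y1]
  have a1 : y1 * l1 ≤ 2 * c := by
    calc y1 * l1 ≤ |y1 * l1| := le_abs_self _
      _ = |y1| * |l1| := abs_mul _ _
      _ ≤ 2 * c := mul_le_mul hy1 hl1 (abs_nonneg _) (by norm_num)
  have a2 : y2 * l2 ≤ 2 * c := by
    calc y2 * l2 ≤ |y2 * l2| := le_abs_self _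
      _ = |y2| * |l2| := abs_mul _ _
      _ ≤ 2 * c := mul_le_mul hy2 hl2 (abs_nonneg _) (by norm_num)
  linarith

/-- the first error term -/
theorem err1 {B R Y w p N l1 l2 : ℝ} (hR : 0 < R) (hY : 0 < Y) (hw : 0 < w)
    (hB0 : 0 < B) (hp : p = 4 / (Y ^ 2 * w ^ 2)) (hNB : N ≤ B * (1 + p))
    (hl : l1 ^ 2 + l2 ^ 2 ≤ 2 * (w / R) ^ 2) :
    N * (l1 ^ 2 + l2 ^ 2) ≤ 2 * B / R ^ 2 * w ^ 2 + 8 * B / R ^ 2 / Y ^ 2 := by
  have hp0 : 0 < p := by rw [hp]; positivity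
  calc N * (l1 ^ 2 + l2 ^ 2) ≤ (B * (1 + p)) * (2 * (w / R) ^ 2) :=
        mul_le_mul hNB hl (by positivity) (by positivity)
    _ = 2 * B / R ^ 2 * w ^ 2 + 8 * B / R ^ 2 / Y ^ 2 := by
        rw [hp]
        field_simp
        ring

/-- the second error term -/
theorem err2 {t B R Y w p N η d : ℝ} (ht0 : 0 < t) (hR : 0 < R) (hY : 0 < Y) (hw : 0 < w)
    (hN : 0 < N) (hB0 : 0 < B) (hp0 : 0 < p) (hNB : N ≤ B * (1 + p)) (hη0 : 0 ≤ η)
    (hd : d ≤ 4 * (w / R)) :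
    2 * η * (t * N / Y) * d ≤
      4 * t * B / R * (η ^ 2 * w ^ 2 * (1 + p ^ 2)) + 8 * t * B / R / Y ^ 2 := by
  have c1 : 2 * η * (t * N / Y) * d ≤
      2 * η * (t * (B * (1 + p)) / Y) * (4 * (w / R)) := by
    have c2 : 2 * η * (t * N / Y) * d ≤
        2 * η * (t * N / Y) * (4 * (w / R)) :=
      mul_le_mul_of_nonneg_left hd (by positivity)
    have c3 : 2 * η * (t * N / Y) * (4 * (w / R)) ≤
        2 * η * (t * (B * (1 + p)) / Y) * (4 * (w / R)) := by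
      have : t * N / Y ≤ t * (B * (1 + p)) / Y := by gcongr
      gcongr
    exact c2.trans c3
  refine c1.trans ?_
  have e4 : 2 * η * (t * (B * (1 + p)) / Y) * (4 * (w / R)) =
      8 * t * B / R * ((η * w) * (1 / Y) + (η * w * p) * (1 / Y)) := by
    field_simp
    ring
  have e5 : 4 * t * B / R * (η ^ 2 * w ^ 2 * (1 + p ^ 2)) + 8 * t * B / R / Y ^ 2 =
      8 * t * B / R * (((η * w) ^ 2 + (1 / Y) ^ 2) / 2 + ((η * w * p) ^ 2 + (1 / Y) ^ 2) / 2) := by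
    field_simp
    ring
  rw [e4, e5]
  have h8 : 0 ≤ 8 * t * B / R := by positivity
  refine mul_le_mul_of_nonneg_left ?_ h8
  linarith [two_mul_le_add_sq (η * w) (1 / Y), two_mul_le_add_sq (η * w * p) (1 / Y)]

theorem point {t ε B R Y w p N n1 n2 v1 v2 y1 y2 n11 n22 v11 v22 l1 l2 η : ℝ}
    (ht0 : 0 < t) (hR : 0 < R) (hY : 0 < Y) (hw : 0 < w) (hN : 0 < N)
    (hp : p = 4 / (Y ^ 2 * w ^ 2)) (hNB : N ≤ B * (1 + p)) (hη0 : 0 ≤ η)
    (hy : y1 ^ 2 + y2 ^ 2 = 4 * (1 - Y))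
    (hl1 : |l1| ≤ w / R) (hl2 : |l2| ≤ w / R)
    (hin : ε * (w ^ 2 * (1 + p ^ 2)) ≤ (n11 + n22) / 2 - N * ((v11 + v22) + (v1 ^ 2 + v2 ^ 2))
      - (n1 ^ 2 + n2 ^ 2) / (4 * N) - 4 * t ^ 2 * (1 - Y) * N / Y ^ 2) :
    (ε - 4 * t * B / R) * (η ^ 2 * w ^ 2 * (1 + p ^ 2)) - 2 * B / R ^ 2 * w ^ 2
      - (8 * B / R ^ 2 + 8 * t * B / R) / Y ^ 2 ≤
    η ^ 2 * ((2 * t / Y * y1 * (n1 / 2 - N * v1) + (n11 / 2 - (n1 * v1 + N * v11))) +
      (2 * t / Y * y2 * (n2 / 2 - N * v2) + (n22 / 2 - (n2 * v2 + N * v22)))) +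
    2 * η * ((n1 / 2 - N * v1) * l1 + (n2 / 2 - N * v2) * l2) := by
  have hp0 : 0 < p := by rw [hp]; positivity
  have hB0 : 0 < B := by
    by_contra h
    push Not at h
    have : B * (1 + p) ≤ 0 := mul_nonpos_of_nonpos_of_nonneg h (by linarith)
    linarith
  rw [rewr hY hN hy]
  have hsq := sqpart (N := N) (η := η) (u1 := n1 / 2 - N * v1 + t * N * y1 / Y)
    (u2 := n2 / 2 - N * v2 + t * N * y2 / Y) (l1 := l1) (l2 := l2) hN
  have hl : l1 ^ 2 + l2 ^ 2 ≤ 2 * (w / R) ^ 2 := by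
    have e1 : l1 ^ 2 ≤ (w / R) ^ 2 := by
      rw [← sq_abs l1]; exact pow_le_pow_left₀ (abs_nonneg _) hl1 2
    have e2 : l2 ^ 2 ≤ (w / R) ^ 2 := by
      rw [← sq_abs l2]; exact pow_le_pow_left₀ (abs_nonneg _) hl2 2
    linarith
  have hwR : 0 < w / R := by positivity
  have hyl : y1 * l1 + y2 * l2 ≤ 4 * (w / R) := dotle hY hy hl1 hl2
  have h1 := err1 hR hY hw hB0 hp hNB hl
  have h2 := err2 ht0 hR hY hw hN hB0 hp0 hNB hη0 hyl
  have h3 : η ^ 2 * (ε * (w ^ 2 * (1 + p ^ 2))) ≤ η ^ 2 * ((n11 + n22) / 2 -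
      N * ((v11 + v22) + (v1 ^ 2 + v2 ^ 2))
      - (n1 ^ 2 + n2 ^ 2) / (4 * N) - 4 * t ^ 2 * (1 - Y) * N / Y ^ 2) :=
    mul_le_mul_of_nonneg_left hin (sq_nonneg η)
  have e6 : 2 * η * ((n1 / 2 - N * v1) * l1 + (n2 / 2 - N * v2) * l2) =
      2 * η * ((n1 / 2 - N * v1 + t * N * y1 / Y) * l1 + (n2 / 2 - N * v2 + t * N * y2 / Y) * l2)
        - 2 * η * (t * N / Y) * (y1 * l1 + y2 * l2) := by ring
  have e7 : (8 * B / R ^ 2 + 8 * t * B / R) / Y ^ 2 = 8 * B / R ^ 2 / Y ^ 2 + 8 * t * B / R / Y ^ 2 := by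
    ring
  rw [e6, e7, mul_add (η ^ 2)]
  linarith [hsq, h1, h2, h3]

open MeasureTheory Metric Set Filter Topology Pool.Agent.SU2H Pool.Agent.SU2H.DiscPDEAux

theorem yy_pos {z : ℂ} (hz : z ∈ ball (0 : ℂ) 1) : 0 < yy z := by
  have h : ‖z‖ < 1 := by simpa using hz
  have h0 := norm_nonneg z
  unfold yy
  nlinarith

theorem yy_contDiff : ContDiff ℝ 1 yy := by
  unfold yy
  exact contDiff_const.sub (contDiff_norm_sq ℝ)

theorem yy_hasFDerivAt (z : ℂ) : HasFDerivAt yy (-(2 • innerSL ℝ z)) z := by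
  have h := (hasStrictFDerivAt_norm_sq z).hasFDerivAt
  have h2 := h.const_sub 1
  exact h2

theorem fd_yy_one (z : ℂ) : fderiv ℝ yy z 1 = -(2 * z.re) := by
  rw [(yy_hasFDerivAt z).fderiv]
  simp [innerSL_apply_apply, Complex.inner]

theorem fd_yy_I (z : ℂ) : fderiv ℝ yy z Complex.I = -(2 * z.im) := by
  rw [(yy_hasFDerivAt z).fderiv]
  simp [innerSL_apply_apply, Complex.inner]

theorem fd_yy_sq (z : ℂ) : (fderiv ℝ yy z 1) ^ 2 + (fderiv ℝ yy z Complex.I) ^ 2 =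
    4 * (1 - yy z) := by
  rw [fd_yy_one, fd_yy_I]
  have h : ‖z‖ ^ 2 = z.re * z.re + z.im * z.im := by
    rw [← Complex.normSq_eq_norm_sq, Complex.normSq_apply]
  unfold yy
  rw [h]
  ring

/-- the components of the vector field -/
def FF (t : ℝ) (N v : ℂ → ℝ) (a : ℂ) (w : ℂ) : ℝ :=
  yy w ^ (2 * t) * (fderiv ℝ N w a / 2 - N w * fderiv ℝ v w a)

theorem contFF {N v : ℂ → ℝ} {t : ℝ} (hN : ContDiffOn ℝ 2 N (ball 0 1))
    (hv : ContDiffOn ℝ 2 v (ball 0 1)) (a : ℂ) : ContDiffOn ℝ 1 (FF t N v a) (ball 0 1) := by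
  unfold FF
  have h1 : ContDiffOn ℝ 1 (fun w => yy w ^ (2 * t)) (ball 0 1) :=
    yy_contDiff.contDiffOn.rpow_const_of_ne fun z hz => (yy_pos hz).ne'
  have h2 : ContDiffOn ℝ 1 N (ball 0 1) := hN.of_le (by norm_num)
  exact h1.mul (((fd_contDiffOn hN a).div_const 2).sub (h2.mul (fd_contDiffOn hv a)))

theorem dFF {N v : ℂ → ℝ} {t : ℝ} (hN : ContDiffOn ℝ 2 N (ball 0 1))
    (hv : ContDiffOn ℝ 2 v (ball 0 1)) {z : ℂ} (hz : z ∈ ball (0 : ℂ) 1) (a : ℂ) :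
    fderiv ℝ (FF t N v a) z a = yy z ^ (2 * t) *
      (2 * t / yy z * fderiv ℝ yy z a * (fderiv ℝ N z a / 2 - N z * fderiv ℝ v z a) +
        (fderiv ℝ (fun w => fderiv ℝ N w a) z a / 2 -
          (fderiv ℝ N z a * fderiv ℝ v z a + N z * fderiv ℝ (fun w => fderiv ℝ v w a) z a))) := by
  have hy := yy_pos hz
  have h1 : HasFDerivAt (fun w => yy w ^ (2 * t))
      (((2 * t) * yy z ^ (2 * t - 1)) • fderiv ℝ yy z) z :=
    ((yy_hasFDerivAt z).differentiableAt.hasFDerivAt).rpow_const (Or.inl hy.ne')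
  have h2 : HasFDerivAt (fun w => fderiv ℝ N w a / 2)
      ((2 : ℝ)⁻¹ • fderiv ℝ (fun w => fderiv ℝ N w a) z) z := by
    have := (fd2_diff hN hz a).hasFDerivAt.const_mul (2 : ℝ)⁻¹
    refine this.congr_of_eventuallyEq (.of_forall fun w => ?_)
    change fderiv ℝ N w a / 2 = (2 : ℝ)⁻¹ * fderiv ℝ N w a
    ring
  have h3 : HasFDerivAt (fun w => N w * fderiv ℝ v w a)
      (N z • fderiv ℝ (fun w => fderiv ℝ v w a) z + fderiv ℝ v z a • fderiv ℝ N z) z :=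
    (fd_diff hN hz).hasFDerivAt.fun_mul (fd2_diff hv hz a).hasFDerivAt
  have h4 := h1.fun_mul (h2.fun_sub h3)
  have h5 : HasFDerivAt (FF t N v a) _ z := h4
  rw [h5.fderiv, Real.rpow_sub_one hy.ne']
  simp only [add_apply, smul_apply, smul_eq_mul, sub_apply]
  field_simp
  ring

end Pool.Agent.SU2K.HypPDEAux

namespace Pool.Agent.SU2K

open MeasureTheory Metric Set Filter Topology Pool.Agent.SU2H Pool.Agent.SU2H.DiscPDEAux
open HypPDEAux

theorem hyp_pde {lm N v : ℂ → ℝ} {t ε B C : ℝ} (ht : 1 / 2 < t) (ht1 : t < 1) (hε : 0 < ε)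
    (hlm : ContinuousOn lm (Metric.ball 0 1)) (hl0 : ∀ z ∈ Metric.ball (0 : ℂ) 1, 0 < lm z)
    (hN : ContDiffOn ℝ 2 N (Metric.ball 0 1)) (hv : ContDiffOn ℝ 2 v (Metric.ball 0 1))
    (hN0 : ∀ z ∈ Metric.ball (0 : ℂ) 1, 0 < N z)
    (hNB : ∀ z ∈ Metric.ball (0 : ℂ) 1, N z ≤ B * (1 + pp lm z))
    (hineq : ∀ z ∈ Metric.ball (0 : ℂ) 1, ε * (lm z * (1 + pp lm z ^ 2)) ≤
      lap N z / 2 - N z * (lap v z + gr2 v z) - gr2 N z / (4 * N z)
        - 4 * t ^ 2 * (1 - yy z) * N z / yy z ^ 2)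
    (hint : ∀ r < 1, ∫ z in Metric.ball (0 : ℂ) r, yy z ^ (2 * t) * lm z ≤ C)
    (hcomp : Complete (Metric.ball 0 1) (fun z => √(lm z))) : False := by
  classical
  have ht0 : 0 < t := by linarith
  obtain ⟨r, hr, hrD, M, hM⟩ := exists_cutoff isOpen_ball (convex_ball 0 1)
    (mem_ball_self one_pos) (hlm.sqrt) (fun z hz => Real.sqrt_pos.2 (hl0 z hz)) hcomp
  -- a small ball
  set r0 : ℝ := min r (1 / 2) with hr0d
  have hr0 : 0 < r0 := lt_min hr (by norm_num)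
  have hr0r : r0 ≤ r := min_le_left _ _
  have hr01 : r0 ≤ 1 / 2 := min_le_right _ _
  have hcb : closedBall (0 : ℂ) r0 ⊆ ball 0 1 := closedBall_subset_ball (by linarith)
  -- the weight
  set h : ℂ → ℝ := fun z => yy z ^ (2 * t) * lm z with hhd
  have hyc : ContinuousOn (fun z => yy z ^ (2 * t)) (ball 0 1) :=
    yy_contDiff.continuous.continuousOn.rpow_const fun z hz => Or.inl (yy_pos hz).ne'
  have hhc : ContinuousOn h (ball 0 1) := hyc.mul hlm
  have hh0 : ∀ z ∈ ball (0 : ℂ) 1, 0 < h z := fun z hz =>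
    mul_pos (Real.rpow_pos_of_pos (yy_pos hz) _) (hl0 z hz)
  obtain ⟨z0, hz0, hmin⟩ := (isCompact_closedBall (0 : ℂ) r0).exists_isMinOn
    ⟨0, mem_closedBall_self hr0.le⟩ (hhc.mono hcb)
  set m : ℝ := h z0 with hm
  have hm0 : 0 < m := hh0 z0 (hcb hz0)
  have hmle : ∀ z ∈ ball (0 : ℂ) r0, m ≤ h z := fun z hz => hmin (ball_subset_closedBall hz)
  -- constants
  have hB0 : 0 < B := by
    have h0 : (0 : ℂ) ∈ ball (0 : ℂ) 1 := mem_ball_self one_pos
    have h1 := hNB 0 h0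
    have h2 := hN0 0 h0
    have hp0 : 0 < pp lm 0 := by
      unfold pp
      have := yy_pos h0
      have := hl0 0 h0
      positivity
    by_contra hcon
    push Not at hcon
    have : B * (1 + pp lm 0) ≤ 0 := mul_nonpos_of_nonpos_of_nonneg hcon (by linarith)
    linarith
  have hC0 : 0 ≤ C := by
    refine le_trans ?_ (hint r0 (by linarith))
    refine setIntegral_nonneg measurableSet_ball fun z hz => ?_
    exact (hh0 z (hcb (ball_subset_closedBall hz))).le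
  have hyi : IntegrableOn (fun z : ℂ => yy z ^ (2 * t - 2)) (ball 0 1) :=
    integrableOn_yy_rpow (by linarith)
  set I : ℝ := ∫ z in ball (0 : ℂ) 1, yy z ^ (2 * t - 2) with hI
  have hyn : ∀ z ∈ ball (0 : ℂ) 1, 0 ≤ yy z ^ (2 * t - 2) := fun z hz =>
    Real.rpow_nonneg (yy_pos hz).le _
  have hI0 : 0 ≤ I := setIntegral_nonneg measurableSet_ball hyn
  set Vr : ℝ := volume.real (ball (0 : ℂ) r0) with hVr
  have hVr0 : 0 < Vr := by
    rw [hVr, measureReal_def]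
    exact ENNReal.toReal_pos (measure_ball_pos _ _ hr0).ne' measure_ball_lt_top.ne
  set A : ℝ := ε / 8 * m with hA
  have hA0 : 0 < A := by positivity
  set Q : ℝ := (2 * B * C + 16 * B * I) / (A * Vr) with hQ
  have hQ0 : 0 ≤ Q := by positivity
  have hE0 : 0 ≤ 8 * B / ε := by positivity
  set R : ℝ := 2 * |M| + 1 + Q + 8 * B / ε with hRd
  have hMa := abs_nonneg M
  have hR1 : 1 ≤ R := by linarith
  have hR0 : 0 < R := by linarith
  obtain ⟨η, ⟨K, hηL⟩, h0, h1, hc, hs, hld, hlow⟩ := hM R hR0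
  have hMR : 1 / 2 ≤ 1 - M / R := by
    have e1 : M / R ≤ 1 / 2 := by
      rw [div_le_iff₀ hR0]
      have := le_abs_self M
      linarith
    linarith
  -- the support of the cut-off function
  obtain ⟨r1, ⟨hr10, hr11⟩, hsub⟩ := exists_pos_lt_subset_ball (zero_lt_one' ℝ)
    (isClosed_tsupport η) hs
  have hr1D : closedBall (0 : ℂ) r1 ⊆ ball 0 1 := closedBall_subset_ball hr11
  -- integration by parts
  obtain ⟨i1, j1, k1⟩ := ibp (contFF (t := t) hN hv 1) hηL h0 h1 hc hs 1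
  obtain ⟨i2, j2, k2⟩ := ibp (contFF (t := t) hN hv Complex.I) hηL h0 h1 hc hs Complex.I
  let G : ℂ → ℝ := fun z =>
    fderiv ℝ (FF t N v 1) z 1 * η z ^ 2 +
      fderiv ℝ (FF t N v Complex.I) z Complex.I * η z ^ 2 +
      FF t N v 1 z * (2 * η z * lineDeriv ℝ η z 1) +
      FF t N v Complex.I z * (2 * η z * lineDeriv ℝ η z Complex.I)
  have hGi : Integrable G := ((i1.add i2).add j1).add j2
  have hG0 : ∫ z, G z = 0 := by
    have e : ∫ z, G z = (∫ z, fderiv ℝ (FF t N v 1) z 1 * η z ^ 2) +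
        (∫ z, fderiv ℝ (FF t N v Complex.I) z Complex.I * η z ^ 2) +
        (∫ z, FF t N v 1 z * (2 * η z * lineDeriv ℝ η z 1)) +
        ∫ z, FF t N v Complex.I z * (2 * η z * lineDeriv ℝ η z Complex.I) := by
      have a1 : Integrable (fun z => fderiv ℝ (FF t N v 1) z 1 * η z ^ 2 +
        fderiv ℝ (FF t N v Complex.I) z Complex.I * η z ^ 2) := i1.add i2
      have a2 : Integrable (fun z => fderiv ℝ (FF t N v 1) z 1 * η z ^ 2 +
        fderiv ℝ (FF t N v Complex.I) z Complex.I * η z ^ 2 +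
        FF t N v 1 z * (2 * η z * lineDeriv ℝ η z 1)) := a1.add j1
      change ∫ z, (fderiv ℝ (FF t N v 1) z 1 * η z ^ 2 +
        fderiv ℝ (FF t N v Complex.I) z Complex.I * η z ^ 2 +
        FF t N v 1 z * (2 * η z * lineDeriv ℝ η z 1) +
        FF t N v Complex.I z * (2 * η z * lineDeriv ℝ η z Complex.I)) = _
      rw [integral_add a2 j2, integral_add a1 j1, integral_add i1 i2]
    rw [e, k1, k2]
    ring
  set c1 : ℝ := 2 * B / R ^ 2 with hc1
  set c2 : ℝ := 8 * B / R ^ 2 + 8 * t * B / R with hc2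
  have hc10 : 0 ≤ c1 := by positivity
  have hc20 : 0 ≤ c2 := by positivity
  have hεR : ε / 2 ≤ ε - 4 * t * B / R := by
    have e1 : 4 * t * B / R ≤ ε / 2 := by
      rw [div_le_iff₀ hR0]
      have e2 : ε / 2 * (8 * B / ε) = 4 * B := by field_simp; norm_num
      have e3 : ε / 2 * (8 * B / ε) ≤ ε / 2 * R := by
        refine mul_le_mul_of_nonneg_left ?_ (by positivity)
        linarith
      have e4 : 4 * t * B ≤ 4 * B := by nlinarith
      linarith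
    linarith
  have hGD : ∀ z ∈ ball (0 : ℂ) 1,
      ε / 2 * η z ^ 2 * h z - (c1 * h z + c2 * yy z ^ (2 * t - 2)) ≤ G z := by
    intro z hz
    have hy := yy_pos hz
    have hl := hl0 z hz
    have hw : 0 < √(lm z) := Real.sqrt_pos.2 hl
    have hw2 : √(lm z) ^ 2 = lm z := Real.sq_sqrt hl.le
    have hp := point (t := t) (ε := ε) (B := B) (R := R) (Y := yy z) (w := √(lm z))
      (p := pp lm z) (N := N z) (n1 := fderiv ℝ N z 1) (n2 := fderiv ℝ N z Complex.I)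
      (v1 := fderiv ℝ v z 1) (v2 := fderiv ℝ v z Complex.I) (y1 := fderiv ℝ yy z 1)
      (y2 := fderiv ℝ yy z Complex.I)
      (n11 := fderiv ℝ (fun w => fderiv ℝ N w 1) z 1)
      (n22 := fderiv ℝ (fun w => fderiv ℝ N w Complex.I) z Complex.I)
      (v11 := fderiv ℝ (fun w => fderiv ℝ v w 1) z 1)
      (v22 := fderiv ℝ (fun w => fderiv ℝ v w Complex.I) z Complex.I)
      (l1 := lineDeriv ℝ η z 1) (l2 := lineDeriv ℝ η z Complex.I) (η := η z)
      ht0 hR0 hy hw (hN0 z hz) (by rw [hw2]; rfl) (hNB z hz) (h0 z) (fd_yy_sq z)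
      (by simpa using hld z hz 1) (by simpa using hld z hz Complex.I)
      (by rw [hw2]; exact hineq z hz)
    have hE : 0 < yy z ^ (2 * t) := Real.rpow_pos_of_pos hy _
    have hE2 : yy z ^ (2 * t - 2) = yy z ^ (2 * t) / yy z ^ 2 := by
      rw [Real.rpow_sub hy]
      norm_num
    have hp2 := mul_le_mul_of_nonneg_left hp hE.le
    have eG : G z = yy z ^ (2 * t) * (η z ^ 2 * ((2 * t / yy z * fderiv ℝ yy z 1 *
        (fderiv ℝ N z 1 / 2 - N z * fderiv ℝ v z 1) +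
        (fderiv ℝ (fun w => fderiv ℝ N w 1) z 1 / 2 -
          (fderiv ℝ N z 1 * fderiv ℝ v z 1 + N z * fderiv ℝ (fun w => fderiv ℝ v w 1) z 1))) +
        (2 * t / yy z * fderiv ℝ yy z Complex.I *
        (fderiv ℝ N z Complex.I / 2 - N z * fderiv ℝ v z Complex.I) +
        (fderiv ℝ (fun w => fderiv ℝ N w Complex.I) z Complex.I / 2 -
          (fderiv ℝ N z Complex.I * fderiv ℝ v z Complex.I +
            N z * fderiv ℝ (fun w => fderiv ℝ v w Complex.I) z Complex.I)))) +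
        2 * η z * ((fderiv ℝ N z 1 / 2 - N z * fderiv ℝ v z 1) * lineDeriv ℝ η z 1 +
          (fderiv ℝ N z Complex.I / 2 - N z * fderiv ℝ v z Complex.I) *
            lineDeriv ℝ η z Complex.I)) := by
      change fderiv ℝ (FF t N v 1) z 1 * η z ^ 2 +
        fderiv ℝ (FF t N v Complex.I) z Complex.I * η z ^ 2 +
        FF t N v 1 z * (2 * η z * lineDeriv ℝ η z 1) +
        FF t N v Complex.I z * (2 * η z * lineDeriv ℝ η z Complex.I) = _
      rw [dFF hN hv hz 1, dFF hN hv hz Complex.I]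
      unfold FF
      ring
    rw [eG]
    refine le_trans ?_ hp2
    rw [hE2, hw2]
    have h5 : ε / 2 * (η z ^ 2 * lm z) ≤
        (ε - 4 * t * B / R) * (η z ^ 2 * lm z * (1 + pp lm z ^ 2)) := by
      have b1 : η z ^ 2 * lm z ≤ η z ^ 2 * lm z * (1 + pp lm z ^ 2) := by
        have : 0 ≤ η z ^ 2 * lm z * pp lm z ^ 2 := by positivity
        linarith
      have b2 : 0 ≤ η z ^ 2 * lm z := by positivity
      exact mul_le_mul hεR b1 b2 (by linarith)
    have h6 := mul_le_mul_of_nonneg_left h5 hE.le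
    have e8 : ε / 2 * η z ^ 2 * h z - (c1 * h z + c2 * (yy z ^ (2 * t) / yy z ^ 2)) =
        yy z ^ (2 * t) * (ε / 2 * (η z ^ 2 * lm z)) - yy z ^ (2 * t) * (c1 * lm z) -
          yy z ^ (2 * t) * (c2 / yy z ^ 2) := by
      change ε / 2 * η z ^ 2 * (yy z ^ (2 * t) * lm z) - (c1 * (yy z ^ (2 * t) * lm z) +
        c2 * (yy z ^ (2 * t) / yy z ^ 2)) = _
      ring
    rw [e8, mul_sub, mul_sub]
    linarith
  have hGle : ∀ z, (ball (0 : ℂ) r0).indicator (fun _ => A) z -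
      (ball (0 : ℂ) r1).indicator (fun z => c1 * h z + c2 * yy z ^ (2 * t - 2)) z ≤ G z := by
    intro z
    by_cases hz : z ∈ ball (0 : ℂ) r1
    · have hzD := hr1D (ball_subset_closedBall hz)
      rw [indicator_of_mem hz]
      refine le_trans ?_ (hGD z hzD)
      refine sub_le_sub_right ?_ _
      have hhz := hh0 z hzD
      by_cases hz' : z ∈ ball (0 : ℂ) r0
      · rw [indicator_of_mem hz']
        have e1 : 1 / 2 ≤ η z := hMR.trans (hlow z (ball_subset_ball hr0r hz'))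
        have e2 : (1 / 2 : ℝ) ^ 2 ≤ η z ^ 2 := pow_le_pow_left₀ (by norm_num) e1 2
        have e3 := hmle z hz'
        calc A = ε / 2 * (1 / 2) ^ 2 * m := by rw [hA]; ring
          _ ≤ ε / 2 * η z ^ 2 * h z := by gcongr
      · rw [indicator_of_notMem hz']
        positivity
    · have hη : η z = 0 := image_eq_zero_of_notMem_tsupport fun h => hz (hsub h)
      have hz' : z ∉ ball (0 : ℂ) r0 := by
        intro hz'
        have e1 : 1 / 2 ≤ η z := hMR.trans (hlow z (ball_subset_ball hr0r hz'))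
        rw [hη] at e1
        norm_num at e1
      rw [indicator_of_notMem hz, indicator_of_notMem hz']
      change (0 : ℝ) - 0 ≤ fderiv ℝ (FF t N v 1) z 1 * η z ^ 2 +
        fderiv ℝ (FF t N v Complex.I) z Complex.I * η z ^ 2 +
        FF t N v 1 z * (2 * η z * lineDeriv ℝ η z 1) +
        FF t N v Complex.I z * (2 * η z * lineDeriv ℝ η z Complex.I)
      rw [hη]
      simp
  have hI1 : Integrable ((ball (0 : ℂ) r0).indicator (fun _ => A)) :=
    (integrable_indicator_iff measurableSet_ball).2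
      (integrableOn_const (measure_ball_lt_top.ne))
  have hho : IntegrableOn h (ball (0 : ℂ) r1) :=
    ((hhc.mono hr1D).integrableOn_compact (isCompact_closedBall 0 r1)).mono_set
      ball_subset_closedBall
  have hyo : IntegrableOn (fun z : ℂ => yy z ^ (2 * t - 2)) (ball (0 : ℂ) r1) :=
    hyi.mono_set (ball_subset_ball hr11.le)
  have hco : IntegrableOn (fun z => c1 * h z + c2 * yy z ^ (2 * t - 2)) (ball (0 : ℂ) r1) :=
    (hho.const_mul c1).add (hyo.const_mul c2)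
  have hI2 : Integrable ((ball (0 : ℂ) r1).indicator
      (fun z => c1 * h z + c2 * yy z ^ (2 * t - 2))) :=
    (integrable_indicator_iff measurableSet_ball).2 hco
  have hintG : ∫ z, ((ball (0 : ℂ) r0).indicator (fun _ => A) z -
      (ball (0 : ℂ) r1).indicator (fun z => c1 * h z + c2 * yy z ^ (2 * t - 2)) z) ≤ ∫ z, G z :=
    integral_mono (hI1.sub hI2) hGi hGle
  rw [hG0, integral_sub hI1 hI2, integral_indicator_const _ measurableSet_ball,
    integral_indicator measurableSet_ball, smul_eq_mul] at hintG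
  have e20 : ∫ z in ball (0 : ℂ) r1, (c1 * h z + c2 * yy z ^ (2 * t - 2)) ≤ c1 * C + c2 * I := by
    rw [integral_add (hho.const_mul c1) (hyo.const_mul c2), integral_const_mul,
      integral_const_mul]
    have b1 : ∫ z in ball (0 : ℂ) r1, h z ≤ C := hint r1 hr11
    have b2 : ∫ z in ball (0 : ℂ) r1, yy z ^ (2 * t - 2) ≤ I :=
      setIntegral_mono_set hyi ((ae_restrict_iff' measurableSet_ball).2 (.of_forall hyn))
        (ball_subset_ball hr11.le).eventuallyLE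
    exact add_le_add (mul_le_mul_of_nonneg_left b1 hc10) (mul_le_mul_of_nonneg_left b2 hc20)
  have hfin : Vr * A ≤ c1 * C + c2 * I := by linarith
  have e21 : c1 * R ≤ 2 * B := by
    rw [hc1]
    have : 2 * B / R ^ 2 * R = 2 * B / R := by field_simp
    rw [this]
    exact div_le_self (by positivity) hR1
  have e22 : c2 * R ≤ 16 * B := by
    rw [hc2]
    have e : (8 * B / R ^ 2 + 8 * t * B / R) * R = 8 * B / R + 8 * t * B := by field_simp
    rw [e]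
    have e3 : 8 * B / R ≤ 8 * B := div_le_self (by positivity) hR1
    have e4 : 8 * t * B ≤ 8 * B := by nlinarith
    linarith
  have e23 : Vr * A * R ≤ 2 * B * C + 16 * B * I := by
    calc Vr * A * R ≤ (c1 * C + c2 * I) * R := mul_le_mul_of_nonneg_right hfin hR0.le
      _ = (c1 * R) * C + (c2 * R) * I := by ring
      _ ≤ 2 * B * C + 16 * B * I :=
        add_le_add (mul_le_mul_of_nonneg_right e21 hC0) (mul_le_mul_of_nonneg_right e22 hI0)
  have e24 : R ≤ Q := by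
    rw [hQ, le_div_iff₀ (by positivity)]
    linarith
  linarith

end Pool.Agent.SU2K
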