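import Pool.Agent.Lib.SU2K.Defs

/-!
# The Laplacian of the quotient of the hyperbolic metric and the metric `lm |dz|²`

Proof sketch.  On the disc `D`, `log (pp lm) = log 4 - 2 log (yy) - log lm`;
`lap (log yy) = -4 / yy²` (direct: `∂_a yy`, `∂_a∂_a yy = -2`, `|∇yy|² = 4(1-yy)`), so
`lap (log (pp lm)) = 8/yy² + 2 lm K = 2 lm (pp lm + K)` and
`lap p = p (lap log p + |∇ log p|²) = 2 lm p (p+K) + |∇p|²/p`.
Use `DiscFinalAux.{chain1,chain2,lap_comp}` (composition with `Real.log`, `Real.exp`),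
`DiscPDEAux.{fd_add,fd_mul,fd2_add,fd2_mul}`, or compute directly.
-/

noncomputable section

namespace Pool.Agent.SU2K

open Pool.Agent.SU2H

namespace LapPPAux

open Metric Set Filter Topology DiscPDEAux DiscFinalAux

theorem yy_eq (z : ℂ) : yy z = 1 - (z.re * z.re + z.im * z.im) := by
  unfold yy
  rw [Complex.sq_norm, Complex.normSq_apply]

theorem fd_yy (z a : ℂ) : fderiv ℝ yy z a = -2 * (z.re * a.re + z.im * a.im) := by
  have h : yy = fun z : ℂ => 1 - (z.re * z.re + z.im * z.im) := funext yy_eq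
  have hr : HasFDerivAt (fun w : ℂ => w.re) Complex.reCLM z := Complex.reCLM.hasFDerivAt
  have hi : HasFDerivAt (fun w : ℂ => w.im) Complex.imCLM z := Complex.imCLM.hasFDerivAt
  have h2 := ((hr.mul hr).add (hi.mul hi)).const_sub 1
  have h3 : HasFDerivAt (fun z : ℂ => 1 - (z.re * z.re + z.im * z.im)) _ z := h2
  rw [h, h3.fderiv]
  simp
  ring

theorem lap_yy (z : ℂ) : lap yy z = -4 := by
  unfold lap
  have h1 : (fun w : ℂ => fderiv ℝ yy w 1) = fun w => (-2 : ℝ) * Complex.reCLM w := by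
    funext w
    rw [fd_yy]
    simp
  have h2 : (fun w : ℂ => fderiv ℝ yy w Complex.I) = fun w => (-2 : ℝ) * Complex.imCLM w := by
    funext w
    rw [fd_yy]
    simp
  have h3 : HasFDerivAt (fun w : ℂ => (-2 : ℝ) * Complex.reCLM w)
      ((-2 : ℝ) • Complex.reCLM) z := (Complex.reCLM.hasFDerivAt (x := z)).const_mul (-2)
  have h4 : HasFDerivAt (fun w : ℂ => (-2 : ℝ) * Complex.imCLM w)
      ((-2 : ℝ) • Complex.imCLM) z := (Complex.imCLM.hasFDerivAt (x := z)).const_mul (-2)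
  rw [h1, h2, h3.fderiv, h4.fderiv]
  simp
  norm_num

theorem contDiff_yy : ContDiff ℝ 2 yy := by
  unfold yy
  exact contDiff_const.sub (contDiff_norm_sq ℝ)

theorem yy_pos {z : ℂ} (hz : z ∈ ball (0 : ℂ) 1) : 0 < yy z := by
  have h : ‖z‖ < 1 := by simpa using hz
  unfold yy
  nlinarith [norm_nonneg z]

theorem hlog : ∀ t > (0 : ℝ), HasDerivAt Real.log (t⁻¹) t := fun t ht =>
  Real.hasDerivAt_log ht.ne'

theorem hinv : ∀ t > (0 : ℝ), HasDerivAt (fun t : ℝ => t⁻¹) (-(t ^ 2)⁻¹) t := fun t ht =>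
  hasDerivAt_inv ht.ne'

theorem lap_log {f : ℂ → ℝ} (hf : ContDiffOn ℝ 2 f (ball 0 1))
    (hpos : ∀ z ∈ ball (0 : ℂ) 1, 0 < f z) {z : ℂ} (hz : z ∈ ball (0 : ℂ) 1) :
    lap (fun w => Real.log (f w)) z = -(f z ^ 2)⁻¹ * gr2 f z + (f z)⁻¹ * lap f z :=
  lap_comp hf hlog hinv hpos hz

theorem lap_logyy {z : ℂ} (hz : z ∈ ball (0 : ℂ) 1) :
    lap (fun w => Real.log (yy w)) z = -4 / yy z ^ 2 := by
  rw [lap_log contDiff_yy.contDiffOn (fun z hz => yy_pos hz) hz, lap_yy]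
  unfold gr2
  rw [fd_yy, fd_yy]
  have h := (yy_pos hz).ne'
  have h2 := yy_eq z
  field_simp
  simp only [Complex.one_re, Complex.one_im, Complex.I_re, Complex.I_im]
  nlinarith

theorem contLog {f : ℂ → ℝ} (hf : ContDiffOn ℝ 2 f (ball 0 1))
    (hpos : ∀ z ∈ ball (0 : ℂ) 1, 0 < f z) :
    ContDiffOn ℝ 2 (fun w => Real.log (f w)) (ball 0 1) :=
  hf.log (fun z hz => (hpos z hz).ne')

end LapPPAux

theorem contDiffOn_pp {lm : ℂ → ℝ} (hlm : ContDiffOn ℝ 2 lm (Metric.ball 0 1))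
    (hpos : ∀ z ∈ Metric.ball (0 : ℂ) 1, 0 < lm z) :
    ContDiffOn ℝ 2 (pp lm) (Metric.ball 0 1) ∧
      ∀ z ∈ Metric.ball (0 : ℂ) 1, 0 < yy z ∧ yy z ≤ 1 ∧ 0 < pp lm z := by
  refine ⟨?_, fun z hz => ⟨LapPPAux.yy_pos hz, ?_, ?_⟩⟩
  · unfold pp
    refine contDiffOn_const.div ((LapPPAux.contDiff_yy.contDiffOn.pow 2).mul hlm) ?_
    intro z hz
    have h1 := LapPPAux.yy_pos hz
    have h2 := hpos z hz
    positivity
  · unfold yy
    nlinarith [sq_nonneg ‖z‖]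
  · have h1 := LapPPAux.yy_pos hz
    have h2 := hpos z hz
    unfold pp
    positivity

theorem lap_pp {lm : ℂ → ℝ} (hlm : ContDiffOn ℝ 2 lm (Metric.ball 0 1))
    (hpos : ∀ z ∈ Metric.ball (0 : ℂ) 1, 0 < lm z) {z : ℂ} (hz : z ∈ Metric.ball (0 : ℂ) 1)
    {K : ℝ} (hK : lap (fun w => Real.log (lm w) / 2) z = -(lm z * K)) :
    lap (pp lm) z = 2 * lm z * pp lm z * (pp lm z + K) + gr2 (pp lm) z / pp lm z := by
  obtain ⟨hC, hP⟩ := contDiffOn_pp hlm hpos
  have hppos : ∀ z ∈ Metric.ball (0 : ℂ) 1, 0 < pp lm z := fun z hz => (hP z hz).2.2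
  have h1 := LapPPAux.lap_log hC hppos hz
  have hY := LapPPAux.contLog LapPPAux.contDiff_yy.contDiffOn (fun z hz => LapPPAux.yy_pos hz)
  have hL : ContDiffOn ℝ 2 (fun w => Real.log (lm w) / 2) (Metric.ball 0 1) :=
    (LapPPAux.contLog hlm hpos).div_const 2
  have hY2 : ContDiffOn ℝ 2 (fun w => (-2 : ℝ) * Real.log (yy w)) (Metric.ball 0 1) :=
    contDiffOn_const.mul hY
  have hL2 : ContDiffOn ℝ 2 (fun w => (-2 : ℝ) * (Real.log (lm w) / 2)) (Metric.ball 0 1) :=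
    contDiffOn_const.mul hL
  have hc : ContDiffOn ℝ 2 (fun _ : ℂ => Real.log 4) (Metric.ball 0 1) := contDiffOn_const
  have hE : ∀ w ∈ Metric.ball (0 : ℂ) 1, Real.log (pp lm w)
      = Real.log 4 + ((-2 : ℝ) * Real.log (yy w) + (-2 : ℝ) * (Real.log (lm w) / 2)) := by
    intro w hw
    have h2 := (LapPPAux.yy_pos hw).ne'
    have h3 := (hpos w hw).ne'
    unfold pp
    rw [Real.log_div (by norm_num) (mul_ne_zero (pow_ne_zero 2 h2) h3),
      Real.log_mul (pow_ne_zero 2 h2) h3, Real.log_pow]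
    push_cast
    ring
  have h2d : ∀ a : ℂ, fderiv ℝ (fun w => fderiv ℝ (fun w => Real.log (pp lm w)) w a) z a
      = -2 * fderiv ℝ (fun w => fderiv ℝ (fun w => Real.log (yy w)) w a) z a
        + -2 * fderiv ℝ (fun w => fderiv ℝ (fun w => Real.log (lm w) / 2) w a) z a := by
    intro a
    have e1 : (fun w => fderiv ℝ (fun w => Real.log (pp lm w)) w a) =ᶠ[nhds z]
        fun w => fderiv ℝ (fun w => Real.log 4 +
          ((-2 : ℝ) * Real.log (yy w) + (-2 : ℝ) * (Real.log (lm w) / 2))) w a := by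
      filter_upwards [Metric.isOpen_ball.mem_nhds hz] with w hw
      have e2 : (fun w => Real.log (pp lm w)) =ᶠ[nhds w] fun w => Real.log 4 +
          ((-2 : ℝ) * Real.log (yy w) + (-2 : ℝ) * (Real.log (lm w) / 2)) := by
        filter_upwards [Metric.isOpen_ball.mem_nhds hw] with x hx
        exact hE x hx
      rw [e2.fderiv_eq]
    rw [e1.fderiv_eq, DiscPDEAux.fd2_add hc (hY2.add hL2) hz a, DiscPDEAux.fd2_add hY2 hL2 hz a,
      DiscPDEAux.fd2_mul (-2) hY hz a, DiscPDEAux.fd2_mul (-2) hL hz a]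
    simp
  have h3 : lap (fun w => Real.log (pp lm w)) z
      = -2 * lap (fun w => Real.log (yy w)) z + -2 * lap (fun w => Real.log (lm w) / 2) z := by
    unfold lap
    rw [h2d 1, h2d Complex.I]
    ring
  rw [hK, LapPPAux.lap_logyy hz] at h3
  rw [h3] at h1
  have hp := hppos z hz
  have hy := LapPPAux.yy_pos hz
  have hl := hpos z hz
  have h4 : 2 * lm z * pp lm z = 8 / yy z ^ 2 := by
    unfold pp
    field_simp
    norm_num
  have h5 : lap (pp lm) z = pp lm z * (-2 * (-4 / yy z ^ 2) + -2 * -(lm z * K))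
      + gr2 (pp lm) z / pp lm z := by
    rw [h1]
    field_simp
    ring
  rw [h5]
  have h6 : -2 * (-4 / yy z ^ 2) = 2 * lm z * pp lm z := by
    rw [h4]
    ring
  rw [h6]
  ring

end Pool.Agent.SU2K
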