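import Pool.Agent.Lib.SU2K.HypInt
import Pool.Agent.Lib.SU2K.HypPDE
import Pool.Agent.Lib.SU2K.LapPP

/-!
# The second criterion

Proof sketch (compare `Pool.Agent.SU2H.disc_final`, whose Lean proof is the model).  `D` is the unit
disc, `u > 0` the Jacobi function, `v = log u`, `lm = lam ℓ φ`, `m = mm ℓ φ`, `p = pp lm`,
`N₀ = m + κ` (so `ε ≤ N₀ ≤ B₀`, `DiscFinalAux.cq_bounds`), `N = N₀ + b p`.  At each `z` take the data
`P` of `geom` (`P.m = m z` because `P.n = nrm ℓ φ z`).  Then `lap v + |∇v|² = lap u/u = -lm P.q`,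
`lap m = lm P.Dm`, `|∇m|² = lm P.Gm`, `lap p = 2 lm p (p + P.K) + |∇p|²/p` (`lap_pp`).

(1) `hyp_int` for `N₀`: `½ lap N₀ - N₀(lap v + |∇v|²) - |∇N₀|²/(4N₀) =
lm (P.Dm/2 + N₀ P.q - P.Gm/(4N₀)) ≥ ε lm` (the criterion at `p = 0`).

(2) `hyp_pde` for `N`: `½ lap N - N(lap v + |∇v|²) - |∇N|²/(4N) =
lm (P.Dm/2 + b p (p + P.K) + (N₀ + b p) P.q) + [b|∇p|²/(2p) - |∇m + b∇p|²/(4(N₀+bp))]` and
`b|g|²/(2p) - |G + b g|²/(4(N₀+bp)) ≥ -|G|²/(4N₀+2bp)` for all vectors `g`, `G` (complete the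
square), `|∇m|² = lm P.Gm`; moreover `4t²(1-yy)N/yy² = t²(1-yy) lm p N ≤ t² lm p (N₀+bp)`.
So the left side of the hypothesis of `hyp_pde` is at least `lm` times the right side of the
criterion.  `N ≤ B(1+p)` with `B = max B₀ b`.
-/

noncomputable section

namespace Pool.Agent.SU2K

open Pool.Agent.SU2H
open scoped Quaternion ContDiff

namespace DiscHypAux

open Metric DiscPDEAux DiscFinalAux

/-- completing the square, one component -/
theorem sq_one {b p N₀ g G : ℝ} (hb : 0 < b) (hp : 0 < p) (hN : 0 < N₀) :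
    -(G ^ 2 / (4 * N₀ + 2 * b * p)) ≤
      b * g ^ 2 / (2 * p) - (G + b * g) ^ 2 / (4 * (N₀ + b * p)) := by
  have h1 : 0 < b * p := mul_pos hb hp
  have h2 : 0 < N₀ + b * p := by linarith
  have h3 : 0 < 2 * N₀ + b * p := by linarith
  have e : b * g ^ 2 / (2 * p) - (G + b * g) ^ 2 / (4 * (N₀ + b * p)) +
      G ^ 2 / (4 * N₀ + 2 * b * p) =
      b * (2 * N₀ + b * p) / (4 * (N₀ + b * p) * p) * (g - p * G / (2 * N₀ + b * p)) ^ 2 := by
    have h4 : 4 * N₀ + 2 * b * p = 2 * (2 * N₀ + b * p) := by ring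
    rw [h4]
    field_simp
    ring
  have h5 : 0 ≤ b * (2 * N₀ + b * p) / (4 * (N₀ + b * p) * p) *
      (g - p * G / (2 * N₀ + b * p)) ^ 2 := by positivity
  linarith

/-- completing the square -/
theorem sq_two {b p N₀ g1 g2 G1 G2 : ℝ} (hb : 0 < b) (hp : 0 < p) (hN : 0 < N₀) :
    -((G1 ^ 2 + G2 ^ 2) / (4 * N₀ + 2 * b * p)) ≤
      b * (g1 ^ 2 + g2 ^ 2) / (2 * p) -
        ((G1 + b * g1) ^ 2 + (G2 + b * g2) ^ 2) / (4 * (N₀ + b * p)) := by
  have h1 := sq_one (g := g1) (G := G1) hb hp hN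
  have h2 := sq_one (g := g2) (G := G2) hb hp hN
  rw [add_div, mul_add, add_div, add_div]
  linarith

/-- the pointwise inequality -/
theorem point {t b ε N₀ q K Gm Dm p y l G1 G2 g1 g2 L : ℝ} (hb : 0 < b) (hp : p = 4 / (y ^ 2 * l))
    (hl : 0 < l) (hy : 0 < y) (hN : 0 < N₀) (hG : G1 ^ 2 + G2 ^ 2 = l * Gm)
    (hL : L = 2 * l * p * (p + K) + (g1 ^ 2 + g2 ^ 2) / p)
    (hc : ε * (1 + p ^ 2) ≤ N₀ * q + Dm / 2 - Gm / (4 * N₀ + 2 * b * p)
      + p * (b * (q + K) - t ^ 2 * N₀) + b * (1 - t ^ 2) * p ^ 2) :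
    ε * (l * (1 + p ^ 2)) ≤ (l * Dm + b * L) / 2 - (N₀ + b * p) * (-(l * q))
      - ((G1 + b * g1) ^ 2 + (G2 + b * g2) ^ 2) / (4 * (N₀ + b * p))
      - 4 * t ^ 2 * (1 - y) * (N₀ + b * p) / y ^ 2 := by
  have hp0 : 0 < p := by rw [hp]; positivity
  have h1 := sq_two (g1 := g1) (g2 := g2) (G1 := G1) (G2 := G2) hb hp0 hN
  rw [hG] at h1
  have h2 : l * p = 4 / y ^ 2 := by
    rw [hp]
    field_simp
  have h3 : 4 * t ^ 2 * (1 - y) * (N₀ + b * p) / y ^ 2 = t ^ 2 * (1 - y) * (l * p) * (N₀ + b * p) := by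
    rw [h2]
    ring
  have h4 : 0 ≤ t ^ 2 * y * (l * p) * (N₀ + b * p) := by positivity
  have h5 := mul_le_mul_of_nonneg_left hc hl.le
  have h6 : l * Gm / (4 * N₀ + 2 * b * p) = l * (Gm / (4 * N₀ + 2 * b * p)) := mul_div_assoc _ _ _
  have h7 : (g1 ^ 2 + g2 ^ 2) / p * b / 2 = b * (g1 ^ 2 + g2 ^ 2) / (2 * p) := by
    field_simp
  rw [h3, hL]
  rw [h6] at h1
  nlinarith [h1, h4, h5, h7]

theorem lap_add_const (f : ℂ → ℝ) (κ : ℝ) (z : ℂ) : lap (fun w => f w + κ) z = lap f z := by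
  unfold lap
  simp only [fderiv_add_const]

theorem gr2_add_const (f : ℂ → ℝ) (κ : ℝ) (z : ℂ) : gr2 (fun w => f w + κ) z = gr2 f z := by
  unfold gr2
  simp only [fderiv_add_const]

end DiscHypAux

theorem disc_hyp {ℓ : Fin 3 → ℝ} {φ : ℂ → ℍ[ℝ]} {H : ℝ} (hℓ : ∀ i, 0 < ℓ i)
    (h : IsConfHSurface ℓ (Metric.ball 0 1) φ H)
    (hcomp : Complete (Metric.ball 0 1) (fun z => √(lam ℓ φ z))) (hgood : Good2 (sc ℓ) H) :
    ¬ StronglyStable ℓ (Metric.ball 0 1) φ := by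
  rintro ⟨u, huC, hupos, hueq⟩
  obtain ⟨hlamC, hmmC, hP⟩ := geom hℓ Metric.isOpen_ball h
  obtain ⟨t, κ, b, ε, ht, ht1, hb, hε, hcrit⟩ := hgood
  obtain ⟨a, b', ha, hab, hbd⟩ := DiscFinalAux.cq_bounds (DiscFinalAux.sc_pos hℓ)
  have hlamC2 : ContDiffOn ℝ 2 (lam ℓ φ) (Metric.ball 0 1) := hlamC.of_le (by norm_cast)
  have hmmC2 : ContDiffOn ℝ 2 (mm ℓ φ) (Metric.ball 0 1) := hmmC.of_le (by norm_cast)
  have hvC : ContDiffOn ℝ 2 (fun z => Real.log (u z)) (Metric.ball 0 1) :=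
    huC.log fun z hz => (hupos z hz).ne'
  obtain ⟨hppC, hpp⟩ := contDiffOn_pp hlamC2 h.immersed
  have hmB : ∀ z ∈ Metric.ball (0 : ℂ) 1, mm ℓ φ z ≤ b' / 2 := by
    intro z hz
    obtain ⟨P, hn, -⟩ := hP z hz
    have h1 := hbd _ P.o33
    rw [hn] at h1
    unfold mm
    linarith [h1.2]
  have hNpos : ∀ z ∈ Metric.ball (0 : ℂ) 1, ε ≤ mm ℓ φ z + κ := by
    intro z hz
    obtain ⟨P, hn, -⟩ := hP z hz
    have hm : mm ℓ φ z = P.m := by unfold mm PtData.m; rw [hn]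
    rw [hm]
    exact (hcrit P).1
  have hv : ∀ z ∈ Metric.ball (0 : ℂ) 1, ∀ P : PtData (sc ℓ) H, pot ℓ φ z = P.q →
      lap (fun w => Real.log (u w)) z + gr2 (fun w => Real.log (u w)) z =
        -(lam ℓ φ z * P.q) := by
    intro z hz P hq
    have hlpos := h.immersed z hz
    have hu := hupos z hz
    have hlog : ∀ t > (0 : ℝ), HasDerivAt Real.log (t⁻¹) t := fun t ht => Real.hasDerivAt_log ht.ne'
    have hinv : ∀ t > (0 : ℝ), HasDerivAt (fun t : ℝ => t⁻¹) (-(t ^ 2)⁻¹) t := fun t ht =>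
      hasDerivAt_inv ht.ne'
    have e3 : lap (fun w => Real.log (u w)) z =
        -((u z ^ 2)⁻¹) * ((fderiv ℝ u z 1) ^ 2 + (fderiv ℝ u z Complex.I) ^ 2) +
          (u z)⁻¹ * lap u z :=
      DiscFinalAux.lap_comp huC hlog hinv hupos hz
    have e4 : ∀ x : ℂ, fderiv ℝ (fun w => Real.log (u w)) z x = (u z)⁻¹ * fderiv ℝ u z x :=
      fun x => DiscFinalAux.chain1 huC hlog hupos hz x
    have e5 : lap u z = -(lam ℓ φ z * P.q * u z) := by
      have h1 := hueq z hz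
      rw [hq] at h1
      have h2 : lap u z = lam ℓ φ z * ((lam ℓ φ z)⁻¹ * lap u z) := by
        rw [← mul_assoc, mul_inv_cancel₀ hlpos.ne', one_mul]
      rw [h2]
      have h3 : (lam ℓ φ z)⁻¹ * lap u z = -(P.q * u z) := by linarith
      rw [h3]
      ring
    have e6 : (u z)⁻¹ * lap u z = -(lam ℓ φ z * P.q) := by
      rw [e5]
      field_simp
    have e8 : (u z ^ 2)⁻¹ = (u z)⁻¹ ^ 2 := by rw [inv_pow]
    unfold gr2
    rw [e3, e4, e4, e6, e8]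
    ring
  -- the first estimate
  obtain ⟨C, hC⟩ := hyp_int (N := fun z => mm ℓ φ z + κ) (B := b' / 2 + κ) ht ht1 hε
    hlamC2.continuousOn h.immersed (hmmC2.add contDiffOn_const) hvC
    (fun z hz => lt_of_lt_of_le hε (hNpos z hz)) (fun z hz => by linarith [hmB z hz])
    (fun z hz => by
      obtain ⟨P, hn, hK, hD, hGr, hq⟩ := hP z hz
      have hm : mm ℓ φ z = P.m := by unfold mm PtData.m; rw [hn]
      have hlpos := h.immersed z hz
      have h1 := (hcrit P).2 0 le_rfl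
      have h2 := mul_le_mul_of_nonneg_left h1 hlpos.le
      have hN := lt_of_lt_of_le hε (hcrit P).1
      rw [hv z hz P hq, DiscHypAux.lap_add_const, DiscHypAux.gr2_add_const, hD, gr2, hGr, hm]
      have h3 : lam ℓ φ z * P.Gm / (4 * (P.m + κ)) =
          lam ℓ φ z * (P.Gm / (4 * (P.m + κ) + 2 * b * 0)) := by
        rw [mul_zero, add_zero, mul_div_assoc]
      rw [h3]
      nlinarith [h2])
  -- the second estimate
  have hNC : ContDiffOn ℝ 2 (fun z => (mm ℓ φ z + κ) + b * pp (lam ℓ φ) z) (Metric.ball 0 1) :=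
    (hmmC2.add contDiffOn_const).add (contDiffOn_const.mul hppC)
  have hfd : ∀ z ∈ Metric.ball (0 : ℂ) 1, ∀ x : ℂ,
      fderiv ℝ (fun z => (mm ℓ φ z + κ) + b * pp (lam ℓ φ) z) z x =
        fderiv ℝ (mm ℓ φ) z x + b * fderiv ℝ (pp (lam ℓ φ)) z x := by
    intro z hz x
    rw [DiscPDEAux.fd_add (f := fun z => mm ℓ φ z + κ) (g := fun z => b * pp (lam ℓ φ) z)
      (hmmC2.add contDiffOn_const) (contDiffOn_const.mul hppC) hz x, fderiv_add_const,
      DiscPDEAux.fd_mul b hppC hz x]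
  refine hyp_pde (lm := lam ℓ φ) (N := fun z => (mm ℓ φ z + κ) + b * pp (lam ℓ φ) z)
    (v := fun z => Real.log (u z)) (B := max (b' / 2 + κ) b) (C := C) (ε := ε) ht ht1 hε
    hlamC2.continuousOn h.immersed hNC hvC ?_ ?_ ?_ hC hcomp
  · intro z hz
    have h1 := hNpos z hz
    have h2 := mul_pos hb (hpp z hz).2.2
    show 0 < (mm ℓ φ z + κ) + b * pp (lam ℓ φ) z
    linarith
  · intro z hz
    have h1 := hmB z hz
    have h2 := (hpp z hz).2.2
    have h3 := le_max_left (b' / 2 + κ) b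
    have h4 := mul_le_mul_of_nonneg_right (le_max_right (b' / 2 + κ) b) h2.le
    show (mm ℓ φ z + κ) + b * pp (lam ℓ φ) z ≤ _
    linarith
  · intro z hz
    obtain ⟨P, hn, hK, hD, hGr, hq⟩ := hP z hz
    have hm : mm ℓ φ z = P.m := by unfold mm PtData.m; rw [hn]
    have hlpos := h.immersed z hz
    obtain ⟨hy, hy1, hp0⟩ := hpp z hz
    have hN := lt_of_lt_of_le hε (hcrit P).1
    have hlap : lap (fun z => (mm ℓ φ z + κ) + b * pp (lam ℓ φ) z) z =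
        lam ℓ φ z * P.Dm + b * lap (pp (lam ℓ φ)) z := by
      have e1 : ∀ x : ℂ, fderiv ℝ (fun w => fderiv ℝ
          (fun z => (mm ℓ φ z + κ) + b * pp (lam ℓ φ) z) w x) z x =
          fderiv ℝ (fun w => fderiv ℝ (mm ℓ φ) w x) z x +
            b * fderiv ℝ (fun w => fderiv ℝ (pp (lam ℓ φ)) w x) z x := by
        intro x
        rw [DiscPDEAux.fd2_add (f := fun z => mm ℓ φ z + κ) (g := fun z => b * pp (lam ℓ φ) z)
          (hmmC2.add contDiffOn_const) (contDiffOn_const.mul hppC) hz x,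
          DiscPDEAux.fd2_mul b hppC hz x]
        simp only [fderiv_add_const]
      rw [← hD]
      unfold lap
      rw [e1, e1]
      ring
    have hpt := DiscHypAux.point (t := t) (b := b) (ε := ε) (N₀ := P.m + κ) (q := P.q) (K := P.K)
      (Gm := P.Gm) (Dm := P.Dm) (p := pp (lam ℓ φ) z) (y := yy z) (l := lam ℓ φ z)
      (G1 := fderiv ℝ (mm ℓ φ) z 1) (G2 := fderiv ℝ (mm ℓ φ) z Complex.I)
      (g1 := fderiv ℝ (pp (lam ℓ φ)) z 1) (g2 := fderiv ℝ (pp (lam ℓ φ)) z Complex.I)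
      (L := lap (pp (lam ℓ φ)) z) hb rfl hlpos hy hN hGr (lap_pp hlamC2 h.immersed hz hK)
      ((hcrit P).2 _ hp0.le)
    have hgr : gr2 (fun z => (mm ℓ φ z + κ) + b * pp (lam ℓ φ) z) z =
        (fderiv ℝ (mm ℓ φ) z 1 + b * fderiv ℝ (pp (lam ℓ φ)) z 1) ^ 2 +
          (fderiv ℝ (mm ℓ φ) z Complex.I + b * fderiv ℝ (pp (lam ℓ φ)) z Complex.I) ^ 2 := by
      unfold gr2
      rw [hfd z hz 1, hfd z hz Complex.I]
    rw [hlap, hv z hz P hq, hgr, hm]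
    exact hpt

theorem noStable_of_good2 {ℓ : Fin 3 → ℝ} {H : ℝ} (hℓ : ∀ i, 0 < ℓ i) (h : Good2 (sc ℓ) H) :
    NoStable ℓ H :=
  ⟨fun _ hφ => plane_final hℓ hφ, fun _ hφ hc => disc_hyp hℓ hφ hc h⟩

end Pool.Agent.SU2K
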