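import Pool.Agent.Lib.SU2K.PtE

/-!
# Elliptic coordinates

`c 0 = 1 ≤ c 1 ≤ c 2`, `D = c 1 * c 2`.  `M = C_T - ddᵀ/u` has trace `2T = a + v`, trace free part
`(m1, m2)`, and eigenvalues `a = T - √(m1²+m2²)`, `v = T + √(m1²+m2²)`.

Proof sketch.  Abbreviate `u = cq n n`, `d1 = cq e1 n`, `d2 = cq e2 n`, `c11`, `c12`, `c22`,
`nᵢ = P.n i`.
* `det M = a v = D/u`: `u (c11 c22 - c12²) - ... = det C` is `P.det_c`, and
  `T² - m1² - m2² = det M` (`field_simp; ring`).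
* `c11 c22 - c12² = c1 c2 n0² + c0 c2 n1² + c0 c1 n2²` (Cauchy–Binet; e.g. from `P.M_eq` and the
  adjugate/inverse, or from `e1 × e2 = ± n`, or: `P.e2_c` gives
  `c11 c22 - c12² = E₂ - u(c11+c22) + d1² + d2²` and `(Cn·Cn) = u² + d1² + d2² = Σ cᵢ² nᵢ²`
  (Parseval, `P.col`), so with `c11 + c22 = Σcᵢ - u`, everything is linear in the `nᵢ²`).
* hence `u·2T = u(c11+c22) - d1² - d2² = Σᵢ cᵢ (cⱼ+c_k) nᵢ²`, so `2 ≤ 2T ≤ 2 c 2`, and for each `i`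
  `u (cᵢ² - 2T cᵢ) + D = cᵢ nᵢ² (cᵢ-cⱼ)(cᵢ-c_k)`.  With `χ(x) = (x-a)(x-v) = x² - 2T x + D/u` this
  says `χ(1) ≥ 0`, `χ(c1) ≤ 0`, `χ(c2) ≥ 0`, whence `a ≤ c1 ≤ v`, and `1 ≤ a` (if `a < 1` then
  `χ(1) ≥ 0` forces `v ≤ 1`, contradicting `a + v ≥ 2`), `v ≤ c2` (same, with `a + v ≤ 2 c2`).
* `h3 = -((d1²-d2²) c12 - d1 d2 (c11-c22))/(2u)`, and
  `((d1²-d2²) c12 - d1 d2 (c11-c22))² = n0² n1² n2² ((c1-c0)(c2-c0)(c2-c1))²`: the determinant of the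
  matrix with columns `n, C n, C² n` computed in the standard basis and in the basis `e1, e2, n`
  (the orthogonal matrix `P.O` has `det² = 1`; see the proof of `PtData.det_c`; the components of
  `C² n` are `c11 d1 + c12 d2 + d1 u`, `c12 d1 + c22 d2 + d2 u`, `...`).  Multiply the three
  relations `u χ(cᵢ) = cᵢ nᵢ² (cᵢ-cⱼ)(cᵢ-c_k)`:
  `u³ χ(1)χ(c1)χ(c2) = - D n0² n1² n2² ((c1-c0)(c2-c0)(c2-c1))²`, so
  `4 u² h3² D = -u³ χ(1)χ(c1)χ(c2) = u³ (a-1)(c1-a)(c2-a)(v-1)(v-c1)(c2-v)`, and `D = a v u`.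
-/

noncomputable section

namespace Pool.Agent.SU2K

open Pool.Agent.SU2H

namespace EllAux

section
variable {c : Fin 3 → ℝ} {H : ℝ} (P : PtData c H)

private theorem parseval_nn : cq c P.e1 P.n ^ 2 + cq c P.e2 P.n ^ 2 + cq c P.n P.n ^ 2 =
    c 0 ^ 2 * P.n 0 ^ 2 + c 1 ^ 2 * P.n 1 ^ 2 + c 2 ^ 2 * P.n 2 ^ 2 := by
  have h00 := P.col 0 0
  have h11 := P.col 1 1
  have h22 := P.col 2 2
  have h01 := P.col 0 1
  have h02 := P.col 0 2
  have h12 := P.col 1 2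
  simp at h00 h11 h22 h01 h02 h12
  simp only [cq, Fin.sum_univ_three]
  linear_combination (c 0 * P.n 0) ^ 2 * h00 + (c 1 * P.n 1) ^ 2 * h11
    + (c 2 * P.n 2) ^ 2 * h22 + 2 * (c 0 * P.n 0) * (c 1 * P.n 1) * h01
    + 2 * (c 0 * P.n 0) * (c 2 * P.n 2) * h02 + 2 * (c 1 * P.n 1) * (c 2 * P.n 2) * h12

/-- the form of `C²` -/
private def cq2 (c x y : Fin 3 → ℝ) : ℝ := ∑ i, c i ^ 2 * x i * y i

private theorem parseval (x : Fin 3 → ℝ) : cq2 c x P.n =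
    cq c x P.e1 * cq c P.e1 P.n + cq c x P.e2 * cq c P.e2 P.n + cq c x P.n * cq c P.n P.n := by
  have h00 := P.col 0 0
  have h11 := P.col 1 1
  have h22 := P.col 2 2
  have h01 := P.col 0 1
  have h02 := P.col 0 2
  have h12 := P.col 1 2
  simp at h00 h11 h22 h01 h02 h12
  simp only [cq, cq2, Fin.sum_univ_three]
  linear_combination -(c 0 * P.n 0 * (c 0 * x 0)) * h00 - (c 1 * P.n 1 * (c 1 * x 1)) * h11
    - (c 2 * P.n 2 * (c 2 * x 2)) * h22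
    - ((c 0 * P.n 0) * (c 1 * x 1) + (c 1 * P.n 1) * (c 0 * x 0)) * h01
    - ((c 0 * P.n 0) * (c 2 * x 2) + (c 2 * P.n 2) * (c 0 * x 0)) * h02
    - ((c 1 * P.n 1) * (c 2 * x 2) + (c 2 * P.n 2) * (c 1 * x 1)) * h12

/-- the matrix with columns `n, C n, C² n` -/
private def N : Matrix (Fin 3) (Fin 3) ℝ :=
  !![P.n 0, c 0 * P.n 0, c 0 ^ 2 * P.n 0;
     P.n 1, c 1 * P.n 1, c 1 ^ 2 * P.n 1;
     P.n 2, c 2 * P.n 2, c 2 ^ 2 * P.n 2]

private theorem det_N : (N P).det =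
    P.n 0 * P.n 1 * P.n 2 * ((c 1 - c 0) * (c 2 - c 0) * (c 2 - c 1)) := by
  rw [N, Matrix.det_fin_three]
  simp
  ring

private theorem O_N : P.O * N P = !![0, cq c P.e1 P.n, cq2 c P.e1 P.n;
    0, cq c P.e2 P.n, cq2 c P.e2 P.n;
    1, cq c P.n P.n, cq2 c P.n P.n] := by
  have h33 := P.o33
  have h13 := P.o13
  have h23 := P.o23
  simp only [Fin.sum_univ_three] at h33 h13 h23
  ext i j
  fin_cases i <;> fin_cases j <;>
    simp [N, PtData.O, Matrix.mul_apply, Fin.sum_univ_three, cq, cq2] <;> linarith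

private theorem W_sq : ((cq c P.e1 P.n ^ 2 - cq c P.e2 P.n ^ 2) * cq c P.e1 P.e2
    - cq c P.e1 P.n * cq c P.e2 P.n * (cq c P.e1 P.e1 - cq c P.e2 P.e2)) ^ 2 =
    P.n 0 ^ 2 * P.n 1 ^ 2 * P.n 2 ^ 2 * ((c 1 - c 0) * (c 2 - c 0) * (c 2 - c 1)) ^ 2 := by
  have h2 : P.O.det * P.O.det = 1 := by
    have h3 : P.O.det * P.O.transpose.det = 1 := by
      rw [← Matrix.det_mul, P.O_mul, Matrix.det_one]
    rwa [Matrix.det_transpose] at h3
  have h3 : (P.O * N P).det = P.O.det * (N P).det := Matrix.det_mul _ _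
  have h4 : (P.O * N P).det = cq c P.e1 P.n * cq2 c P.e2 P.n - cq c P.e2 P.n * cq2 c P.e1 P.n := by
    rw [O_N, Matrix.det_fin_three]
    simp
    ring
  have hs : ∀ x y : Fin 3 → ℝ, cq c x y = cq c y x := by
    intro x y
    simp only [cq, Fin.sum_univ_three]
    ring
  rw [parseval P P.e1, parseval P P.e2, hs P.e2 P.e1, h3, det_N] at h4
  have h5 : (P.O.det * (P.n 0 * P.n 1 * P.n 2 * ((c 1 - c 0) * (c 2 - c 0) * (c 2 - c 1)))) ^ 2 =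
      P.n 0 ^ 2 * P.n 1 ^ 2 * P.n 2 ^ 2 * ((c 1 - c 0) * (c 2 - c 0) * (c 2 - c 1)) ^ 2 := by
    linear_combination (P.n 0 ^ 2 * P.n 1 ^ 2 * P.n 2 ^ 2 *
      ((c 1 - c 0) * (c 2 - c 0) * (c 2 - c 1)) ^ 2) * h2
  rw [← h5, h4]
  ring

end

end EllAux

open EllAux in
theorem ell {c : Fin 3 → ℝ} {H : ℝ} (P : PtData c H) (h0 : c 0 = 1) (h1 : 1 ≤ c 1)
    (h2 : c 1 ≤ c 2) :
    ∃ a v : ℝ, 1 ≤ a ∧ a ≤ c 1 ∧ c 1 ≤ v ∧ v ≤ c 2 ∧ TT P = (a + v) / 2 ∧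
      a * v * uu P = c 1 * c 2 ∧ 1 ≤ uu P ∧ uu P ≤ c 2 ∧
      4 * (a * v) * h3 P ^ 2 =
        (a - 1) * (c 1 - a) * (c 2 - a) * ((v - 1) * (v - c 1) * (c 2 - v)) := by
  set u := uu P with hu
  have hun : cq c P.n P.n = u := rfl
  have hsum : P.n 0 ^ 2 + P.n 1 ^ 2 + P.n 2 ^ 2 = 1 := by
    have h33 := P.o33
    simp only [Fin.sum_univ_three] at h33
    linarith
  have huc : u = P.n 0 ^ 2 + c 1 * P.n 1 ^ 2 + c 2 * P.n 2 ^ 2 := by
    rw [← hun]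
    simp only [cq, Fin.sum_univ_three, h0]
    ring
  have hs0 : 0 ≤ P.n 0 ^ 2 := sq_nonneg _
  have hs1 : 0 ≤ P.n 1 ^ 2 := sq_nonneg _
  have hs2 : 0 ≤ P.n 2 ^ 2 := sq_nonneg _
  have hu1 : 1 ≤ u := by nlinarith
  have hu2 : u ≤ c 2 := by nlinarith
  have hu0 : u ≠ 0 := by positivity
  have hupos : 0 < u := by linarith
  have htr := P.tr_c
  have hdet := P.det_c
  have hpn := parseval_nn P
  have hW := W_sq P
  rw [hun] at htr hdet hpn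
  have hh3 : h3 P = -((cq c P.e1 P.n ^ 2 - cq c P.e2 P.n ^ 2) * cq c P.e1 P.e2
      - cq c P.e1 P.n * cq c P.e2 P.n * (cq c P.e1 P.e1 - cq c P.e2 P.e2)) / (2 * u) := by
    unfold h3 m1 m2
    rw [← hu]
    field_simp
    ring
  have hTu : 2 * TT P * u = P.n 0 ^ 2 * (c 1 + c 2) + c 1 * P.n 1 ^ 2 * (1 + c 2)
      + c 2 * P.n 2 ^ 2 * (1 + c 1) := by
    have : 2 * TT P * u = (cq c P.e1 P.e1 + cq c P.e2 P.e2) * u
        - (cq c P.e1 P.n ^ 2 + cq c P.e2 P.n ^ 2) := by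
      unfold TT
      rw [← hu]
      field_simp
    rw [this]
    rw [h0] at htr hpn
    linear_combination u * htr - hpn + (1 + c 1 + c 2) * huc
  have hdM : (TT P ^ 2 - (m1 P ^ 2 + m2 P ^ 2)) * u = c 1 * c 2 := by
    rw [h0] at hdet
    rw [← one_mul (c 1), ← hdet]
    unfold TT m1 m2
    rw [← hu]
    field_simp
    ring
  obtain ⟨r, hr0, hr⟩ : ∃ r : ℝ, 0 ≤ r ∧ r ^ 2 = m1 P ^ 2 + m2 P ^ 2 :=
    ⟨√(m1 P ^ 2 + m2 P ^ 2), Real.sqrt_nonneg _, Real.sq_sqrt (by positivity)⟩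
  rw [← hr] at hdM
  generalize TT P = T at *
  obtain ⟨a, ha⟩ : ∃ a, a = T - r := ⟨_, rfl⟩
  obtain ⟨v, hv⟩ : ∃ v, v = T + r := ⟨_, rfl⟩
  have hav : a * v * u = c 1 * c 2 := by
    rw [← hdM, ha, hv]; ring
  have hTa : a + v = 2 * T := by rw [ha, hv]; ring
  have hle : a ≤ v := by rw [ha, hv]; linarith
  have x0 : u * ((1 - a) * (1 - v)) = P.n 0 ^ 2 * ((c 1 - 1) * (c 2 - 1)) := by
    linear_combination hav - u * hTa - hTu + huc - (c 1 * c 2) * hsum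
  have x1 : u * ((c 1 - a) * (c 1 - v)) = - (c 1 * P.n 1 ^ 2 * ((c 1 - 1) * (c 2 - c 1))) := by
    linear_combination hav - c 1 * u * hTa - c 1 * hTu + c 1 ^ 2 * huc - (c 1 * c 2) * hsum
  have x2 : u * ((c 2 - a) * (c 2 - v)) = c 2 * P.n 2 ^ 2 * ((c 2 - 1) * (c 2 - c 1)) := by
    linear_combination hav - c 2 * u * hTa - c 2 * hTu + c 2 ^ 2 * huc - (c 1 * c 2) * hsum
  have y0 : 0 ≤ (1 - a) * (1 - v) := by
    refine nonneg_of_mul_nonneg_right ?_ hupos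
    rw [x0]
    exact mul_nonneg hs0 (mul_nonneg (by linarith) (by linarith))
  have y1 : 0 ≤ (c 1 - a) * (v - c 1) := by
    refine nonneg_of_mul_nonneg_right ?_ hupos
    have : u * ((c 1 - a) * (v - c 1)) = c 1 * P.n 1 ^ 2 * ((c 1 - 1) * (c 2 - c 1)) := by
      linear_combination -x1
    rw [this]
    exact mul_nonneg (mul_nonneg (by linarith) hs1) (mul_nonneg (by linarith) (by linarith))
  have y2 : 0 ≤ (c 2 - a) * (c 2 - v) := by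
    refine nonneg_of_mul_nonneg_right ?_ hupos
    rw [x2]
    exact mul_nonneg (mul_nonneg (by linarith) hs2) (mul_nonneg (by linarith) (by linarith))
  have h12 : 1 ≤ c 2 := h1.trans h2
  have c1n : 0 ≤ c 1 := by linarith
  have c2n : 0 ≤ c 2 := by linarith
  have T1 : 2 ≤ 2 * T := by
    refine le_of_mul_le_mul_right ?_ hupos
    rw [hTu, huc]
    have q0 := mul_nonneg hs0 (sub_nonneg.2 h1)
    have q0' := mul_nonneg hs0 (sub_nonneg.2 h12)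
    have q1 := mul_nonneg hs1 (mul_nonneg c1n (sub_nonneg.2 h12))
    have q2 := mul_nonneg hs2 (mul_nonneg c2n (sub_nonneg.2 h1))
    linarith
  have T2 : 2 * T ≤ 2 * c 2 := by
    refine le_of_mul_le_mul_right ?_ hupos
    rw [hTu, huc]
    have q0 := mul_nonneg hs0 (sub_nonneg.2 h2)
    have q1 := mul_nonneg hs1 (mul_nonneg c1n (sub_nonneg.2 h12))
    have q2 := mul_nonneg hs2 (mul_nonneg c2n (sub_nonneg.2 h12))
    have q3 := mul_nonneg hs2 (mul_nonneg c2n (sub_nonneg.2 h2))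
    linarith
  have z1 : 1 ≤ a := by
    by_contra hc
    push Not at hc
    have : 0 ≤ 1 - v := nonneg_of_mul_nonneg_right y0 (by linarith)
    linarith
  have z2 : a ≤ c 1 := by
    by_contra hc
    push Not at hc
    exact absurd y1 (not_le.2 (mul_neg_of_neg_of_pos (sub_neg.2 hc)
      (sub_pos.2 (lt_of_lt_of_le hc hle))))
  have z3 : c 1 ≤ v := by
    by_contra hc
    push Not at hc
    exact absurd y1 (not_le.2 (mul_neg_of_pos_of_neg (sub_pos.2 (lt_of_le_of_lt hle hc))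
      (sub_neg.2 hc)))
  have z4 : v ≤ c 2 := by
    by_contra hc
    push Not at hc
    have : 0 ≤ a - c 2 := by
      refine nonneg_of_mul_nonneg_right (a := v - c 2) ?_ (sub_pos.2 hc)
      have e : (v - c 2) * (a - c 2) = (c 2 - a) * (c 2 - v) := by ring
      rw [e]
      exact y2
    linarith
  refine ⟨a, v, z1, z2, z3, z4, by linarith, hav, hu1, hu2, ?_⟩
  have hu3 : u ^ 3 ≠ 0 := by positivity
  refine mul_left_cancel₀ hu3 ?_
  rw [hh3]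
  generalize (cq c P.e1 P.n ^ 2 - cq c P.e2 P.n ^ 2) * cq c P.e1 P.e2
    - cq c P.e1 P.n * cq c P.e2 P.n * (cq c P.e1 P.e1 - cq c P.e2 P.e2) = W at hW
  have e1 : u ^ 3 * (4 * (a * v) * (-W / (2 * u)) ^ 2) = a * v * u * W ^ 2 := by
    field_simp
    ring
  have e2 : u ^ 3 * ((a - 1) * (c 1 - a) * (c 2 - a) * ((v - 1) * (v - c 1) * (c 2 - v))) =
      -((u * ((1 - a) * (1 - v))) * (u * ((c 1 - a) * (c 1 - v))) *
        (u * ((c 2 - a) * (c 2 - v)))) := by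
    ring
  rw [e1, e2, x0, x1, x2, hav, hW, h0]
  ring

end Pool.Agent.SU2K
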