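import Mathlib

/-!
# A polynomial inequality

The minimum over `0 ≤ s ≤ 1`, `0 ≤ x` is `0.001022` (at `s = 0`, `x = 0.0005`); for `s = 1` the
minimum over `x` is `0.00196` (at `x = 0.369`), for `s = 1/2` it is `0.0057` (at `x = 0.224`), so
`1/1000` is true with little room at `s = 0`, `x = 0` only.  The left side is a cubic
`A₀ + A₁ x + A₂ x² + A₃ x³` in `x` whose coefficients are polynomials in `s` of degree at most `2`.
Proof idea: use `x³ ≥ 2k x² - k² x` (i.e. `x (x-k)² ≥ 0`) with `k = k(s) ≥ 0` affine in `s`, e.g.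
close to the minimiser `x ≈ 0.37 s^(…)`, then it is a quadratic in `x` with polynomial coefficients
in `s`; certify with Bernstein coefficients in `s` or `nlinarith`.
-/

noncomputable section

namespace Pool.Agent.SU2K

theorem polyB {s x : ℝ} (h0 : 0 ≤ s) (h1 : s ≤ 1) (hx : 0 ≤ x) :
    1 / 1000 ≤ 5 / 18 * ((2 * (23 / 200) + 3 * x) * (1 + s + 2 * (23 / 200) + x)
        + (2 * (23 / 200) + x) * (1 - s))
      + (-(23 / 200) * (1 - s) - x - 201 / 1280 * x * (s + 23 / 200) + 37 / 80 * x ^ 2)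
        * (1 + s + 2 * (23 / 200) + x) := by
  have hu : 0 ≤ 1 - s := by linarith
  obtain ⟨N, hN⟩ : ∃ N : ℝ, N = 41887 / 76800000 + 1245661 / 2304000 * s + 201 / 1280 * s ^ 2
    + 37 / 80 * (37 / 100 * s) ^ 2 := ⟨_, rfl⟩
  obtain ⟨P, hP⟩ : ∃ P : ℝ, P = 295027 / 768000 + 391 / 1280 * s
    + 2 * (37 / 80) * (37 / 100 * s) := ⟨_, rfl⟩
  obtain ⟨A, hA⟩ : ∃ A : ℝ, A = 1 / 45000 + 529 / 20000 * s + 23 / 200 * s ^ 2 := ⟨_, rfl⟩
  have hP0 : 0 < P := by rw [hP]; positivity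
  have hD : 0 ≤ 4 * A * P - N ^ 2 := by
    have e0 : 0 ≤ (1 - s) ^ 4 := pow_nonneg hu 4
    have e1 : 0 ≤ s * (1 - s) ^ 3 := mul_nonneg h0 (pow_nonneg hu 3)
    have e2 : 0 ≤ s ^ 2 * (1 - s) ^ 2 := mul_nonneg (pow_nonneg h0 2) (pow_nonneg hu 2)
    have e3 : 0 ≤ s ^ 3 * (1 - s) := mul_nonneg (pow_nonneg h0 3) hu
    have e4 : 0 ≤ s ^ 4 := pow_nonneg h0 4
    rw [hA, hP, hN]
    nlinarith [e0, e1, e2, e3, e4]
  have hq : 0 ≤ A - N * x + P * x ^ 2 := by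
    have h4 : 0 ≤ 4 * P * (A - N * x + P * x ^ 2) := by
      nlinarith [sq_nonneg (2 * P * x - N), hD]
    by_contra h
    have := mul_neg_of_pos_of_neg (by positivity : 0 < 4 * P) (not_le.mp h)
    linarith
  have hc : 0 ≤ 37 / 80 * (x * (x - 37 / 100 * s) ^ 2) := by positivity
  rw [hA, hP, hN] at hq
  nlinarith [hq, hc]

end Pool.Agent.SU2K
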