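import Pool.Agent.Lib.SU2K.Defs
import Pool.Agent.Lib.SU2K.PolyB
import Pool.Agent.Lib.SU2H.GoodBerger

/-!
# Berger metrics, second criterion

Let `k = c 2 - c 0 > 0`, `D = c 2 k`, `δ = 23/200`, `β = 8/5`.  Take `t = 501/1000`,
`κ = (k δ - c 0)/2`, `b = β/(2 c 2)` in `Good2`.  For `P : PtData c H` put `s = (n 2)²`.
The identities of `Pool.Agent.Lib.SU2H.GoodBerger` (`q_id`, `K_id`, `Dm_id`, `W_id`, `W_sq`, `cqb`
and the beginning of `GoodBergerAux.main`; copy what is needed) give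
`m = (c 0 + k s)/2`, so `m + κ = k (s + δ)/2`;  `q = 2ρ + 2X - D(1-s)`, `q + K = 3ρ + X - D`
(`ρ = H² + (c 2)²/4`, `X = j² + l²`), `Gm = k² s Γ`, `Dm = k (Γ - q s)`,
`Γ = (1-s)(ρ+X) + W` with `W² ≤ 4 (1-s)² ρ X`, so `Γ ≥ (1-s)(√ρ - √X)² ≥ 0`.
With `x = β p/D`, i.e. `p = D x/β`, `b p = k x/2`:
`(right side of the criterion)/(k/2) = δ q + Γ (2δ+x)/(2s+2δ+x) + x (q+K) - (t²/β) D x (s+δ)
   + ((1-t²)/β) D x²`
`≥ ρ (2δ+3x) + X (2δ+x) + γ (√ρ-√X)² - Dδ(1-s) - D x - (201/1280) D x (s+δ) + (37/80) D x²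
   + (D/250) x²`,
with `γ = (1-s)(2δ+x)/(2s+2δ+x)`, since `t² ≤ 201/800`, `1 - t² ≥ 37/50 + 8/1000`.
With `B = 2δ + x`: `B X + γ (√ρ-√X)² ≥ ρ B γ/(B+γ) = ρ B (1-s)/(1+s+B)` (Cauchy; complete the
square).  So the right side is at least
`ρ [2δ+3x + B(1-s)/(1+s+B)] - Dδ(1-s) - D x - ...`, which is increasing in `ρ`, and `ρ ≥ (5/18) D`
is the hypothesis.  For `ρ = (5/18) D` it is `D/(1+s+B)` times the left side of `polyB` (plus
`(D/250) x²`), hence `≥ D (1/(1000 (1+s+2δ+x)) + x²/250) ≥ ε' (1 + x²)`.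
Finally `m + κ ≥ k δ/2 > 0`.
-/

noncomputable section

namespace Pool.Agent.SU2K

open Pool.Agent.SU2H

namespace GoodBerger2Aux

open GoodBergerAux

/-- the data of a point in terms of `s`, `X`, `Γ`, `W` -/
theorem data {c : Fin 3 → ℝ} {H : ℝ} (h01 : c 0 = c 1) {κ : ℝ} (hκ : κ = c 2 - c 0)
    (P : PtData c H) :
    ∃ s X Γ W : ℝ, 0 ≤ s ∧ s ≤ 1 ∧ 0 ≤ X ∧ P.m = (c 0 + κ * s) / 2 ∧
      P.q = 2 * (H ^ 2 + c 2 ^ 2 / 4) + 2 * X - c 2 * κ * (1 - s) ∧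
      P.K = (H ^ 2 + c 2 ^ 2 / 4) - X - c 2 * κ * s ∧
      P.Dm = κ * (Γ - P.q * s) ∧ P.Gm = κ ^ 2 * s * Γ ∧
      Γ = (1 - s) * (H ^ 2 + c 2 ^ 2 / 4 + X) + W ∧
      W ^ 2 ≤ 4 * (1 - s) ^ 2 * (H ^ 2 + c 2 ^ 2 / 4) * X := by
  have hxyz : P.e1 2 ^ 2 + P.e2 2 ^ 2 + P.n 2 ^ 2 = 1 := by
    have := P.col 2 2
    simp only [if_true] at this
    linear_combination this
  have ht0 : 0 ≤ P.n 2 ^ 2 := sq_nonneg _
  have ht1 : P.n 2 ^ 2 ≤ 1 := by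
    have s1 := sq_nonneg (P.e1 2)
    have s2 := sq_nonneg (P.e2 2)
    linarith
  have hc11 : cq c P.e1 P.e1 = c 0 + κ * P.e1 2 ^ 2 := by
    rw [cqb h01, P.o11, hκ]; ring
  have hc22 : cq c P.e2 P.e2 = c 0 + κ * P.e2 2 ^ 2 := by
    rw [cqb h01, P.o22, hκ]; ring
  have hcnn : cq c P.n P.n = c 0 + κ * P.n 2 ^ 2 := by
    rw [cqb h01, P.o33, hκ]; ring
  have hc12 : cq c P.e1 P.e2 = κ * P.e1 2 * P.e2 2 := by
    rw [cqb h01, P.o12, hκ]; ring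
  have hd1 : cq c P.e1 P.n = κ * P.e1 2 * P.n 2 := by
    rw [cqb h01, P.o13, hκ]; ring
  have hd2 : cq c P.e2 P.n = κ * P.e2 2 * P.n 2 := by
    rw [cqb h01, P.o23, hκ]; ring
  have hB22 : P.B22 = 2 * H - P.B11 := by linarith [P.tr]
  have hB12 : P.B12 = P.B21 + (c 0 + κ * P.n 2 ^ 2) := by linarith [P.skew, hcnn]
  have hσ : (c 0 + c 1 + c 2) / 2 = (3 * c 0 + κ) / 2 := by rw [← h01, hκ]; ring
  have hc2 : c 2 = c 0 + κ := by rw [hκ]; ring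
  have hq := q_id (c 0) κ H P.B11 P.B21 (P.e1 2) (P.e2 2) (P.n 2)
  have hK := K_id (c 0) κ H P.B11 P.B21 (P.e1 2) (P.e2 2) (P.n 2)
  have hDm := Dm_id (c 0) κ H P.B11 P.B21 (P.e1 2) (P.e2 2) (P.n 2)
  have hW := W_id (c 0) κ H P.B11 P.B21 (P.e1 2) (P.e2 2) (P.n 2)
  rw [hxyz, mul_one] at hq hK hDm hW
  have hWs := W_sq H (c 0 + κ) (P.B11 + κ * P.e1 2 * P.e2 2 - H)
    (P.B21 + (3 * c 0 + κ) / 2 - (c 0 + κ * P.e1 2 ^ 2)) (P.e1 2) (P.e2 2)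
  have eq : P.q = 2 * (H ^ 2 + (c 0 + κ) ^ 2 / 4)
      + 2 * ((P.B11 + κ * P.e1 2 * P.e2 2 - H) ^ 2
        + (P.B21 + (3 * c 0 + κ) / 2 - (c 0 + κ * P.e1 2 ^ 2)) ^ 2)
      - (c 0 + κ) * (κ * (P.e1 2 ^ 2 + P.e2 2 ^ 2)) := by
    rw [← hq]
    unfold PtData.q
    rw [hc11, hc12, hc22, hσ, hB22]
  have eK : P.K = (H ^ 2 + (c 0 + κ) ^ 2 / 4)
      - ((P.B11 + κ * P.e1 2 * P.e2 2 - H) ^ 2
        + (P.B21 + (3 * c 0 + κ) / 2 - (c 0 + κ * P.e1 2 ^ 2)) ^ 2)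
      - (c 0 + κ) * (κ * P.n 2 ^ 2) := by
    rw [← hK]
    unfold PtData.K
    rw [hc11, hc12, hc22, hcnn, hd1, hd2, hB22, hB12]
  have eD : P.Dm = κ * (((P.B11 * P.e1 2 + P.B21 * P.e2 2) ^ 2
      + ((P.B21 + (c 0 + κ * P.n 2 ^ 2)) * P.e1 2 + (2 * H - P.B11) * P.e2 2) ^ 2)
      - P.q * P.n 2 ^ 2) := by
    rw [eq, ← hDm]
    unfold PtData.Dm
    rw [hc11, hc12, hc22, hcnn, hd1, hd2, hB22, hB12]
  have eG : P.Gm = κ ^ 2 * P.n 2 ^ 2 * ((P.B11 * P.e1 2 + P.B21 * P.e2 2) ^ 2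
      + ((P.B21 + (c 0 + κ * P.n 2 ^ 2)) * P.e1 2 + (2 * H - P.B11) * P.e2 2) ^ 2) := by
    unfold PtData.Gm
    rw [hd1, hd2, hB22, hB12]
    ring
  have hxy : P.e1 2 ^ 2 + P.e2 2 ^ 2 = 1 - P.n 2 ^ 2 := by linarith
  rw [hxy] at eq hWs hW
  rw [← hc2] at eq eK hWs hW
  refine ⟨P.n 2 ^ 2, _, _, _, ht0, ht1, ?_, ?_, ?_, ?_, eD, eG, hW, hWs⟩
  · positivity
  · unfold PtData.m
    rw [hcnn]
  · rw [eq]
    ring
  · rw [eK]
    ring

/-- the estimate which replaces the Cauchy inequality -/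
theorem cauchy {ρ X W s B M : ℝ} (h0 : 0 ≤ s) (hB : 0 < B) (hM : M = 1 + s + B)
    (hX : 0 ≤ X) (hρ : 0 ≤ ρ) (hW : W ^ 2 ≤ 4 * (1 - s) ^ 2 * ρ * X) :
    ρ * B * (1 - s) / M ≤ B * X + ((1 - s) * (ρ + X) + W) * B / (2 * s + B) := by
  have hM0 : 0 < M := by rw [hM]; positivity
  have hN0 : 0 < 2 * s + B := by positivity
  have hsq : (M * W) ^ 2 ≤ (M ^ 2 * X + ρ * (1 - s) ^ 2) ^ 2 := by
    have e1 : (M * W) ^ 2 = M ^ 2 * W ^ 2 := by ring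
    have e2 : M ^ 2 * W ^ 2 ≤ M ^ 2 * (4 * (1 - s) ^ 2 * ρ * X) :=
      mul_le_mul_of_nonneg_left hW (sq_nonneg _)
    have e3 : M ^ 2 * (4 * (1 - s) ^ 2 * ρ * X) =
        (M ^ 2 * X + ρ * (1 - s) ^ 2) ^ 2 - (M ^ 2 * X - ρ * (1 - s) ^ 2) ^ 2 := by ring
    have e4 := sq_nonneg (M ^ 2 * X - ρ * (1 - s) ^ 2)
    rw [e1]
    linarith
  have hnn : 0 ≤ M ^ 2 * X + ρ * (1 - s) ^ 2 := by positivity
  have hlow := (abs_le_of_sq_le_sq' hsq hnn).1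
  have e : B * X + ((1 - s) * (ρ + X) + W) * B / (2 * s + B) - ρ * B * (1 - s) / M =
      B * (M ^ 2 * X + ρ * (1 - s) ^ 2 + M * W) / ((2 * s + B) * M) := by
    have hN := hN0.ne'
    have hM1 := hM0.ne'
    field_simp
    rw [hM]
    ring
  have h2 : 0 ≤ B * (M ^ 2 * X + ρ * (1 - s) ^ 2 + M * W) / ((2 * s + B) * M) := by
    apply div_nonneg
    · apply mul_nonneg hB.le
      linarith
    · positivity
  linarith

/-- the real inequality -/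
theorem fin2 {ρ X W s D x : ℝ} (h0 : 0 ≤ s) (h1 : s ≤ 1) (hX : 0 ≤ X) (hD : 0 < D)
    (hx : 0 ≤ x) (hρ : 5 / 18 * D ≤ ρ) (hW : W ^ 2 ≤ 4 * (1 - s) ^ 2 * ρ * X) :
    D * (1 + x ^ 2) / 7000 ≤ 23 / 200 * (2 * ρ + 2 * X - D * (1 - s))
      + ((1 - s) * (ρ + X) + W) * (23 / 100 + x) / (2 * s + (23 / 100 + x))
      + x * (3 * ρ + X - D) - 251001 / 1600000 * D * x * (s + 23 / 200)
      + 748999 / 1600000 * D * x ^ 2 := by
  obtain ⟨M, hM⟩ : ∃ M, M = 1 + s + (23 / 100 + x) := ⟨_, rfl⟩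
  have hM0 : 0 < M := by rw [hM]; positivity
  have hρ0 : 0 ≤ ρ := le_trans (by positivity) hρ
  have hC := cauchy h0 (show 0 < 23 / 100 + x by positivity) hM hX hρ0 hW
  have hP := polyB h0 h1 hx
  have hs1 : 0 ≤ 1 - s := by linarith
  have hcf : 5 / 18 * D * (23 / 100 + 3 * x + (23 / 100 + x) * (1 - s) / M) ≤
      ρ * (23 / 100 + 3 * x + (23 / 100 + x) * (1 - s) / M) := by
    apply mul_le_mul_of_nonneg_right hρ
    positivity
  have e1 : ρ * (23 / 100 + x) * (1 - s) / M = ρ * ((23 / 100 + x) * (1 - s) / M) := by ring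
  rw [e1] at hC
  -- the lower bound times `M`
  have hlow : D * (1 + x ^ 2) / 7000 ≤
      5 / 18 * D * (23 / 100 + 3 * x + (23 / 100 + x) * (1 - s) / M)
      - 23 / 200 * D * (1 - s) - D * x - 251001 / 1600000 * D * x * (s + 23 / 200)
      + 748999 / 1600000 * D * x ^ 2 := by
    have e2 : 5 / 18 * D * (23 / 100 + 3 * x + (23 / 100 + x) * (1 - s) / M)
        - 23 / 200 * D * (1 - s) - D * x - 251001 / 1600000 * D * x * (s + 23 / 200)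
        + 748999 / 1600000 * D * x ^ 2 - D * (1 + x ^ 2) / 7000 =
        D / M * (5 / 18 * ((23 / 100 + 3 * x) * M + (23 / 100 + x) * (1 - s))
          + (-(23 / 200) * (1 - s) - x - 251001 / 1600000 * x * (s + 23 / 200)
            + 748999 / 1600000 * x ^ 2) * M - M * (1 + x ^ 2) / 7000) := by
      have hM1 := hM0.ne'
      field_simp
      ring
    have h3 : 0 ≤ 5 / 18 * ((23 / 100 + 3 * x) * M + (23 / 100 + x) * (1 - s))
          + (-(23 / 200) * (1 - s) - x - 251001 / 1600000 * x * (s + 23 / 200)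
            + 748999 / 1600000 * x ^ 2) * M - M * (1 + x ^ 2) / 7000 := by
      have h4 : 0 ≤ x * (s + 23 / 200) * M := by positivity
      have h5 : 0 ≤ x ^ 2 * M := by positivity
      have h6 : 0 ≤ 7 - M + 27 * (x ^ 2 * M) := by
        have h7 : x ^ 2 * 1 ≤ x ^ 2 * M := by
          apply mul_le_mul_of_nonneg_left _ (sq_nonneg _)
          rw [hM]
          linarith
        have h8 := sq_nonneg (x - 1 / 2)
        have h9 : M ≤ 223 / 100 + x := by rw [hM]; linarith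
        nlinarith
      have h10 : 5 / 18 * ((2 * (23 / 200) + 3 * x) * (1 + s + 2 * (23 / 200) + x)
          + (2 * (23 / 200) + x) * (1 - s))
          + (-(23 / 200) * (1 - s) - x - 201 / 1280 * x * (s + 23 / 200) + 37 / 80 * x ^ 2)
          * (1 + s + 2 * (23 / 200) + x) =
          5 / 18 * ((23 / 100 + 3 * x) * M + (23 / 100 + x) * (1 - s))
          + (-(23 / 200) * (1 - s) - x - 201 / 1280 * x * (s + 23 / 200) + 37 / 80 * x ^ 2) * M := by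
        rw [hM]
        ring
      rw [h10] at hP
      linarith
    have h11 : 0 ≤ D / M := by positivity
    have h12 := mul_nonneg h11 h3
    linarith
  have e3 : 23 / 200 * (2 * ρ + 2 * X - D * (1 - s))
      + ((1 - s) * (ρ + X) + W) * (23 / 100 + x) / (2 * s + (23 / 100 + x))
      + x * (3 * ρ + X - D) - 251001 / 1600000 * D * x * (s + 23 / 200)
      + 748999 / 1600000 * D * x ^ 2 =
      (ρ * (23 / 100 + 3 * x) + ((23 / 100 + x) * X +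
        ((1 - s) * (ρ + X) + W) * (23 / 100 + x) / (2 * s + (23 / 100 + x))))
      - 23 / 200 * D * (1 - s) - D * x - 251001 / 1600000 * D * x * (s + 23 / 200)
      + 748999 / 1600000 * D * x ^ 2 := by ring
  rw [e3]
  linarith

end GoodBerger2Aux

open GoodBerger2Aux in
theorem good2_berger {c : Fin 3 → ℝ} {H : ℝ} (hc : ∀ i, 0 < c i) (h01 : c 0 = c 1)
    (hlt : c 0 < c 2) (h : 10 * c 2 * (c 2 - c 0) ≤ 9 * (4 * H ^ 2 + c 2 ^ 2)) : Good2 c H := by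
  obtain ⟨k, hk⟩ : ∃ k, k = c 2 - c 0 := ⟨_, rfl⟩
  have hk0 : 0 < k := by rw [hk]; linarith
  have hc2 := hc 2
  have hD : 0 < c 2 * k := mul_pos hc2 hk0
  obtain ⟨D, hDd⟩ : ∃ D, D = c 2 * k := ⟨_, rfl⟩
  rw [← hDd] at hD
  obtain ⟨ε, hε⟩ : ∃ ε, ε = min (k * (23 / 200) / 2)
    (k * D / 14000 / (1 + D ^ 2 / (8 / 5) ^ 2)) := ⟨_, rfl⟩
  have hε0 : 0 < ε := by
    rw [hε]
    apply lt_min <;> positivity
  have hε1 : ε ≤ k * (23 / 200) / 2 := by rw [hε]; exact min_le_left _ _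
  have hε2 : ε * (1 + D ^ 2 / (8 / 5) ^ 2) ≤ k * D / 14000 := by
    have h1 : 0 < 1 + D ^ 2 / (8 / 5 : ℝ) ^ 2 := by positivity
    rw [← le_div_iff₀ h1, hε]
    exact min_le_right _ _
  refine ⟨501 / 1000, (k * (23 / 200) - c 0) / 2, 8 / 5 / (2 * c 2), ε, by norm_num, by norm_num,
    by positivity, hε0, fun P => ?_⟩
  obtain ⟨s, X, Γ, W, h0, h1, hX, em, eq, eK, eD, eG, eΓ, hW⟩ := data h01 hk P
  have hmk : P.m + (k * (23 / 200) - c 0) / 2 = k * (s + 23 / 200) / 2 := by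
    rw [em]
    ring
  rw [hmk]
  refine ⟨?_, fun p hp => ?_⟩
  · have := mul_nonneg hk0.le h0
    linarith
  · have hDne := hD.ne'
    obtain ⟨x, hx⟩ : ∃ x, x = 8 / 5 * p / D := ⟨_, rfl⟩
    have hx0 : 0 ≤ x := by rw [hx]; positivity
    have hp' : p = D * x / (8 / 5) := by
      rw [hx]
      field_simp
    have hρ : 5 / 18 * D ≤ H ^ 2 + c 2 ^ 2 / 4 := by
      rw [← hk] at h
      rw [hDd]
      linarith
    have hfin := fin2 h0 h1 hX hD hx0 hρ hW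
    rw [← eΓ] at hfin
    have hq : P.q = 2 * (H ^ 2 + c 2 ^ 2 / 4) + 2 * X - D * (1 - s) := by
      rw [eq, hDd]
    have hqK : P.q + P.K = 3 * (H ^ 2 + c 2 ^ 2 / 4) + X - D := by
      rw [eq, eK, hDd]
      ring
    rw [hqK, eD, eG]
    rw [← hq] at hfin
    have hbp : 8 / 5 / (2 * c 2) * p = k * x / 2 := by
      rw [hp', hDd]
      field_simp
    have hden : 4 * (k * (s + 23 / 200) / 2) + 2 * (8 / 5 / (2 * c 2)) * p =
        k * (2 * s + (23 / 100 + x)) := by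
      have : 2 * (8 / 5 / (2 * c 2)) * p = 2 * (8 / 5 / (2 * c 2) * p) := by ring
      rw [this, hbp]
      ring
    rw [hden]
    have hN : 0 < 2 * s + (23 / 100 + x) := by positivity
    have hG : k ^ 2 * s * Γ / (k * (2 * s + (23 / 100 + x))) =
        k / 2 * (Γ - Γ * (23 / 100 + x) / (2 * s + (23 / 100 + x))) := by
      have h3 := hN.ne'
      have h4 := hk0.ne'
      field_simp
      ring
    rw [hG]
    have hkD : k * (D * (1 + x ^ 2)) / 14000 ≤ k / 2 * (23 / 200 * P.q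
        + Γ * (23 / 100 + x) / (2 * s + (23 / 100 + x))
        + x * (3 * (H ^ 2 + c 2 ^ 2 / 4) + X - D)
        - 251001 / 1600000 * D * x * (s + 23 / 200) + 748999 / 1600000 * D * x ^ 2) := by
      have h3 := mul_le_mul_of_nonneg_left hfin (show 0 ≤ k / 2 by positivity)
      linarith
    have hep : ε * (1 + p ^ 2) ≤ k * (D * (1 + x ^ 2)) / 14000 := by
      have h3 : 1 + p ^ 2 ≤ (1 + D ^ 2 / (8 / 5) ^ 2) * (1 + x ^ 2) := by
        rw [hp']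
        have h4 : 0 ≤ D ^ 2 / (8 / 5 : ℝ) ^ 2 := by positivity
        have h5 : 0 ≤ x ^ 2 := sq_nonneg x
        have h6 : (D * x / (8 / 5)) ^ 2 = D ^ 2 / (8 / 5) ^ 2 * x ^ 2 := by ring
        rw [h6]
        nlinarith
      calc ε * (1 + p ^ 2) ≤ ε * ((1 + D ^ 2 / (8 / 5) ^ 2) * (1 + x ^ 2)) :=
            mul_le_mul_of_nonneg_left h3 hε0.le
        _ = (ε * (1 + D ^ 2 / (8 / 5) ^ 2)) * (1 + x ^ 2) := by ring
        _ ≤ k * D / 14000 * (1 + x ^ 2) :=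
            mul_le_mul_of_nonneg_right hε2 (by positivity)
        _ = k * (D * (1 + x ^ 2)) / 14000 := by ring
    refine hep.trans (hkD.trans (le_of_eq ?_))
    have e5 : p * (8 / 5 / (2 * c 2) * (3 * (H ^ 2 + c 2 ^ 2 / 4) + X - D)
        - (501 / 1000) ^ 2 * (k * (s + 23 / 200) / 2)) =
        (8 / 5 / (2 * c 2) * p) * (3 * (H ^ 2 + c 2 ^ 2 / 4) + X - D)
        - (501 / 1000) ^ 2 * p * (k * (s + 23 / 200) / 2) := by ring
    have e6 : 8 / 5 / (2 * c 2) * (1 - (501 / 1000 : ℝ) ^ 2) * p ^ 2 =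
        (8 / 5 / (2 * c 2) * p) * (1 - (501 / 1000) ^ 2) * p := by ring
    rw [e5, e6, hbp, hp']
    ring

end Pool.Agent.SU2K
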