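import Pool.Agent.Lib.SU2H.Main

/-!
# Cut-offs of unit width

`ReachSet D w L` is the set of the points of `D` at distance less than `L` from `0` (polygonal
paths).

Proof sketch of `exists_cutoff_unit` (model: `Pool.Agent.SU2H.exists_cutoff` in `Cutoff.lean`, whose
auxiliary function `CutoffAux.dd` is the path distance, locally Lipschitz with
`|dd z' - dd z| ≤ ∫_segment w`): take `η = min 1 (max 0 (L + 1 - dd))`.  It is `1` where `dd ≤ L`,
`0` where `dd ≥ L+1`, compactly supported in `D` because of `Complete` (its support is in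
`{dd ≤ L+1}`, contained in the compact set given by `Complete`), Lipschitz, and
`|lineDeriv η z a| ≤ w z ‖a‖`; where it is `0` or `1` it has an extremum, so `lineDeriv η z a = 0`
there.
-/

noncomputable section

namespace Pool.Agent.SU2K

open Pool.Agent.SU2H MeasureTheory

/-- the points at distance less than `L` from `0` -/
def ReachSet (D : Set ℂ) (w : ℂ → ℝ) (L : ℝ) : Set ℂ := {z | ∃ L' < L, Reach D w L' z}

namespace GrowthAux

open Pool.Agent.SU2H.CutoffAux Set Filter Topology

theorem reach_mem {D : Set ℂ} {w : ℂ → ℝ} (h0 : (0 : ℂ) ∈ D) {L : ℝ} {z : ℂ}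
    (h : Reach D w L z) : z ∈ D := by
  cases h with
  | base => exact h0
  | step _ hs => exact hs (right_mem_segment ℝ _ _)

open Classical in
/-- the cut-off function -/
def eta1 (D : Set ℂ) (w : ℂ → ℝ) (L : ℝ) (z : ℂ) : ℝ :=
  if z ∈ D then min 1 (max 0 (L + 1 - dd D w z)) else 0

theorem eta1_nonneg {D : Set ℂ} {w : ℂ → ℝ} (L : ℝ) (z : ℂ) : 0 ≤ eta1 D w L z := by
  unfold eta1
  split_ifs
  · exact le_min zero_le_one (le_max_left _ _)
  · exact le_rfl

theorem eta1_le {D : Set ℂ} {w : ℂ → ℝ} (L : ℝ) (z : ℂ) : eta1 D w L z ≤ 1 := by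
  unfold eta1
  split_ifs
  · exact min_le_left _ _
  · exact zero_le_one

section
variable {D : Set ℂ} (hconv : Convex ℝ D) (h0 : (0 : ℂ) ∈ D)
    {w : ℂ → ℝ} (hw : ContinuousOn w D) (hwpos : ∀ z ∈ D, 0 < w z)

include hconv h0 hw hwpos in
theorem eta1_abs {L : ℝ} {z z' : ℂ} (hs : segment ℝ z z' ⊆ D) {W : ℝ}
    (hW : ∀ x ∈ segment ℝ z z', w x ≤ W) :
    |eta1 D w L z' - eta1 D w L z| ≤ W * ‖z' - z‖ := by
  have hz : z ∈ D := hs (left_mem_segment ℝ z z')
  have hz' : z' ∈ D := hs (right_mem_segment ℝ z z')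
  have h1 := dd_abs hconv h0 hw hwpos hs hW
  have hnn : 0 ≤ W * ‖z' - z‖ := (abs_nonneg _).trans h1
  unfold eta1
  rw [if_pos hz, if_pos hz']
  refine (abs_min_sub_min_le_max _ _ _ _).trans ?_
  rw [sub_self, abs_zero]
  refine max_le hnn ?_
  refine (abs_max_sub_max_le_max _ _ _ _).trans ?_
  rw [sub_self, abs_zero]
  refine max_le hnn ?_
  have e : L + 1 - dd D w z' - (L + 1 - dd D w z) = -(dd D w z' - dd D w z) := by ring
  rw [e, abs_neg]
  exact h1

end

end GrowthAux

open GrowthAux Pool.Agent.SU2H.CutoffAux Set Filter Topology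

theorem isOpen_reachSet {D : Set ℂ} {w : ℂ → ℝ} (hD : IsOpen D) (hw : ContinuousOn w D)
    (h0 : (0 : ℂ) ∈ D) (L : ℝ) : IsOpen (ReachSet D w L) ∧ ReachSet D w L ⊆ D := by
  refine ⟨?_, fun z hz => ?_⟩
  · rw [Metric.isOpen_iff]
    rintro z ⟨L', hL', hz⟩
    have hzD := reach_mem h0 hz
    have h1 : ∀ᶠ x in 𝓝 z, x ∈ D := hD.mem_nhds hzD
    have h2 : ∀ᶠ x in 𝓝 z, w x < |w z| + 1 :=
      (hw.continuousAt (hD.mem_nhds hzD)).eventually_lt continuousAt_const
        (by linarith [le_abs_self (w z)])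
    obtain ⟨r, hr, h3⟩ := Metric.eventually_nhds_iff_ball.1 (h1.and h2)
    have hq : 0 < |w z| + 1 := by positivity
    have hq2 : 0 < (L - L') / (|w z| + 1) := div_pos (by linarith) hq
    refine ⟨min r ((L - L') / (|w z| + 1)), lt_min hr hq2, fun z' hz' => ?_⟩
    have hd : dist z' z < min r ((L - L') / (|w z| + 1)) := hz'
    have hd1 : dist z' z < r := hd.trans_le (min_le_left _ _)
    have hd2 : dist z' z < (L - L') / (|w z| + 1) := hd.trans_le (min_le_right _ _)
    have hseg : segment ℝ z z' ⊆ Metric.ball z r :=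
      (convex_ball z r).segment_subset (Metric.mem_ball_self hr) hd1
    have hsD : segment ℝ z z' ⊆ D := fun x hx => (h3 x (hseg hx)).1
    refine ⟨L' + len w z z', ?_, Reach.step hz hsD⟩
    have h4 := len_le hw hsD (W := |w z| + 1) (fun x hx => (h3 x (hseg hx)).2.le)
    rw [dist_eq_norm, lt_div_iff₀ hq] at hd2
    nlinarith
  · obtain ⟨L', -, hz⟩ := hz
    exact reach_mem h0 hz

theorem exists_cutoff_unit {D : Set ℂ} {w : ℂ → ℝ} (hD : IsOpen D) (hconv : Convex ℝ D)
    (h0 : (0 : ℂ) ∈ D) (hw : ContinuousOn w D) (hpos : ∀ z ∈ D, 0 < w z) (hcomp : Complete D w)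
    {L : ℝ} (hL : 0 < L) :
    ∃ η : ℂ → ℝ, (∃ C, LipschitzWith C η) ∧ (∀ z, 0 ≤ η z) ∧ (∀ z, η z ≤ 1) ∧
      HasCompactSupport η ∧ tsupport η ⊆ D ∧
      (∀ z ∈ D, ∀ a : ℂ, |lineDeriv ℝ η z a| ≤ w z * ‖a‖) ∧
      (∀ z ∈ ReachSet D w L, η z = 1 ∧ ∀ a : ℂ, lineDeriv ℝ η z a = 0) ∧
      (∀ z, z ∉ ReachSet D w (L + 2) → η z = 0 ∧ ∀ a : ℂ, lineDeriv ℝ η z a = 0) := by
  have hloc : ∀ z ∈ D, ∀ ε > 0, ∃ r > 0, Metric.ball z r ⊆ D ∧
      ∀ x ∈ Metric.ball z r, w x ≤ w z + ε := by
    intro z hz ε hε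
    have h1 : ∀ᶠ x in 𝓝 z, x ∈ D := hD.mem_nhds hz
    have h2 : ∀ᶠ x in 𝓝 z, w x < w z + ε :=
      (hw.continuousAt (hD.mem_nhds hz)).eventually_lt continuousAt_const (by linarith)
    obtain ⟨r, hr, h3⟩ := Metric.eventually_nhds_iff_ball.1 (h1.and h2)
    exact ⟨r, hr, fun x hx => (h3 x hx).1, fun x hx => (h3 x hx).2.le⟩
  obtain ⟨K, hKD, hK, hKR⟩ := hcomp (L + 1)
  have hsup : ∀ z, z ∉ K → eta1 D w L z = 0 := by
    intro z hz
    unfold eta1
    split_ifs with hzD
    · have h1 : L + 1 ≤ dd D w z := by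
        by_contra hlt
        push Not at hlt
        obtain ⟨L', hL', hLR⟩ := exists_lt_of_csInf_lt (nonem hconv h0 hzD) hlt
        exact hz (hKR L' z hLR.le hL')
      rw [max_eq_left (by linarith)]
      exact min_eq_right zero_le_one
    · rfl
  have hsup2 : Function.support (eta1 D w L) ⊆ K := by
    intro z hz
    by_contra hzK
    exact hz (hsup z hzK)
  refine ⟨eta1 D w L, ?_, eta1_nonneg L, eta1_le L,
    HasCompactSupport.of_support_subset_isCompact hK hsup2,
    (closure_minimal hsup2 hK.isClosed).trans hKD, ?_, ?_, ?_⟩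
  · obtain ⟨δ, hδ, hδD⟩ := hK.exists_cthickening_subset_open hD hKD
    have hcK : IsCompact (Metric.cthickening δ K) := hK.cthickening
    obtain ⟨W, hW⟩ := hcK.exists_bound_of_continuousOn (hw.mono hδD)
    have key : ∀ z ∈ K, ∀ z', |eta1 D w L z' - eta1 D w L z| ≤
        max |W| (1 / δ) * ‖z' - z‖ := by
      intro z hz z'
      by_cases hd : ‖z' - z‖ ≤ δ
      · have hsub : segment ℝ z z' ⊆ Metric.cthickening δ K := by
          intro x hx
          refine Metric.closedBall_subset_cthickening hz δ ?_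
          have h1 : segment ℝ z z' ⊆ Metric.closedBall z δ :=
            (convex_closedBall z δ).segment_subset (Metric.mem_closedBall_self hδ.le)
              (by rw [mem_closedBall_iff_norm]; exact hd)
          exact h1 hx
        have h2 := eta1_abs hconv h0 hw hpos (L := L) (hsub.trans hδD) (W := |W|)
          (fun x hx => (le_abs_self _).trans ((hW x (hsub hx)).trans (le_abs_self _)))
        refine h2.trans ?_
        exact mul_le_mul_of_nonneg_right (le_max_left _ _) (norm_nonneg _)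
      · push Not at hd
        have h1 : |eta1 D w L z' - eta1 D w L z| ≤ 1 := by
          rw [abs_le]
          have a1 := eta1_nonneg (D := D) (w := w) L z
          have a2 := eta1_nonneg (D := D) (w := w) L z'
          have a3 := eta1_le (D := D) (w := w) L z
          have a4 := eta1_le (D := D) (w := w) L z'
          constructor <;> linarith
        refine h1.trans ?_
        have h2 : 1 ≤ 1 / δ * ‖z' - z‖ := by
          rw [one_div, inv_mul_eq_div, one_le_div hδ]
          exact hd.le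
        exact h2.trans (mul_le_mul_of_nonneg_right (le_max_right _ _) (norm_nonneg _))
    have hC : 0 ≤ max |W| (1 / δ) := (abs_nonneg W).trans (le_max_left _ _)
    refine ⟨Real.toNNReal (max |W| (1 / δ)), LipschitzWith.of_dist_le_mul fun x y => ?_⟩
    rw [Real.dist_eq, Real.coe_toNNReal _ hC, dist_eq_norm]
    by_cases hy : y ∈ K
    · exact key y hy x
    · by_cases hx : x ∈ K
      · rw [abs_sub_comm, norm_sub_rev]
        exact key x hx y
      · rw [hsup x hx, hsup y hy, sub_zero, abs_zero]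
        exact mul_nonneg hC (norm_nonneg _)
  · intro z hz v
    have key : ∀ ε > 0, |lineDeriv ℝ (eta1 D w L) z v| ≤ (w z + ε) * ‖v‖ := by
      intro ε hε
      obtain ⟨ρ, hρ, hρD, hρw⟩ := hloc z hz ε hε
      have hwz := hpos z hz
      have hnn : 0 ≤ (w z + ε) * ‖v‖ := by positivity
      unfold lineDeriv
      rw [← Real.norm_eq_abs]
      refine norm_deriv_le_of_lip' hnn ?_
      have h1 : ∀ᶠ t : ℝ in 𝓝 0, z + t • v ∈ Metric.ball z ρ := by
        have hc : ContinuousAt (fun t : ℝ => z + t • v) 0 := by fun_prop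
        have : (fun t : ℝ => z + t • v) 0 ∈ Metric.ball z ρ := by
          simp [hρ]
        exact hc.eventually_mem (Metric.isOpen_ball.mem_nhds this)
      filter_upwards [h1] with t ht
      have hseg : segment ℝ z (z + t • v) ⊆ Metric.ball z ρ :=
        (convex_ball z ρ).segment_subset (Metric.mem_ball_self hρ) ht
      have h2 := eta1_abs hconv h0 hw hpos (L := L) (hseg.trans hρD) (W := w z + ε)
        (fun x hx => hρw x (hseg hx))
      rw [zero_smul, add_zero, Real.norm_eq_abs, sub_zero, Real.norm_eq_abs]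
      refine h2.trans (le_of_eq ?_)
      rw [add_sub_cancel_left, norm_smul, Real.norm_eq_abs]
      ring
    refine le_of_forall_pos_le_add fun ε hε => ?_
    have hp : 0 < ε / (‖v‖ + 1) := by positivity
    refine (key _ hp).trans ?_
    have e : (w z + ε / (‖v‖ + 1)) * ‖v‖ = w z * ‖v‖ + ε * (‖v‖ / (‖v‖ + 1)) := by
      field_simp
    rw [e]
    have h3 : ‖v‖ / (‖v‖ + 1) ≤ 1 := by
      rw [div_le_one (by positivity)]
      linarith
    have h4 : ε * (‖v‖ / (‖v‖ + 1)) ≤ ε * 1 := mul_le_mul_of_nonneg_left h3 hε.le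
    linarith
  · rintro z ⟨L', hL', hz⟩
    have hzD := reach_mem h0 hz
    have hd : dd D w z ≤ L' := csInf_le (bdd hpos z) hz
    have h1 : eta1 D w L z = 1 := by
      unfold eta1
      rw [if_pos hzD, max_eq_right (by linarith)]
      exact min_eq_left (by linarith)
    refine ⟨h1, fun a => ?_⟩
    unfold lineDeriv
    refine IsLocalMax.deriv_eq_zero (Filter.Eventually.of_forall fun t => ?_)
    show eta1 D w L (z + t • a) ≤ eta1 D w L (z + (0 : ℝ) • a)
    rw [zero_smul, add_zero, h1]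
    exact eta1_le _ _
  · intro z hz
    have h1 : eta1 D w L z = 0 := by
      unfold eta1
      split_ifs with hzD
      · have h1 : L + 2 ≤ dd D w z := by
          by_contra hlt
          push Not at hlt
          obtain ⟨L', hL', hLR⟩ := exists_lt_of_csInf_lt (nonem hconv h0 hzD) hlt
          exact hz ⟨L', hLR, hL'⟩
        rw [max_eq_left (by linarith)]
        exact min_eq_right zero_le_one
      · rfl
    refine ⟨h1, fun a => ?_⟩
    unfold lineDeriv
    refine IsLocalMin.deriv_eq_zero (Filter.Eventually.of_forall fun t => ?_)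
    show eta1 D w L (z + (0 : ℝ) • a) ≤ eta1 D w L (z + t • a)
    rw [zero_smul, add_zero, h1]
    exact eta1_nonneg _ _

end Pool.Agent.SU2K
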