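import Pool.Agent.Lib.SU2K.Growth

/-!
# Exponential area growth of complete strongly stable H-surfaces

`D` is the unit disc, `w = √(lam ℓ φ)`, `A(L) = ∫_{ReachSet D w L} lam` the area of the metric ball of
radius `L` (finite because of `Complete`).

Proof sketch.  `N = mm ℓ φ`, `v = log u`, `F = ½∇N - N∇v`; as in `HypInt` / `DiscPDE`,
`div F = Θ + |F|²/N` with `Θ = ½ lap N - N (lap v + |∇v|²) - |∇N|²/(4N)
= lam (P.m P.q + P.Dm/2 - P.Gm/(4 P.m)) ≥ ε₀ lam`, `ε₀ > 0`: this is the inequality of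
`PtPlane.plane_pos` made quantitative (`v0m_pos` below).  Then
`∫ η² div F = -∫ 2η F·∇η ≤ ∫ η²|F|²/N + N|∇η|²`, so `ε₀ ∫ η² lam ≤ ∫ N |∇η|²`.
With `η` from `exists_cutoff_unit`: `|∇η|² ≤ 2 lam` on `ReachSet (L+2) \ ReachSet L`, `0` elsewhere, so
`ε₀ A(L) ≤ 2 B (A(L+2) - A(L))`, i.e. `A(L+2) ≥ (1 + ε₀/(2B)) A(L)`, and therefore
`A(L) ≥ c exp (a L)` for `L ≥ 1`.
`v0m_pos`: by `P.m P.q + P.Dm/2 - P.Gm/(4P.m) = ½ (column sums) tr (Xᵀ M X)`; from the identity
`pt_identity` at `x = 0` in `Pool.Agent.Lib.SU2K.PtE`, or directly: it is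
`½ Σ_columns (X e)ᵀ M (X e)`, `X = [[B11, B21], [B12, B22]]`,
`M = [[c11 - d1²/u, c12 - d1 d2/u], [.., c22 - d2²/u]]` (`u = 2m`), `M ≥ c_min`, and
`|X|² = B11²+B12²+B21²+B22² ≥ 2H² + u²/2` (`B11+B22 = 2H`, `B12-B21 = u`).
-/

noncomputable section

namespace Pool.Agent.SU2K

open Pool.Agent.SU2H MeasureTheory
open scoped Quaternion ContDiff

namespace GrowthFinalAux

theorem cq_ge {c : Fin 3 → ℝ} {a : ℝ} (h : ∀ i, a ≤ c i) (v : Fin 3 → ℝ) :
    a * ∑ i, v i * v i ≤ cq c v v := by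
  rw [cq, Finset.mul_sum]
  refine Finset.sum_le_sum fun i _ => ?_
  rw [mul_assoc]
  exact mul_le_mul_of_nonneg_right (h i) (mul_self_nonneg _)

theorem quad_ge {c : Fin 3 → ℝ} {H a : ℝ} (ha : 0 < a) (h : ∀ i, a ≤ c i)
    (P : PtData c H) (hs : 0 < cq c P.n P.n) (x y : ℝ) :
    cq c P.n P.n * (a * (x ^ 2 + y ^ 2)) ≤ PtPlaneAux.quad P x y := by
  rw [PtPlaneAux.quad_eq P hs]
  refine mul_le_mul_of_nonneg_left ?_ hs.le
  refine le_trans ?_ (cq_ge h _)
  rw [PtPlaneAux.sum_vec]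
  refine mul_le_mul_of_nonneg_left ?_ ha.le
  nlinarith [sq_nonneg (-(x * cq c P.e1 P.n + y * cq c P.e2 P.n) / cq c P.n P.n)]

end GrowthFinalAux

open GrowthFinalAux in
theorem v0m_pos {c : Fin 3 → ℝ} {H : ℝ} (hc : ∀ i, 0 < c i) :
    ∃ ε > 0, ∀ P : PtData c H, ε ≤ P.m * P.q + P.Dm / 2 - P.Gm / (4 * P.m) := by
  set a := min (c 0) (min (c 1) (c 2)) with ha
  have ha0 : 0 < a := lt_min (hc 0) (lt_min (hc 1) (hc 2))
  have h0 : a ≤ c 0 := min_le_left _ _
  have h1 : a ≤ c 1 := (min_le_right _ _).trans (min_le_left _ _)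
  have h2 : a ≤ c 2 := (min_le_right _ _).trans (min_le_right _ _)
  have hall : ∀ i, a ≤ c i := by
    intro i
    fin_cases i
    · exact h0
    · exact h1
    · exact h2
  refine ⟨a ^ 3 / 4, by positivity, fun P => ?_⟩
  have hu : a ≤ cq c P.n P.n := by
    have := cq_ge hall P.n
    rw [P.o33, mul_one] at this
    exact this
  have hs : 0 < cq c P.n P.n := lt_of_lt_of_le ha0 hu
  have hm : P.m = cq c P.n P.n / 2 := rfl
  have k := PtPlaneAux.key P
  have q1 := quad_ge ha0 hall P hs P.B11 P.B12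
  have q2 := quad_ge ha0 hall P hs P.B21 P.B22
  have hsk := P.skew
  set u := cq c P.n P.n with hud
  have e : P.m * P.q + P.Dm / 2 - P.Gm / (4 * P.m) = (u * (P.Dm + u * P.q) - P.Gm) / (2 * u) := by
    rw [hm]
    field_simp
    ring
  rw [e, k, le_div_iff₀ (by positivity)]
  have e3 : u ^ 2 ≤ 2 * (P.B12 ^ 2 + P.B21 ^ 2) := by
    rw [← hsk]
    nlinarith [sq_nonneg (P.B12 + P.B21)]
  have e4 : a ^ 2 ≤ u ^ 2 := pow_le_pow_left₀ ha0.le hu 2
  have e5 : a ^ 2 / 2 ≤ P.B11 ^ 2 + P.B12 ^ 2 + (P.B21 ^ 2 + P.B22 ^ 2) := by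
    nlinarith [sq_nonneg P.B11, sq_nonneg P.B22]
  have e6 := mul_le_mul_of_nonneg_left e5 (mul_pos hs ha0).le
  nlinarith [q1, q2, e6]

namespace GrowthFinalAux

open Metric Set Filter Topology DiscPDEAux

theorem reachSet_mono {D : Set ℂ} {w : ℂ → ℝ} {L L' : ℝ} (h : L ≤ L') :
    ReachSet D w L ⊆ ReachSet D w L' := fun _ ⟨l, hl, hr⟩ => ⟨l, lt_of_lt_of_le hl h, hr⟩

theorem zero_mem_reachSet {D : Set ℂ} {w : ℂ → ℝ} {L : ℝ} (h : 0 < L) :
    (0 : ℂ) ∈ ReachSet D w L := ⟨0, h, Reach.base⟩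

/-- `lm` is integrable on the metric balls -/
theorem intOn {lm : ℂ → ℝ} (hlm : ContinuousOn lm (ball 0 1))
    (hcomp : Complete (ball 0 1) (fun z => √(lm z))) (L : ℝ) :
    IntegrableOn lm (ReachSet (ball 0 1) (fun z => √(lm z)) L) := by
  obtain ⟨K, hKD, hK, hKr⟩ := hcomp L
  exact ((hlm.mono hKD).integrableOn_compact hK).mono_set fun z ⟨l, hl, hr⟩ => hKr l z hl.le hr

/-- divergence of the vector field -/
theorem dV {N v : ℂ → ℝ} (hN : ContDiffOn ℝ 2 N (ball 0 1)) (hv : ContDiffOn ℝ 2 v (ball 0 1))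
    {z : ℂ} (hz : z ∈ ball (0 : ℂ) 1) (a : ℂ) :
    fderiv ℝ (fun w => 1 / 2 * fderiv ℝ N w a - N w * fderiv ℝ v w a) z a =
      1 / 2 * fderiv ℝ (fun w => fderiv ℝ N w a) z a -
        (fderiv ℝ N z a * fderiv ℝ v z a + N z * fderiv ℝ (fun w => fderiv ℝ v w a) z a) := by
  have h1 : HasFDerivAt (fun w => fderiv ℝ N w a) (fderiv ℝ (fun w => fderiv ℝ N w a) z) z :=
    (fd2_diff hN hz a).hasFDerivAt
  have h2 : HasFDerivAt (fun w => fderiv ℝ v w a) (fderiv ℝ (fun w => fderiv ℝ v w a) z) z :=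
    (fd2_diff hv hz a).hasFDerivAt
  have h3 : HasFDerivAt N (fderiv ℝ N z) z := (fd_diff hN hz).hasFDerivAt
  have h4 := (h1.const_mul (1 / 2)).sub (h3.mul h2)
  have h5 : fderiv ℝ (fun w => 1 / 2 * fderiv ℝ N w a - N w * fderiv ℝ v w a) z = _ := h4.fderiv
  rw [h5]
  simp only [sub_apply, add_apply, smul_apply, smul_eq_mul]
  ring

theorem contV {N v : ℂ → ℝ} (hN : ContDiffOn ℝ 2 N (ball 0 1))
    (hv : ContDiffOn ℝ 2 v (ball 0 1)) (a : ℂ) :
    ContDiffOn ℝ 1 (fun w => 1 / 2 * fderiv ℝ N w a - N w * fderiv ℝ v w a) (ball 0 1) :=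
  (contDiffOn_const.mul (fd_contDiffOn hN a)).sub
    ((hN.of_le (by norm_num)).mul (fd_contDiffOn hv a))

theorem alg2 {N n1 n2 v1 v2 x l1 l2 : ℝ} (hN : 0 < N) :
    -(N * (l1 ^ 2 + l2 ^ 2)) ≤
      x ^ 2 * ((n1 ^ 2 + n2 ^ 2) / (4 * N) - (n1 * v1 + n2 * v2) + N * (v1 ^ 2 + v2 ^ 2)) +
        2 * x * ((1 / 2 * n1 - N * v1) * l1 + (1 / 2 * n2 - N * v2) * l2) := by
  have e : x ^ 2 * ((n1 ^ 2 + n2 ^ 2) / (4 * N) - (n1 * v1 + n2 * v2) + N * (v1 ^ 2 + v2 ^ 2)) +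
        2 * x * ((1 / 2 * n1 - N * v1) * l1 + (1 / 2 * n2 - N * v2) * l2) +
        N * (l1 ^ 2 + l2 ^ 2) =
      ((x * (1 / 2 * n1 - N * v1) + N * l1) ^ 2 + (x * (1 / 2 * n2 - N * v2) + N * l2) ^ 2) / N := by
    field_simp
    ring
  have h3 : 0 ≤ ((x * (1 / 2 * n1 - N * v1) + N * l1) ^ 2 +
      (x * (1 / 2 * n2 - N * v2) + N * l2) ^ 2) / N := by positivity
  linarith

/-- the step inequality -/
theorem step {lm N v : ℂ → ℝ} {ε B : ℝ} (hε : 0 < ε) (hB : 0 < B)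
    (hlm : ContinuousOn lm (ball 0 1)) (hl0 : ∀ z ∈ ball (0 : ℂ) 1, 0 < lm z)
    (hN : ContDiffOn ℝ 2 N (ball 0 1)) (hv : ContDiffOn ℝ 2 v (ball 0 1))
    (hN0 : ∀ z ∈ ball (0 : ℂ) 1, 0 < N z) (hNB : ∀ z ∈ ball (0 : ℂ) 1, N z ≤ B)
    (hineq : ∀ z ∈ ball (0 : ℂ) 1,
      ε * lm z ≤ lap N z / 2 -
        N z * (lap v z + ((fderiv ℝ v z 1) ^ 2 + (fderiv ℝ v z Complex.I) ^ 2)) -
        ((fderiv ℝ N z 1) ^ 2 + (fderiv ℝ N z Complex.I) ^ 2) / (4 * N z))
    (hcomp : Complete (ball 0 1) (fun z => √(lm z))) {L : ℝ} (hL : 0 < L) :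
    (ε + 2 * B) * ∫ z in ReachSet (ball 0 1) (fun z => √(lm z)) L, lm z ≤
      2 * B * ∫ z in ReachSet (ball 0 1) (fun z => √(lm z)) (L + 2), lm z := by
  classical
  have hw : ContinuousOn (fun z => √(lm z)) (ball 0 1) := hlm.sqrt
  have hw0 : ∀ z ∈ ball (0 : ℂ) 1, 0 < √(lm z) := fun z hz => Real.sqrt_pos.2 (hl0 z hz)
  obtain ⟨η, ⟨C, hηL⟩, h0, h1, hc, hs, hld, hin, hout⟩ := exists_cutoff_unit isOpen_ball
    (convex_ball 0 1) (mem_ball_self one_pos) hw hw0 hcomp hL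
  set S0 := ReachSet (ball 0 1) (fun z => √(lm z)) L with hS0
  set S2 := ReachSet (ball 0 1) (fun z => √(lm z)) (L + 2) with hS2
  obtain ⟨ho0, hd0⟩ := isOpen_reachSet isOpen_ball hw (mem_ball_self one_pos) L
  obtain ⟨ho2, hd2⟩ := isOpen_reachSet isOpen_ball hw (mem_ball_self one_pos) (L + 2)
  have h02 : S0 ⊆ S2 := reachSet_mono (by linarith)
  obtain ⟨i1, j1, k1⟩ := ibp (contV hN hv 1) hηL h0 h1 hc hs 1
  obtain ⟨i2, j2, k2⟩ := ibp (contV hN hv Complex.I) hηL h0 h1 hc hs Complex.I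
  let G : ℂ → ℝ := fun z =>
    (fderiv ℝ (fun w => 1 / 2 * fderiv ℝ N w 1 - N w * fderiv ℝ v w 1) z 1 * η z ^ 2 +
      fderiv ℝ (fun w => 1 / 2 * fderiv ℝ N w Complex.I - N w * fderiv ℝ v w Complex.I) z
        Complex.I * η z ^ 2) +
      ((1 / 2 * fderiv ℝ N z 1 - N z * fderiv ℝ v z 1) * (2 * η z * lineDeriv ℝ η z 1) +
      (1 / 2 * fderiv ℝ N z Complex.I - N z * fderiv ℝ v z Complex.I) *
        (2 * η z * lineDeriv ℝ η z Complex.I))
  have hGi : Integrable G := (i1.add i2).add (j1.add j2)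
  have hG0 : ∫ z, G z = 0 := by
    have e1 : ∫ z, G z = _ := integral_add (i1.add i2) (j1.add j2)
    rw [e1]
    rw [integral_add i1 i2, integral_add j1 j2, k1, k2]
    ring
  have hGD : ∀ z ∈ ball (0 : ℂ) 1,
      ε * lm z * η z ^ 2 - N z * (lineDeriv ℝ η z 1 ^ 2 + lineDeriv ℝ η z Complex.I ^ 2) ≤ G z := by
    intro z hz
    have ha := alg2 (N := N z) (n1 := fderiv ℝ N z 1) (n2 := fderiv ℝ N z Complex.I)
      (v1 := fderiv ℝ v z 1) (v2 := fderiv ℝ v z Complex.I) (x := η z)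
      (l1 := lineDeriv ℝ η z 1) (l2 := lineDeriv ℝ η z Complex.I) (hN0 z hz)
    have hq := mul_le_mul_of_nonneg_left (hineq z hz) (sq_nonneg (η z))
    have eG : G z = (1 / 2 * fderiv ℝ (fun w => fderiv ℝ N w 1) z 1 -
        (fderiv ℝ N z 1 * fderiv ℝ v z 1 + N z * fderiv ℝ (fun w => fderiv ℝ v w 1) z 1)) *
          η z ^ 2 +
        (1 / 2 * fderiv ℝ (fun w => fderiv ℝ N w Complex.I) z Complex.I -
        (fderiv ℝ N z Complex.I * fderiv ℝ v z Complex.I +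
          N z * fderiv ℝ (fun w => fderiv ℝ v w Complex.I) z Complex.I)) * η z ^ 2 +
        ((1 / 2 * fderiv ℝ N z 1 - N z * fderiv ℝ v z 1) * (2 * η z * lineDeriv ℝ η z 1) +
        (1 / 2 * fderiv ℝ N z Complex.I - N z * fderiv ℝ v z Complex.I) *
        (2 * η z * lineDeriv ℝ η z Complex.I)) := by
      change (fderiv ℝ (fun w => 1 / 2 * fderiv ℝ N w 1 - N w * fderiv ℝ v w 1) z 1 * η z ^ 2 +
        fderiv ℝ (fun w => 1 / 2 * fderiv ℝ N w Complex.I - N w * fderiv ℝ v w Complex.I) z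
          Complex.I * η z ^ 2) + _ = _
      rw [dV hN hv hz, dV hN hv hz]
    rw [eG]
    unfold lap at hq
    set g := (fderiv ℝ N z 1 ^ 2 + fderiv ℝ N z Complex.I ^ 2) / (4 * N z) with hg
    nlinarith [ha, hq]
  have hGout : ∀ z, z ∉ S2 → G z = 0 := by
    intro z hz
    obtain ⟨e1, e2⟩ := hout z hz
    change (_ * η z ^ 2 + _ * η z ^ 2) + (_ * (2 * η z * _) + _ * (2 * η z * _)) = 0
    rw [e1]
    ring
  have hGle : ∀ z, S0.indicator (fun z => (ε + 2 * B) * lm z) z -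
      S2.indicator (fun z => 2 * B * lm z) z ≤ G z := by
    intro z
    by_cases hz : z ∈ S2
    · have hzD := hd2 hz
      rw [indicator_of_mem hz]
      refine le_trans ?_ (hGD z hzD)
      by_cases hz' : z ∈ S0
      · rw [indicator_of_mem hz', (hin z hz').1, (hin z hz').2, (hin z hz').2]
        nlinarith
      · rw [indicator_of_notMem hz']
        have hl := hl0 z hzD
        have hsq : √(lm z) ^ 2 = lm z := Real.sq_sqrt hl.le
        have a1 : |lineDeriv ℝ η z 1| ≤ √(lm z) := by simpa using hld z hzD 1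
        have a2 : |lineDeriv ℝ η z Complex.I| ≤ √(lm z) := by simpa using hld z hzD Complex.I
        have b1 : lineDeriv ℝ η z 1 ^ 2 ≤ lm z := by
          rw [← hsq, ← sq_abs]
          exact pow_le_pow_left₀ (abs_nonneg _) a1 2
        have b2 : lineDeriv ℝ η z Complex.I ^ 2 ≤ lm z := by
          rw [← hsq, ← sq_abs]
          exact pow_le_pow_left₀ (abs_nonneg _) a2 2
        have c1 : N z * (lineDeriv ℝ η z 1 ^ 2 + lineDeriv ℝ η z Complex.I ^ 2) ≤
            B * (lm z + lm z) :=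
          mul_le_mul (hNB z hzD) (add_le_add b1 b2) (by positivity) hB.le
        have c2 : 0 ≤ ε * lm z * η z ^ 2 := by positivity
        linarith
    · rw [indicator_of_notMem hz, indicator_of_notMem (fun h => hz (h02 h)), hGout z hz]
      norm_num
  have m0 : MeasurableSet S0 := ho0.measurableSet
  have m2 : MeasurableSet S2 := ho2.measurableSet
  have hI1 : Integrable (S0.indicator (fun z => (ε + 2 * B) * lm z)) :=
    (integrable_indicator_iff m0).2 ((intOn hlm hcomp L).const_mul _)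
  have hI2 : Integrable (S2.indicator (fun z => 2 * B * lm z)) :=
    (integrable_indicator_iff m2).2 ((intOn hlm hcomp (L + 2)).const_mul _)
  have hint : ∫ z, (S0.indicator (fun z => (ε + 2 * B) * lm z) z -
      S2.indicator (fun z => 2 * B * lm z) z) ≤ ∫ z, G z :=
    integral_mono (hI1.sub hI2) hGi hGle
  rw [hG0, integral_sub hI1 hI2, integral_indicator m0, integral_indicator m2,
    integral_const_mul, integral_const_mul] at hint
  linarith

/-- from the step inequality to exponential growth -/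
theorem grow {A : ℝ → ℝ} {ε B : ℝ} (hε : 0 < ε) (hB : 0 < B) (hA : Monotone A) (hA1 : 0 < A 1)
    (hst : ∀ L, 0 < L → (ε + 2 * B) * A L ≤ 2 * B * A (L + 2)) :
    ∃ a > 0, ∀ L : ℝ, 1 ≤ L → a * Real.exp (a * L) ≤ A L := by
  set δ : ℝ := (ε + 2 * B) / (2 * B) with hδ
  have hδ1 : 1 < δ := by
    rw [hδ, lt_div_iff₀ (by positivity)]
    linarith
  have hδ0 : 0 < δ := by linarith
  have hs : ∀ L, 0 < L → δ * A L ≤ A (L + 2) := by
    intro L hL
    have h1 := hst L hL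
    have e : δ * A L = ((ε + 2 * B) * A L) / (2 * B) := by
      rw [hδ]
      ring
    rw [e, div_le_iff₀ (by positivity)]
    linarith
  have hn : ∀ n : ℕ, δ ^ n * A 1 ≤ A (1 + 2 * n) := by
    intro n
    induction n with
    | zero => simp
    | succ n ih =>
      have h1 := hs (1 + 2 * n) (by positivity)
      have h2 : (1 : ℝ) + 2 * n + 2 = 1 + 2 * ((n + 1 : ℕ) : ℝ) := by
        push_cast
        ring
      rw [h2] at h1
      calc δ ^ (n + 1) * A 1 = δ * (δ ^ n * A 1) := by ring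
        _ ≤ δ * A (1 + 2 * n) := mul_le_mul_of_nonneg_left ih hδ0.le
        _ ≤ _ := h1
  set β := Real.log δ with hβ
  have hβ0 : 0 < β := Real.log_pos hδ1
  have hexp : Real.exp β = δ := Real.exp_log hδ0
  set a := min (A 1 * Real.exp (-(3 / 2 * β))) (β / 2) with ha
  have ha0 : 0 < a := lt_min (by positivity) (by positivity)
  have ha1 : a ≤ A 1 * Real.exp (-(3 / 2 * β)) := min_le_left _ _
  have ha2 : a ≤ β / 2 := min_le_right _ _
  refine ⟨a, ha0, fun L hL => ?_⟩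
  set n := ⌊(L - 1) / 2⌋₊ with hnd
  have hn1 : (n : ℝ) ≤ (L - 1) / 2 := Nat.floor_le (by linarith)
  have hn2 : (L - 1) / 2 < n + 1 := Nat.lt_floor_add_one _
  have h1 : A (1 + 2 * n) ≤ A L := hA (by linarith)
  refine le_trans ?_ ((hn n).trans h1)
  have h2 : δ ^ n = Real.exp (n * β) := by
    rw [← hexp, ← Real.exp_nat_mul]
  rw [h2]
  calc a * Real.exp (a * L) ≤ A 1 * Real.exp (-(3 / 2 * β)) * Real.exp (β / 2 * L) := by
        refine mul_le_mul ha1 ?_ (Real.exp_pos _).le (by positivity)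
        exact Real.exp_le_exp.2 (mul_le_mul_of_nonneg_right ha2 (by linarith))
    _ = Real.exp (-(3 / 2 * β) + β / 2 * L) * A 1 := by
        rw [Real.exp_add]
        ring
    _ ≤ Real.exp (n * β) * A 1 := by
        refine mul_le_mul_of_nonneg_right ?_ hA1.le
        refine Real.exp_le_exp.2 ?_
        nlinarith

end GrowthFinalAux

open GrowthFinalAux DiscFinalAux in
theorem growth {ℓ : Fin 3 → ℝ} {φ : ℂ → ℍ[ℝ]} {H : ℝ} (hℓ : ∀ i, 0 < ℓ i)
    (h : IsConfHSurface ℓ (Metric.ball 0 1) φ H)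
    (hcomp : Complete (Metric.ball 0 1) (fun z => √(lam ℓ φ z)))
    (hst : StronglyStable ℓ (Metric.ball 0 1) φ) :
    ∃ a > 0, ∀ L : ℝ, 1 ≤ L →
      a * Real.exp (a * L) ≤
        ∫ z in ReachSet (Metric.ball 0 1) (fun z => √(lam ℓ φ z)) L, lam ℓ φ z := by
  obtain ⟨u, huC, hupos, hueq⟩ := hst
  obtain ⟨hlamC, hmmC, hP⟩ := geom hℓ Metric.isOpen_ball h
  have hc := Pool.Agent.SU2H.sc_pos hℓ
  obtain ⟨ε, hε, hv0⟩ := v0m_pos (c := sc ℓ) (H := H) hc
  obtain ⟨a, b, ha, hab, hbd⟩ := cq_bounds hc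
  have hmem : ∀ z ∈ Metric.ball (0 : ℂ) 1, mm ℓ φ z ∈ Set.Icc (a / 2) (b / 2) := by
    intro z hz
    obtain ⟨P, hn, -⟩ := hP z hz
    have h1 := hbd _ P.o33
    rw [hn] at h1
    exact ⟨by unfold mm; linarith [h1.1], by unfold mm; linarith [h1.2]⟩
  have hmpos : ∀ z ∈ Metric.ball (0 : ℂ) 1, 0 < mm ℓ φ z := fun z hz =>
    lt_of_lt_of_le (by linarith) (hmem z hz).1
  have hlamc : ContinuousOn (lam ℓ φ) (Metric.ball 0 1) := hlamC.continuousOn
  have hmmC2 : ContDiffOn ℝ 2 (mm ℓ φ) (Metric.ball 0 1) := hmmC.of_le (by norm_cast)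
  have hvC : ContDiffOn ℝ 2 (fun z => Real.log (u z)) (Metric.ball 0 1) :=
    huC.log fun z hz => (hupos z hz).ne'
  have hlog : ∀ t > (0 : ℝ), HasDerivAt Real.log (t⁻¹) t := fun t ht => Real.hasDerivAt_log ht.ne'
  have hinv : ∀ t > (0 : ℝ), HasDerivAt (fun t : ℝ => t⁻¹) (-(t ^ 2)⁻¹) t := fun t ht =>
    hasDerivAt_inv ht.ne'
  have hw : ContinuousOn (fun z => √(lam ℓ φ z)) (Metric.ball 0 1) := hlamc.sqrt
  have hop : ∀ L, IsOpen (ReachSet (Metric.ball 0 1) (fun z => √(lam ℓ φ z)) L) ∧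
      ReachSet (Metric.ball 0 1) (fun z => √(lam ℓ φ z)) L ⊆ Metric.ball 0 1 := fun L =>
    isOpen_reachSet Metric.isOpen_ball hw (Metric.mem_ball_self one_pos) L
  have hlpos := h.immersed
  refine grow (A := fun L => ∫ z in ReachSet (Metric.ball 0 1) (fun z => √(lam ℓ φ z)) L,
    lam ℓ φ z) hε (B := b / 2) (by linarith) ?_ ?_ ?_
  · intro L L' hLL
    refine setIntegral_mono_set (intOn hlamc hcomp L') ?_ (reachSet_mono hLL).eventuallyLE
    filter_upwards [ae_restrict_mem (hop L').1.measurableSet] with z hz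
    exact (hlpos z ((hop L').2 hz)).le
  · refine (setIntegral_pos_iff_support_of_nonneg_ae ?_ (intOn hlamc hcomp 1)).2 ?_
    · filter_upwards [ae_restrict_mem (hop 1).1.measurableSet] with z hz
      exact (hlpos z ((hop 1).2 hz)).le
    · have e : Function.support (lam ℓ φ) ∩
          ReachSet (Metric.ball 0 1) (fun z => √(lam ℓ φ z)) 1 =
          ReachSet (Metric.ball 0 1) (fun z => √(lam ℓ φ z)) 1 := by
        refine Set.inter_eq_right.2 fun z hz => ?_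
        exact (hlpos z ((hop 1).2 hz)).ne'
      rw [e]
      exact (hop 1).1.measure_pos _ ⟨0, zero_mem_reachSet one_pos⟩
  · intro L hL
    refine step (N := mm ℓ φ) (v := fun z => Real.log (u z)) hε (by linarith) hlamc hlpos hmmC2 hvC
      hmpos (fun z hz => (hmem z hz).2) ?_ hcomp hL
    intro z hz
    obtain ⟨P, hn, hK, hD, hGr, hq⟩ := hP z hz
    have hm : mm ℓ φ z = P.m := by unfold mm PtData.m; rw [hn]
    have hl := hlpos z hz
    have hu := hupos z hz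
    have e3 : lap (fun w => Real.log (u w)) z =
        -((u z ^ 2)⁻¹) * ((fderiv ℝ u z 1) ^ 2 + (fderiv ℝ u z Complex.I) ^ 2) +
          (u z)⁻¹ * lap u z :=
      lap_comp huC hlog hinv hupos hz
    have e4 : ∀ x : ℂ, fderiv ℝ (fun w => Real.log (u w)) z x = (u z)⁻¹ * fderiv ℝ u z x :=
      fun x => chain1 huC hlog hupos hz x
    have e5 : lap u z = -(lam ℓ φ z * P.q * u z) := by
      have h1 := hueq z hz
      rw [hq] at h1
      have h2 : lap u z = lam ℓ φ z * ((lam ℓ φ z)⁻¹ * lap u z) := by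
        rw [← mul_assoc, mul_inv_cancel₀ hl.ne', one_mul]
      rw [h2]
      have h3 : (lam ℓ φ z)⁻¹ * lap u z = -(P.q * u z) := by linarith
      rw [h3]
      ring
    have e6 : (u z)⁻¹ * lap u z = -(lam ℓ φ z * P.q) := by
      rw [e5]
      field_simp
    have e7 : lap (fun w => Real.log (u w)) z +
        ((fderiv ℝ (fun w => Real.log (u w)) z 1) ^ 2 +
          (fderiv ℝ (fun w => Real.log (u w)) z Complex.I) ^ 2) = -(lam ℓ φ z * P.q) := by
      rw [e3, e4, e4, e6]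
      field_simp
      ring
    rw [e7, hGr, hD, hm]
    have h7 := mul_le_mul_of_nonneg_left (hv0 P) hl.le
    have hmp : 0 < P.m := hm ▸ hmpos z hz
    have e9 : lam ℓ φ z * P.Dm / 2 - P.m * -(lam ℓ φ z * P.q) - lam ℓ φ z * P.Gm / (4 * P.m) =
        lam ℓ φ z * (P.m * P.q + P.Dm / 2 - P.Gm / (4 * P.m)) := by
      ring
    rw [e9, mul_comm ε]
    exact h7

end Pool.Agent.SU2K
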