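import Pool.Agent.Lib.SU2K.IntYY

/-!
# The first integral estimate

Everything is on the unit disc `D`, `y = yy = 1 - |z|²`.
Proof sketch.  Put `F = ½∇N - N∇v` (components `F₁ = ½∂₁N - N∂₁v`, `F₂`, which are `C¹` on `D`).
Then `div F = Θ + |F|²/N` with `Θ = ½ lap N - N (lap v + |∇v|²) - |∇N|²/(4N) ≥ ε lm`.
For a cut-off `ξ` (Lipschitz, `0 ≤ ξ ≤ 1`, compact support in `D`), `DiscPDEAux.ibp` gives
`∫ ξ² div F = -∫ 2 ξ F·∇ξ ≤ ∫ ξ² |F|²/N + N |∇ξ|²`, so `ε ∫ ξ² lm ≤ B ∫ |∇ξ|²`.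
Take, for `0 < s < 1`, `ξ_s = (max 0 (y-s))² y^(t-2)` on `D` and `0` outside.  It is `C¹` (because
`x ↦ (max 0 x)²` is `C¹`), supported in `{y ≥ s}` (a closed disc in `D`), hence Lipschitz
(`ContDiff.lipschitzWith_of_hasCompactSupport`), `0 ≤ ξ_s ≤ y^t ≤ 1`, and
`|∂_a ξ_s| ≤ c y^(t-1)` for `a = 1, I`, with `c` depending only on `t` (`(y-s)₊ ≤ y`,
`|∂_a y| ≤ 2`).  So `ε ∫ ξ_s² lm ≤ 2 B c² ∫_D y^(2t-2) =: C₀ < ∞` by `integrableOn_yy_rpow`
(`2t - 2 > -1`).  Given `r < 1` (the ball is empty if `r ≤ 0`), take `s = (1-r²)/2`: on `ball 0 r`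
one has `y - s ≥ y/2`, so `ξ_s ≥ y^t/4` and `∫_{ball 0 r} y^(2t) lm ≤ 16 C₀ / ε`.
(See `Pool.Agent.SU2H.disc_nonexist` for an argument of exactly this kind in Lean, and
`DiscPDEAux` for the derivative lemmas `fd_add`, `fd_mul`, `int4` ....)
-/

noncomputable section

namespace Pool.Agent.SU2K.HypIntAux

open MeasureTheory Metric Set Filter Topology Pool.Agent.SU2H Pool.Agent.SU2H.DiscPDEAux

theorem hasDerivAt_sqpos (x : ℝ) : HasDerivAt (fun x : ℝ => max 0 x ^ 2) (2 * max 0 x) x := by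
  rcases lt_trichotomy x 0 with h | h | h
  · have e : (fun x : ℝ => max 0 x ^ 2) =ᶠ[𝓝 x] fun _ => 0 := by
      filter_upwards [Iio_mem_nhds h] with y hy
      rw [max_eq_left (le_of_lt hy)]
      norm_num
    rw [max_eq_left h.le, mul_zero]
    exact (hasDerivAt_const x (0 : ℝ)).congr_of_eventuallyEq e
  · subst h
    rw [max_self, mul_zero, hasDerivAt_iff_isLittleO]
    have h1 : (fun x' : ℝ => max 0 x' ^ 2 - max 0 (0 : ℝ) ^ 2 - (x' - 0) • (0 : ℝ)) =O[𝓝 0]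
        fun x' : ℝ => x' ^ 2 := by
      refine Asymptotics.IsBigO.of_bound 1 (.of_forall fun x' => ?_)
      have e : max 0 x' ^ 2 - max 0 (0 : ℝ) ^ 2 - (x' - 0) • (0 : ℝ) = max 0 x' ^ 2 := by
        simp
      rw [e, one_mul, norm_pow, norm_pow]
      refine pow_le_pow_left₀ (norm_nonneg _) ?_ 2
      rw [Real.norm_eq_abs, Real.norm_eq_abs, abs_of_nonneg (le_max_left _ _)]
      exact max_le (abs_nonneg _) (le_abs_self _)
    have h2 : (fun x : ℝ => x ^ 2) =o[𝓝 0] fun x : ℝ => x - 0 := by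
      simpa using Asymptotics.isLittleO_pow_id (𝕜 := ℝ) (by norm_num : 1 < 2)
    exact h1.trans_isLittleO h2
  · have e : (fun x : ℝ => max 0 x ^ 2) =ᶠ[𝓝 x] fun x => x ^ 2 := by
      filter_upwards [Ioi_mem_nhds h] with y hy
      rw [max_eq_right (le_of_lt hy)]
    rw [max_eq_right h.le]
    have h3 := (hasDerivAt_pow 2 x).congr_of_eventuallyEq e
    simpa using h3

theorem contDiff_sqpos : ContDiff ℝ 1 (fun x : ℝ => max 0 x ^ 2) := by
  rw [contDiff_one_iff_deriv]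
  refine ⟨fun x => (hasDerivAt_sqpos x).differentiableAt, ?_⟩
  have e : deriv (fun x : ℝ => max 0 x ^ 2) = fun x => 2 * max 0 x :=
    funext fun x => (hasDerivAt_sqpos x).deriv
  rw [e]
  exact continuous_const.mul (continuous_const.max continuous_id)

/-- the cut-off profile -/
def cut (t s x : ℝ) : ℝ := max 0 (x - s) ^ 2 * x ^ (t - 2)

theorem cut_zero {t s x : ℝ} (h : x ≤ s) : cut t s x = 0 := by
  unfold cut
  rw [max_eq_left (by linarith)]
  ring

theorem cut_contDiff (t : ℝ) {s : ℝ} (hs : 0 < s) : ContDiff ℝ 1 (cut t s) := by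
  refine contDiff_iff_contDiffAt.2 fun x => ?_
  by_cases hx : 0 < x
  · have h1 : ContDiffAt ℝ 1 (fun x : ℝ => max 0 (x - s) ^ 2) x :=
      (contDiff_sqpos.comp (contDiff_id.sub contDiff_const)).contDiffAt
    have h2 : ContDiffAt ℝ 1 (fun x : ℝ => x ^ (t - 2)) x :=
      Real.contDiffAt_rpow_const_of_ne hx.ne'
    exact h1.mul h2
  · have e : cut t s =ᶠ[𝓝 x] fun _ => 0 := by
      filter_upwards [Iio_mem_nhds (show x < s by linarith)] with y hy
      exact cut_zero (le_of_lt hy)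
    exact contDiffAt_const.congr_of_eventuallyEq e

theorem cut_hasDerivAt (t : ℝ) {s x : ℝ} (hx : 0 < x) :
    HasDerivAt (cut t s) (2 * max 0 (x - s) * x ^ (t - 2) +
      max 0 (x - s) ^ 2 * ((t - 2) * x ^ (t - 2 - 1))) x := by
  have h1 : HasDerivAt (fun x : ℝ => max 0 (x - s) ^ 2) (2 * max 0 (x - s)) x :=
    (hasDerivAt_sqpos (x - s)).comp_sub_const x s
  have h2 : HasDerivAt (fun x : ℝ => x ^ (t - 2)) ((t - 2) * x ^ (t - 2 - 1)) x :=
    Real.hasDerivAt_rpow_const (Or.inl hx.ne')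
  exact h1.mul h2

theorem pows (t : ℝ) {x : ℝ} (hx : 0 < x) : x ^ (t - 2) = x ^ (t - 2 - 1) * x ∧
    x ^ (t - 1) = x ^ (t - 2 - 1) * x * x ∧ x ^ t = x ^ (t - 2) * x ^ 2 := by
  have h1 : x ^ (t - 2) = x ^ (t - 2 - 1) * x := by
    rw [← Real.rpow_add_one hx.ne']
    ring_nf
  have h2 : x ^ (t - 1) = x ^ (t - 2) * x := by
    rw [← Real.rpow_add_one hx.ne']
    ring_nf
  have h3 : x ^ t = x ^ (t - 1) * x := by
    rw [← Real.rpow_add_one hx.ne']
    ring_nf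
  refine ⟨h1, by rw [h2, ← h1], ?_⟩
  rw [h3, h2]
  ring

theorem cut_deriv_le {t s x : ℝ} (ht : 0 < t) (ht1 : t < 1) (hs : 0 < s) (hx : 0 < x) :
    |2 * max 0 (x - s) * x ^ (t - 2) + max 0 (x - s) ^ 2 * ((t - 2) * x ^ (t - 2 - 1))| ≤
      4 * x ^ (t - 1) := by
  obtain ⟨h1, h2, -⟩ := pows t hx
  rw [h1, h2]
  have hP : 0 < x ^ (t - 2 - 1) := Real.rpow_pos_of_pos hx _
  generalize x ^ (t - 2 - 1) = P at *
  have hm0 : 0 ≤ max 0 (x - s) := le_max_left _ _
  have hmx : max 0 (x - s) ≤ x := max_le hx.le (by linarith)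
  generalize max 0 (x - s) = m at *
  have a1 : 0 ≤ m * (P * x) := by positivity
  have a2 : m * (P * x) ≤ x * (P * x) := mul_le_mul_of_nonneg_right hmx (by positivity)
  have a3 : 0 ≤ m ^ 2 * P * (2 - t) := by
    have : 0 < 2 - t := by linarith
    positivity
  have a4 : m ^ 2 * P * (2 - t) ≤ x ^ 2 * P * 2 := by
    have b1 : m ^ 2 ≤ x ^ 2 := pow_le_pow_left₀ hm0 hmx 2
    have b2 : m ^ 2 * P ≤ x ^ 2 * P := mul_le_mul_of_nonneg_right b1 hP.le
    exact mul_le_mul b2 (by linarith) (by linarith) (by positivity)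
  rw [abs_le]
  constructor <;> nlinarith

theorem cut_nonneg {t s x : ℝ} (hs : 0 < s) : 0 ≤ cut t s x := by
  rcases le_total x s with h | h
  · rw [cut_zero h]
  · unfold cut
    exact mul_nonneg (sq_nonneg _) (Real.rpow_nonneg (by linarith) _)

theorem cut_le_one {t s x : ℝ} (ht : 0 < t) (hs : 0 < s) (hx : x ≤ 1) : cut t s x ≤ 1 := by
  rcases le_total x s with h | h
  · rw [cut_zero h]
    norm_num
  · have hx0 : 0 < x := by linarith
    obtain ⟨-, -, h3⟩ := pows t hx0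
    have h4 : x ^ t ≤ 1 := Real.rpow_le_one hx0.le hx ht.le
    refine le_trans ?_ h4
    rw [h3]
    unfold cut
    rw [max_eq_right (by linarith), mul_comm]
    refine mul_le_mul_of_nonneg_left ?_ (Real.rpow_nonneg hx0.le _)
    exact pow_le_pow_left₀ (by linarith) (by linarith) 2

theorem cut_lower {t s x : ℝ} (hs : 0 < s) (hx : 2 * s ≤ x) : x ^ t / 4 ≤ cut t s x := by
  have hx0 : 0 < x := by linarith
  obtain ⟨-, -, h3⟩ := pows t hx0
  rw [h3]
  unfold cut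
  rw [max_eq_right (by linarith)]
  have h1 : 0 ≤ x ^ (t - 2) := Real.rpow_nonneg hx0.le _
  have h2 : (x / 2) ^ 2 ≤ (x - s) ^ 2 := pow_le_pow_left₀ (by linarith) (by linarith) 2
  nlinarith

theorem hasFDerivAt_yy (z : ℂ) : HasFDerivAt yy (-(2 • (innerSL ℝ z))) z := by
  have h1 : HasFDerivAt (fun x : ℂ => ‖x‖ ^ 2) (2 • (innerSL ℝ z)) z :=
    (hasStrictFDerivAt_norm_sq z).hasFDerivAt
  exact h1.const_sub 1

theorem yy_contDiff : ContDiff ℝ 1 yy :=
  contDiff_const.sub (contDiff_norm_sq ℝ)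

theorem yy_le_one (z : ℂ) : yy z ≤ 1 := by
  unfold yy
  have := sq_nonneg ‖z‖
  linarith

theorem yy_pos {z : ℂ} (hz : z ∈ ball (0 : ℂ) 1) : 0 < yy z := by
  unfold yy
  rw [mem_ball_zero_iff] at hz
  have := norm_nonneg z
  nlinarith

/-- The cut-off function. -/
theorem cutoff {t s : ℝ} (ht : 0 < t) (ht1 : t < 1) (hs : 0 < s) (hs1 : s < 1) :
    (∃ C, LipschitzWith C (fun z => cut t s (yy z))) ∧
    HasCompactSupport (fun z => cut t s (yy z)) ∧
    tsupport (fun z => cut t s (yy z)) ⊆ ball 0 1 ∧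
    ∀ z ∈ ball (0 : ℂ) 1, ∀ a : ℂ, ‖a‖ = 1 →
      |lineDeriv ℝ (fun z => cut t s (yy z)) z a| ≤ 8 * yy z ^ (t - 1) := by
  have hcd : ContDiff ℝ 1 (fun z => cut t s (yy z)) := (cut_contDiff t hs).comp yy_contDiff
  have hsupp : Function.support (fun z => cut t s (yy z)) ⊆ closedBall 0 (√(1 - s)) := by
    intro z hz
    rw [mem_closedBall_zero_iff]
    by_contra hcon
    push Not at hcon
    refine hz (cut_zero ?_)
    unfold yy
    have h1 := Real.sq_sqrt (show 0 ≤ 1 - s by linarith)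
    have h2 := Real.sqrt_nonneg (1 - s)
    nlinarith
  have hts : tsupport (fun z => cut t s (yy z)) ⊆ closedBall 0 (√(1 - s)) :=
    closure_minimal hsupp isClosed_closedBall
  have hlt : √(1 - s) < 1 := by
    rw [Real.sqrt_lt' one_pos]
    linarith
  have hc : HasCompactSupport (fun z => cut t s (yy z)) :=
    HasCompactSupport.of_support_subset_isCompact (isCompact_closedBall _ _) hsupp
  refine ⟨ContDiff.lipschitzWith_of_hasCompactSupport hc hcd (by simp), hc,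
    hts.trans (closedBall_subset_ball hlt), ?_⟩
  intro z hz a ha
  have hy := yy_pos hz
  rw [(hcd.differentiable (by simp)).differentiableAt.lineDeriv_eq_fderiv]
  have h1 : HasFDerivAt (fun z => cut t s (yy z)) _ z :=
    (cut_hasDerivAt t hy).comp_hasFDerivAt z (hasFDerivAt_yy z)
  rw [h1.fderiv]
  have h2 := cut_deriv_le ht ht1 hs hy
  have h3 : |(-(2 • (innerSL ℝ z)) : ℂ →L[ℝ] ℝ) a| ≤ 2 := by
    have e : (-(2 • (innerSL ℝ z)) : ℂ →L[ℝ] ℝ) a = -(2 * inner ℝ z a) := by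
      simp
      ring
    rw [e, abs_neg, abs_mul, abs_two]
    have h4 := abs_real_inner_le_norm z a
    rw [ha, mul_one] at h4
    rw [mem_ball_zero_iff] at hz
    linarith
  rw [smul_apply, smul_eq_mul, abs_mul]
  have h5 : 0 ≤ yy z ^ (t - 1) := Real.rpow_nonneg hy.le _
  calc _ ≤ (4 * yy z ^ (t - 1)) * 2 := mul_le_mul h2 h3 (abs_nonneg _) (by positivity)
    _ = 8 * yy z ^ (t - 1) := by ring

theorem algN {n f1 f2 x l1 l2 : ℝ} (hn : 0 < n) :
    -(n * (l1 ^ 2 + l2 ^ 2)) ≤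
      (f1 ^ 2 + f2 ^ 2) / n * x ^ 2 + f1 * (2 * x * l1) + f2 * (2 * x * l2) := by
  have e : (f1 ^ 2 + f2 ^ 2) / n * x ^ 2 + f1 * (2 * x * l1) + f2 * (2 * x * l2) +
      n * (l1 ^ 2 + l2 ^ 2) = ((x * f1 + n * l1) ^ 2 + (x * f2 + n * l2) ^ 2) / n := by
    field_simp
    ring
  have h : 0 ≤ ((x * f1 + n * l1) ^ 2 + (x * f2 + n * l2) ^ 2) / n := by positivity
  linarith

theorem int4' {f1 f2 f3 f4 : ℂ → ℝ} (h1 : Integrable f1) (h2 : Integrable f2)
    (h3 : Integrable f3) (h4 : Integrable f4) :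
    Integrable (fun z => f1 z + f2 z + f3 z + f4 z) ∧
      ∫ z, (f1 z + f2 z + f3 z + f4 z) = (∫ z, f1 z) + (∫ z, f2 z) + (∫ z, f3 z) +
        ∫ z, f4 z := by
  have i2 : Integrable (fun z => f1 z + f2 z) := h1.add h2
  have i3 : Integrable (fun z => f1 z + f2 z + f3 z) := i2.add h3
  refine ⟨i3.add h4, ?_⟩
  rw [integral_add i3 h4, integral_add i2 h3, integral_add h1 h2]

theorem dFN {N v : ℂ → ℝ} (hN : ContDiffOn ℝ 2 N (ball 0 1)) (hv : ContDiffOn ℝ 2 v (ball 0 1))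
    {z : ℂ} (hz : z ∈ ball (0 : ℂ) 1) (a : ℂ) :
    fderiv ℝ (fun w => fderiv ℝ N w a / 2 - N w * fderiv ℝ v w a) z a =
      fderiv ℝ (fun w => fderiv ℝ N w a) z a / 2 -
        (N z * fderiv ℝ (fun w => fderiv ℝ v w a) z a + fderiv ℝ v z a * fderiv ℝ N z a) := by
  have h1 : HasFDerivAt (fun w => fderiv ℝ N w a) (fderiv ℝ (fun w => fderiv ℝ N w a) z) z :=
    (fd2_diff hN hz a).hasFDerivAt
  have h2 : HasFDerivAt (fun w => fderiv ℝ v w a) (fderiv ℝ (fun w => fderiv ℝ v w a) z) z :=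
    (fd2_diff hv hz a).hasFDerivAt
  have h3 : HasFDerivAt N (fderiv ℝ N z) z := (fd_diff hN hz).hasFDerivAt
  have h4 : HasFDerivAt (fun w => fderiv ℝ N w a / 2 - N w * fderiv ℝ v w a) _ z :=
    (h1.mul_const (2 : ℝ)⁻¹).sub (h3.mul h2)
  rw [h4.fderiv]
  simp only [sub_apply, add_apply, smul_apply, smul_eq_mul]
  ring

theorem contFN {N v : ℂ → ℝ} (hN : ContDiffOn ℝ 2 N (ball 0 1))
    (hv : ContDiffOn ℝ 2 v (ball 0 1)) (a : ℂ) :
    ContDiffOn ℝ 1 (fun w => fderiv ℝ N w a / 2 - N w * fderiv ℝ v w a) (ball 0 1) := by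
  have h1 : ContDiffOn ℝ 1 N (ball 0 1) := hN.of_le (by norm_num)
  exact ((fd_contDiffOn hN a).div_const 2).sub (h1.mul (fd_contDiffOn hv a))

end Pool.Agent.SU2K.HypIntAux

namespace Pool.Agent.SU2K

open MeasureTheory Pool.Agent.SU2H

theorem hyp_int {lm N v : ℂ → ℝ} {t ε B : ℝ} (ht : 1 / 2 < t) (ht1 : t < 1) (hε : 0 < ε)
    (hlm : ContinuousOn lm (Metric.ball 0 1)) (hl0 : ∀ z ∈ Metric.ball (0 : ℂ) 1, 0 < lm z)
    (hN : ContDiffOn ℝ 2 N (Metric.ball 0 1)) (hv : ContDiffOn ℝ 2 v (Metric.ball 0 1))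
    (hN0 : ∀ z ∈ Metric.ball (0 : ℂ) 1, 0 < N z) (hNB : ∀ z ∈ Metric.ball (0 : ℂ) 1, N z ≤ B)
    (hineq : ∀ z ∈ Metric.ball (0 : ℂ) 1,
      ε * lm z ≤ lap N z / 2 - N z * (lap v z + gr2 v z) - gr2 N z / (4 * N z)) :
    ∃ C : ℝ, ∀ r < 1, ∫ z in Metric.ball (0 : ℂ) r, yy z ^ (2 * t) * lm z ≤ C := by
  classical
  have h0D : (0 : ℂ) ∈ Metric.ball (0 : ℂ) 1 := Metric.mem_ball_self one_pos
  have hB0 : 0 < B := (hN0 0 h0D).trans_le (hNB 0 h0D)
  have hYi : IntegrableOn (fun z : ℂ => yy z ^ (2 * t - 2)) (Metric.ball 0 1) :=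
    integrableOn_yy_rpow (by linarith)
  set J : ℝ := ∫ z in Metric.ball (0 : ℂ) 1, yy z ^ (2 * t - 2) with hJ
  have hJ0 : 0 ≤ J := setIntegral_nonneg measurableSet_ball fun z hz =>
    Real.rpow_nonneg (HypIntAux.yy_pos hz).le _
  refine ⟨16 / ε * (128 * B * J), fun r hr => ?_⟩
  rcases le_or_gt r 0 with hr0 | hr0
  · rw [Metric.ball_eq_empty.2 hr0, Measure.restrict_empty, integral_zero_measure]
    positivity
  have hs : 0 < (1 - r ^ 2) / 2 := by nlinarith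
  have hs1 : (1 - r ^ 2) / 2 < 1 := by nlinarith
  obtain ⟨⟨C, hL⟩, hc, hts, hld⟩ := HypIntAux.cutoff (by linarith : 0 < t) ht1 hs hs1
  set ξ : ℂ → ℝ := fun z => HypIntAux.cut t ((1 - r ^ 2) / 2) (yy z) with hξ
  have hξ0 : ∀ z, 0 ≤ ξ z := fun z => HypIntAux.cut_nonneg hs
  have hξ1 : ∀ z, ξ z ≤ 1 := fun z =>
    HypIntAux.cut_le_one (by linarith) hs (HypIntAux.yy_le_one z)
  obtain ⟨i1, j1, k1⟩ := DiscPDEAux.ibp (HypIntAux.contFN hN hv 1) hL hξ0 hξ1 hc hts 1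
  obtain ⟨i2, j2, k2⟩ := DiscPDEAux.ibp (HypIntAux.contFN hN hv Complex.I) hL hξ0 hξ1 hc hts
    Complex.I
  let G : ℂ → ℝ := fun z =>
    fderiv ℝ (fun w => fderiv ℝ N w 1 / 2 - N w * fderiv ℝ v w 1) z 1 * ξ z ^ 2 +
    fderiv ℝ (fun w => fderiv ℝ N w Complex.I / 2 - N w * fderiv ℝ v w Complex.I) z Complex.I *
      ξ z ^ 2 +
    (fderiv ℝ N z 1 / 2 - N z * fderiv ℝ v z 1) * (2 * ξ z * lineDeriv ℝ ξ z 1) +
    (fderiv ℝ N z Complex.I / 2 - N z * fderiv ℝ v z Complex.I) *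
      (2 * ξ z * lineDeriv ℝ ξ z Complex.I)
  obtain ⟨hGi, hGe⟩ := HypIntAux.int4' i1 i2 j1 j2
  replace hGi : Integrable G := hGi
  have hG0 : ∫ z, G z = 0 := by
    refine hGe.trans ?_
    rw [k1, k2]
    ring
  have hGD : ∀ z ∈ Metric.ball (0 : ℂ) 1,
      ε * lm z * ξ z ^ 2 ≤ G z + 128 * B * yy z ^ (2 * t - 2) := by
    intro z hz
    have hy := HypIntAux.yy_pos hz
    have hn := hN0 z hz
    have e1 := HypIntAux.dFN hN hv hz 1
    have e2 := HypIntAux.dFN hN hv hz Complex.I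
    have l1 := hld z hz 1 (by simp)
    have l2 := hld z hz Complex.I (by simp)
    have ha := HypIntAux.algN (f1 := fderiv ℝ N z 1 / 2 - N z * fderiv ℝ v z 1)
      (f2 := fderiv ℝ N z Complex.I / 2 - N z * fderiv ℝ v z Complex.I) (x := ξ z)
      (l1 := lineDeriv ℝ ξ z 1) (l2 := lineDeriv ℝ ξ z Complex.I) hn
    have eY : yy z ^ (2 * t - 2) = (yy z ^ (t - 1)) ^ 2 := by
      rw [← Real.rpow_natCast, ← Real.rpow_mul hy.le]
      congr 1
      push_cast
      ring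
    have hY0 : 0 ≤ yy z ^ (t - 1) := Real.rpow_nonneg hy.le _
    have q1 : lineDeriv ℝ ξ z 1 ^ 2 ≤ (8 * yy z ^ (t - 1)) ^ 2 := by
      rw [← sq_abs]
      exact pow_le_pow_left₀ (abs_nonneg _) l1 2
    have q2 : lineDeriv ℝ ξ z Complex.I ^ 2 ≤ (8 * yy z ^ (t - 1)) ^ 2 := by
      rw [← sq_abs]
      exact pow_le_pow_left₀ (abs_nonneg _) l2 2
    have q3 : N z * (lineDeriv ℝ ξ z 1 ^ 2 + lineDeriv ℝ ξ z Complex.I ^ 2) ≤
        B * (128 * (yy z ^ (t - 1)) ^ 2) := by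
      refine mul_le_mul (hNB z hz) (by nlinarith) (by positivity) hB0.le
    have hin := hineq z hz
    have hxi : 0 ≤ ξ z ^ 2 := sq_nonneg _
    have hid : fderiv ℝ (fun w => fderiv ℝ N w 1 / 2 - N w * fderiv ℝ v w 1) z 1 +
        fderiv ℝ (fun w => fderiv ℝ N w Complex.I / 2 - N w * fderiv ℝ v w Complex.I) z
          Complex.I =
        (lap N z / 2 - N z * (lap v z + gr2 v z) - gr2 N z / (4 * N z)) +
          ((fderiv ℝ N z 1 / 2 - N z * fderiv ℝ v z 1) ^ 2 +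
            (fderiv ℝ N z Complex.I / 2 - N z * fderiv ℝ v z Complex.I) ^ 2) / N z := by
      rw [e1, e2]
      unfold lap gr2
      field_simp
      ring
    have hmul := mul_le_mul_of_nonneg_right hin hxi
    change ε * lm z * ξ z ^ 2 ≤
      (fderiv ℝ (fun w => fderiv ℝ N w 1 / 2 - N w * fderiv ℝ v w 1) z 1 * ξ z ^ 2 +
      fderiv ℝ (fun w => fderiv ℝ N w Complex.I / 2 - N w * fderiv ℝ v w Complex.I) z
        Complex.I * ξ z ^ 2 +
      (fderiv ℝ N z 1 / 2 - N z * fderiv ℝ v z 1) * (2 * ξ z * lineDeriv ℝ ξ z 1) +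
      (fderiv ℝ N z Complex.I / 2 - N z * fderiv ℝ v z Complex.I) *
        (2 * ξ z * lineDeriv ℝ ξ z Complex.I)) + 128 * B * yy z ^ (2 * t - 2)
    rw [← add_mul, hid, add_mul, eY]
    linarith
  have hGout : ∀ z, z ∉ Metric.ball (0 : ℂ) 1 → G z = 0 := by
    intro z hz
    have e1 : ξ z = 0 := image_eq_zero_of_notMem_tsupport fun hcon => hz (hts hcon)
    change _ * ξ z ^ 2 + _ * ξ z ^ 2 + _ * (2 * ξ z * _) + _ * (2 * ξ z * _) = 0
    rw [e1]
    ring
  have hrD : Metric.ball (0 : ℂ) r ⊆ Metric.ball 0 1 := Metric.ball_subset_ball hr.le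
  have hle : ∀ z, (Metric.ball (0 : ℂ) r).indicator
      (fun z => ε / 16 * (yy z ^ (2 * t) * lm z)) z ≤
      G z + (Metric.ball (0 : ℂ) 1).indicator (fun z => 128 * B * yy z ^ (2 * t - 2)) z := by
    intro z
    by_cases hz : z ∈ Metric.ball (0 : ℂ) 1
    · rw [Set.indicator_of_mem hz (fun z => 128 * B * yy z ^ (2 * t - 2))]
      refine le_trans ?_ (hGD z hz)
      have hl := hl0 z hz
      by_cases hz' : z ∈ Metric.ball (0 : ℂ) r
      · rw [Set.indicator_of_mem hz']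
        have hy := HypIntAux.yy_pos hz
        have hy2 : 2 * ((1 - r ^ 2) / 2) ≤ yy z := by
          unfold yy
          rw [mem_ball_zero_iff] at hz'
          have := norm_nonneg z
          nlinarith
        have h1 : yy z ^ t / 4 ≤ ξ z := HypIntAux.cut_lower hs hy2
        have h2 : (yy z ^ t / 4) ^ 2 ≤ ξ z ^ 2 :=
          pow_le_pow_left₀ (div_nonneg (Real.rpow_nonneg hy.le _) (by norm_num)) h1 2
        have e3 : yy z ^ (2 * t) = (yy z ^ t) ^ 2 := by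
          rw [← Real.rpow_natCast, ← Real.rpow_mul hy.le]
          congr 1
          push_cast
          ring
        rw [e3]
        have h3 := mul_le_mul_of_nonneg_left h2 (mul_pos hε hl).le
        calc ε / 16 * ((yy z ^ t) ^ 2 * lm z) = ε * lm z * (yy z ^ t / 4) ^ 2 := by ring
          _ ≤ _ := h3
      · rw [Set.indicator_of_notMem hz']
        positivity
    · rw [Set.indicator_of_notMem hz, Set.indicator_of_notMem (fun h => hz (hrD h)), hGout z hz]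
      norm_num
  have hyc : Continuous (fun z => yy z ^ (2 * t)) :=
    HypIntAux.yy_contDiff.continuous.rpow_const fun z => Or.inr (by linarith)
  have hI0 : IntegrableOn (fun z => yy z ^ (2 * t) * lm z) (Metric.ball (0 : ℂ) r) := by
    have h1 : ContinuousOn (fun z => yy z ^ (2 * t) * lm z) (Metric.closedBall (0 : ℂ) r) :=
      hyc.continuousOn.mul (hlm.mono (Metric.closedBall_subset_ball hr))
    exact (h1.integrableOn_compact (isCompact_closedBall _ _)).mono_set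
      Metric.ball_subset_closedBall
  have hI1 : Integrable ((Metric.ball (0 : ℂ) r).indicator
      (fun z => ε / 16 * (yy z ^ (2 * t) * lm z))) :=
    (integrable_indicator_iff measurableSet_ball).2 (hI0.const_mul _)
  have hI2 : Integrable ((Metric.ball (0 : ℂ) 1).indicator
      (fun z => 128 * B * yy z ^ (2 * t - 2))) :=
    (integrable_indicator_iff measurableSet_ball).2 (hYi.const_mul _)
  have hint := integral_mono hI1 (hGi.add hI2) hle
  have hsum : ∫ z, (G + (Metric.ball (0 : ℂ) 1).indicator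
      (fun z => 128 * B * yy z ^ (2 * t - 2))) z = 128 * B * J := by
    have h1 : ∫ z, (G + (Metric.ball (0 : ℂ) 1).indicator
      (fun z => 128 * B * yy z ^ (2 * t - 2))) z = (∫ z, G z) +
        ∫ z, (Metric.ball (0 : ℂ) 1).indicator (fun z => 128 * B * yy z ^ (2 * t - 2)) z :=
      integral_add hGi hI2
    rw [h1, hG0, integral_indicator measurableSet_ball, integral_const_mul, zero_add]
  rw [hsum, integral_indicator measurableSet_ball, integral_const_mul] at hint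
  have e9 : (∫ z in Metric.ball (0 : ℂ) r, yy z ^ (2 * t) * lm z) =
      16 / ε * (ε / 16 * ∫ z in Metric.ball (0 : ℂ) r, yy z ^ (2 * t) * lm z) := by
    field_simp
  rw [e9]
  exact mul_le_mul_of_nonneg_left hint (by positivity)

end Pool.Agent.SU2K
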