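import Pool.Agent.Lib.SU2K.Defs

/-!
# An integral

Proof sketch.  `yy z = 1 - |z|²` only depends on `‖z‖`; use
`MeasureTheory.integrable_fun_norm_addHaar` (`Integrable (fun x => f ‖x‖) μ ↔
IntegrableOn (fun y : ℝ => y ^ (dim - 1) • f y) (Ioi 0)`) for
`f y = indicator (Iio 1) (1 - y²)^s`, i.e. `y (1-y²)^s` is integrable on `(0,1)`, since
`-(1-y²)^(s+1)/(2(s+1))` is a primitive that is continuous on `[0,1]`
(`integrableOn_deriv_of_nonneg` or comparison with `(1-y)^s`, `intervalIntegrable_rpow'`).
-/

noncomputable section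

namespace Pool.Agent.SU2K

open MeasureTheory

theorem integrableOn_yy_rpow {s : ℝ} (hs : -1 < s) :
    IntegrableOn (fun z : ℂ => yy z ^ s) (Metric.ball 0 1) := by
  have h := (integrableOn_fun_norm_addHaar (μ := (volume : Measure ℂ))
    (f := fun y : ℝ => (1 - y ^ 2) ^ s) (r := 1)).2 ?_
  · exact h
  · have hd : Module.finrank ℝ ℂ - 1 = 1 := by
      rw [Complex.finrank_real_complex]
    rw [hd]
    have h0 : (0 : ℝ) < s + 1 := by linarith
    have hI : IntegrableOn (fun y : ℝ => y * (1 - y ^ 2) ^ s) (Set.Ioc 0 1) := by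
      refine intervalIntegral.integrableOn_deriv_of_nonneg
        (g := fun y : ℝ => -((1 - y ^ 2) ^ (s + 1) / (2 * (s + 1)))) ?_ ?_ ?_
      · apply ContinuousOn.neg
        apply ContinuousOn.div_const
        apply ContinuousOn.rpow_const (by fun_prop)
        intro x _
        right
        exact h0.le
      · intro x hx
        have hx2 : (0 : ℝ) < 1 - x ^ 2 := by nlinarith [hx.1, hx.2]
        have h1 : HasDerivAt (fun y : ℝ => 1 - y ^ 2) (-(2 * x)) x := by
          have := (hasDerivAt_pow 2 x).const_sub 1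
          simpa using this
        have h2 := (h1.rpow_const (p := s + 1) (Or.inl hx2.ne')).div_const (2 * (s + 1))
        have h3 := h2.neg
        refine h3.congr_deriv ?_
        have : s + 1 - 1 = s := by ring
        rw [this]
        field_simp
      · intro x hx
        have hx2 : (0 : ℝ) < 1 - x ^ 2 := by nlinarith [hx.1, hx.2]
        exact mul_nonneg hx.1.le (Real.rpow_nonneg hx2.le _)
    have h5 := hI.mono_set Set.Ioo_subset_Ioc_self
    simpa using h5

end Pool.Agent.SU2K
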