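import Mathlib

/-! # Two polynomials -/

noncomputable section

namespace Pool.Agent.SU2K

/-- the value at `a = 1` -/
def FI (r v x : ℝ) : ℝ :=
  r ^ 4 / 4 + x * r ^ 2 * (-(201 / 200) * (1 + v) + v - ((81 / 25) * v - (v - r) ^ 2) / 2)
    + x ^ 2 * (-(201 / 100) * r ^ 2 + v * ((148 / 25) * (1 + v) - 784 / 625 - (56 / 25) * r))
    + (296 / 25) * v * x ^ 3

/-- the slope in `a` -/
def GG (r v x : ℝ) : ℝ :=
  x * r ^ 2 * (-(201 / 200) + (3 * v + 1 - 81 / 25 - 2 * r) / 2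
      - ((81 / 25) * v - (v - r) ^ 2) / 8)
    + x ^ 2 * v * ((148 / 25) * (2 + v) - 784 / 625 - (56 / 25) * r)
    + (296 / 25) * v * x ^ 3

end Pool.Agent.SU2K
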