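import Pool.Agent.Lib.SU2K.PolyDefs

/-!
# The first polynomial inequality

True with a margin: numerically `FI ≥ 0.0985 * r⁴/4 ≈ 0.0246 r⁴` (worst case near `r = 1.42`,
`v = 1`, `x = 0.30`).  Proof idea: `FI = r⁴/4 + x r² L + x² Q + C x³`, `C = (296/25) v`; use
`x³ ≥ 2κr x² - κ²r² x` (i.e. `x (x-κr)² ≥ 0`) with `κ ≈ 0.26` (it may depend on `r, v`), so that
`FI ≥ r⁴/4 + x r² L' + x² Q'` with `L' = L - C κ²`, `Q' = Q + 2 C κ r`, and it is enough that
`(1 - 8/100) Q' ≥ L'²` when `L' < 0`, `Q' ≥ 0` otherwise; these are inequalities in `(r, v)` on the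
region `1 ≤ r`, `1 ≤ v`, `(v-r)² ≤ (81/25) v`; numerically `Q' - L'² ≥ 0.32 r²` for `κ = 0.26`.
Large `r` is easy (leading coefficients), small `r` is a compact region.
-/

noncomputable section

namespace Pool.Agent.SU2K

namespace PolyIAux

/-- the coefficient of `x r²` after the estimate of `x³` -/
def L1 (r v : ℝ) : ℝ :=
  -(201 / 200) * (1 + v) + v - ((81 / 25) * v - (v - r) ^ 2) / 2 - (296 / 25) * (121 / 2500) * v

/-- the coefficient of `x²` after the estimate of `x³` -/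
def Q1 (r v : ℝ) : ℝ :=
  -(201 / 100) * r ^ 2 + v * ((148 / 25) * (1 + v) - 784 / 625 - (56 / 25) * r)
    + 2 * (296 / 25) * v * (11 / 50) * r

theorem key {r v : ℝ} (hv : 1 ≤ v) (h : (v - r) ^ 2 ≤ (81 / 25) * v) :
    L1 r v ^ 2 ≤ (23 / 25) * Q1 r v := by
  obtain ⟨d, rfl⟩ : ∃ d, r = v + d := ⟨r - v, by ring⟩
  have hd : d ^ 2 ≤ (81 / 25) * v := by nlinarith [h]
  have e : (23 / 25) * Q1 (v + d) v - L1 (v + d) v ^ 2 =
      (23 / 25) * Q1 v v - L1 v v ^ 2 + ((23 / 25) * (-(201 / 50) * v - (56 / 25) * v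
        + 2 * (296 / 25) * (11 / 50) * v)) * d
      + (-(23 / 25) * (201 / 100) + (201 / 200 + (201 / 200 + 31 / 50) * v
        + (296 / 25) * (121 / 2500) * v)) * d ^ 2 - d ^ 4 / 4 := by
    unfold Q1 L1
    ring
  have e0 : (23 / 25) * Q1 v v - L1 v v ^ 2 - (1.4977 * v ^ 2 - 0.1258 * v - 1.0101) ≥ 0 := by
    unfold Q1 L1
    nlinarith
  have hd4 : 0 ≤ d ^ 2 * ((81 / 25) * v - d ^ 2) := mul_nonneg (sq_nonneg d) (by linarith)
  have main : 0 ≤ (1.4977 * v ^ 2 - 0.1258 * v - 1.0101) + ((23 / 25) * (-(201 / 50) * v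
      - (56 / 25) * v + 2 * (296 / 25) * (11 / 50) * v)) * d
      + (-(23 / 25) * (201 / 100) + (201 / 200 + (201 / 200 + 31 / 50) * v
        + (296 / 25) * (121 / 2500) * v)) * d ^ 2 - d ^ 4 / 4 := by
    rcases le_or_gt d 0 with h0 | h0
    · nlinarith [mul_nonneg (by linarith : (0 : ℝ) ≤ v - 1) (sq_nonneg d), sq_nonneg (v - 1),
        mul_nonneg (by linarith : (0 : ℝ) ≤ v) (by linarith : (0 : ℝ) ≤ -d)]
    · rcases le_or_gt d (13 / 10) with h1 | h1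
      · have h2 : d ^ 4 / 4 ≤ (169 / 400) * d ^ 2 := by
          have : d ^ 2 ≤ 169 / 100 := by nlinarith
          nlinarith [sq_nonneg d]
        nlinarith [mul_nonneg (by linarith : (0 : ℝ) ≤ v - 1) (sq_nonneg d), sq_nonneg (v - 1),
          sq_nonneg (d - 0.5), sq_nonneg (d - 0.4), sq_nonneg (d - 0.45),
          mul_nonneg (by linarith : (0 : ℝ) ≤ v - 1) (sq_nonneg (d - 0.5)), sq_nonneg (v - d)]
      · nlinarith [mul_nonneg (by linarith : (0 : ℝ) ≤ v - 1) (sq_nonneg d), sq_nonneg (v - 1),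
          mul_nonneg (by linarith : (0 : ℝ) ≤ v - 1) (by linarith : (0 : ℝ) ≤ d - 13 / 10),
          mul_nonneg (by linarith : (0 : ℝ) ≤ v) (sq_nonneg (d - 13 / 10)),
          sq_nonneg (d - 13 / 10)]
  linarith

end PolyIAux

open PolyIAux

theorem polyI {r v x : ℝ} (hr : 1 ≤ r) (hv : 1 ≤ v) (hx : 0 ≤ x)
    (h : (v - r) ^ 2 ≤ (81 / 25) * v) : r ^ 4 / 50 ≤ FI r v x := by
  have hk := key hv h
  have e : FI r v x - r ^ 4 / 50 = (23 / 100) * (r ^ 2 + x * L1 r v / (23 / 50)) ^ 2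
      + x ^ 2 * (Q1 r v - L1 r v ^ 2 / (23 / 25))
      + (296 / 25) * v * (x * (x - (11 / 50) * r) ^ 2) := by
    unfold FI L1 Q1
    ring
  have h1 : 0 ≤ Q1 r v - L1 r v ^ 2 / (23 / 25) := by
    have : L1 r v ^ 2 / (23 / 25) ≤ Q1 r v := by
      rw [div_le_iff₀ (by norm_num)]
      linarith
    linarith
  have h2 : 0 ≤ x ^ 2 * (Q1 r v - L1 r v ^ 2 / (23 / 25)) := mul_nonneg (sq_nonneg x) h1
  have h3 : 0 ≤ (296 / 25) * v * (x * (x - (11 / 50) * r) ^ 2) :=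
    mul_nonneg (by linarith) (mul_nonneg hx (sq_nonneg _))
  have h4 : 0 ≤ (23 / 100) * (r ^ 2 + x * L1 r v / (23 / 50)) ^ 2 := by positivity
  linarith

end Pool.Agent.SU2K
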