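import Pool.Agent.Lib.SU2K.Defs
import Pool.Agent.Lib.SU2H.PtLemmas

/-!
# The main identity

`u = P.uu = n·Cn = 2m`, `σ = (c0+c1+c2)/2`, `E₂ = c0c1+c0c2+c1c2`, `Dt = c0c1c2`, `M = C_T - ddᵀ/u`,
`TT = ½ tr M`, `(m1, m2)` the trace free part of `M`, `h3`.
-/

noncomputable section

namespace Pool.Agent.SU2K

open Pool.Agent.SU2H

section
variable {c : Fin 3 → ℝ} {H : ℝ} (P : PtData c H)

/-- `n·Cn` -/
def uu : ℝ := cq c P.n P.n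
/-- half the trace of `M` -/
def TT : ℝ := (cq c P.e1 P.e1 + cq c P.e2 P.e2
  - (cq c P.e1 P.n ^ 2 + cq c P.e2 P.n ^ 2) / uu P) / 2
/-- trace free part of `M` -/
def m1 : ℝ := (cq c P.e1 P.e1 - cq c P.e2 P.e2) / 2
  - (cq c P.e1 P.n ^ 2 - cq c P.e2 P.n ^ 2) / (2 * uu P)
/-- trace free part of `M` -/
def m2 : ℝ := cq c P.e1 P.e2 - cq c P.e1 P.n * cq c P.e2 P.n / uu P
/-- `h3` -/
def h3 : ℝ := m1 P * cq c P.e1 P.e2 - m2 P * ((cq c P.e1 P.e1 - cq c P.e2 P.e2) / 2)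

end

private theorem key (H b1 b2 x c11 c22 c12 d1 d2 u σ E2 Dt : ℝ) (hu : u ≠ 0)
    (hσ : σ = (c11 + c22 + u) / 2)
    (hE : E2 = c11 * c22 + c11 * u + c22 * u - c12 ^ 2 - d1 ^ 2 - d2 ^ 2)
    (hD : Dt = c11 * c22 * u + 2 * c12 * d1 * d2 - c11 * d2 ^ 2 - c22 * d1 ^ 2 - u * c12 ^ 2)
    (B11 B12 B21 B22 q K Gm Dm T M1 M2 h : ℝ)
    (h11 : B11 = H + b1) (h22 : B22 = H - b1) (h12 : B12 = b2 + u / 2) (h21 : B21 = b2 - u / 2)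
    (hq : q = (B11 + c12) ^ 2 + (B22 - c12) ^ 2 + 2 * (B21 + σ - c11) ^ 2
      + 2 * ((σ - c11) * (σ - c22) - c12 ^ 2))
    (hK : K = B11 * B22 - B12 * B21 - d1 ^ 2 - d2 ^ 2 - u ^ 2 + c12 * (B22 - B11) + B12 * c11
      - B21 * c22)
    (hG : Gm = (B11 * d1 + B21 * d2) ^ 2 + (B12 * d1 + B22 * d2) ^ 2)
    (hDm : Dm = (B12 + B21) * (d1 ^ 2 - d2 ^ 2) + 2 * d1 * d2 * (B22 - B11)
      - u * (B11 ^ 2 + B12 ^ 2 + B21 ^ 2 + B22 ^ 2) + c11 * (B11 ^ 2 + B12 ^ 2)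
      + c22 * (B21 ^ 2 + B22 ^ 2) + 2 * c12 * (B11 * B21 + B12 * B22))
    (hT : T = (c11 + c22 - (d1 ^ 2 + d2 ^ 2) / u) / 2)
    (hM1 : M1 = (c11 - c22) / 2 - (d1 ^ 2 - d2 ^ 2) / (2 * u)) (hM2 : M2 = c12 - d1 * d2 / u)
    (hh : h = M1 * c12 - M2 * ((c11 - c22) / 2)) :
    (T + x) * (u / 2 * q + Dm / 2 - Gm / (4 * (u / 2)) + x * (q + K)) =
      ((T + x) * b1 + H * M1 + u / 2 * M2 + x * c12) ^ 2
      + ((T + x) * b2 + H * M2 - u / 2 * M1 - x * ((c11 - c22) / 2)) ^ 2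
      + (u * Dt / 4 + x * Dt / 2 + x * u / 2 * (E2 - 2 * σ * (2 * T) + (2 * T) ^ 2)
        + x ^ 2 * (E2 - σ ^ 2))
      + H ^ 2 * (Dt / u + 4 * x * T + 3 * x ^ 2) - 2 * x * H * h := by
  subst hσ hE hD hq hK hG hDm hT hM1 hM2 hh h11 h22 h12 h21
  field_simp
  ring

/-- The main identity. -/
theorem pt_identity {c : Fin 3 → ℝ} {H : ℝ} (P : PtData c H) (hu : uu P ≠ 0) (x : ℝ) :
    ∃ s1 s2 : ℝ, (TT P + x) * (P.m * P.q + P.Dm / 2 - P.Gm / (4 * P.m) + x * (P.q + P.K)) =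
      s1 ^ 2 + s2 ^ 2
      + (uu P * (c 0 * c 1 * c 2) / 4 + x * (c 0 * c 1 * c 2) / 2
        + x * uu P / 2 * ((c 0 * c 1 + c 0 * c 2 + c 1 * c 2)
          - 2 * ((c 0 + c 1 + c 2) / 2) * (2 * TT P) + (2 * TT P) ^ 2)
        + x ^ 2 * ((c 0 * c 1 + c 0 * c 2 + c 1 * c 2) - ((c 0 + c 1 + c 2) / 2) ^ 2))
      + H ^ 2 * (c 0 * c 1 * c 2 / uu P + 4 * x * TT P + 3 * x ^ 2) - 2 * x * H * h3 P := by
  have htr := P.tr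
  have hsk := P.skew
  have ht := P.tr_c
  have he := P.e2_c
  have hd := P.det_c
  have hm : P.m = uu P / 2 := rfl
  rw [hm]
  refine ⟨_, _, key H ((P.B11 - P.B22) / 2) ((P.B12 + P.B21) / 2) x (cq c P.e1 P.e1)
    (cq c P.e2 P.e2) (cq c P.e1 P.e2) (cq c P.e1 P.n) (cq c P.e2 P.n) (uu P) _ _ _ hu ?_ ?_ ?_
    P.B11 P.B12 P.B21 P.B22 P.q P.K P.Gm P.Dm (TT P) (m1 P) (m2 P) (h3 P) ?_ ?_ ?_ ?_ ?_ ?_ ?_ ?_
    ?_ ?_ ?_ ?_⟩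
  · unfold uu; linarith
  · unfold uu; linarith
  · unfold uu; linarith
  · linarith
  · linarith
  · unfold uu; linarith
  · unfold uu; linarith
  · rfl
  · unfold PtData.K uu; ring
  · rfl
  · unfold PtData.Dm uu; ring
  · rfl
  · rfl
  · rfl
  · rfl

end Pool.Agent.SU2K
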